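import Pool.Agent.Lib.MP_9f84a9_co.W.StmW

/-!
# MP_9f84a9_co, piece W10: the kernel is trivial
-/

set_option autoImplicit false

namespace Pool.Agent.Lib.MP_9f84a9_co

open Finset Filter Topology

/-- the first-order change of the length -/
private noncomputable def w10C {N k m : ℕ} (t : Fin m → SP N k) (y : Fin m → Dat N k)
    (δ : Fin m → Fin N ⊕ Fin k → E) : ℝ :=
  ∑ j, ((t j).edges.map fun e =>
          inner ℝ (δ j e.1 - δ j e.2) (uni (ipos (y j) e.1 - ipos (y j) e.2))).sum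

private lemma w10C_neg {N k m : ℕ} (t : Fin m → SP N k) (y : Fin m → Dat N k)
    (δ : Fin m → Fin N ⊕ Fin k → E) : w10C t y (fun j i => - δ j i) = - w10C t y δ := by
  unfold w10C
  rw [← Finset.sum_neg_distrib]
  refine Finset.sum_congr rfl fun j _ => ?_
  induction (t j).edges with
  | nil => simp
  | cons e l ih =>
    simp only [List.map_cons, List.sum_cons, ih]
    rw [show (- δ j e.1 - - δ j e.2 : E) = -(δ j e.1 - δ j e.2) by abel, inner_neg_left]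
    ring

private lemma w10_cont (u v du dv : E) (B : ℝ) (h : dist u v < B) :
    ∀ᶠ s in 𝓝[>] (0 : ℝ), dist (u + s • du) (v + s • dv) ≤ B := by
  have hc : Continuous fun s : ℝ => dist (u + s • du) (v + s • dv) := by fun_prop
  have h1 : Tendsto (fun s : ℝ => dist (u + s • du) (v + s • dv)) (𝓝 0) (𝓝 (dist u v)) := by
    have := hc.tendsto 0
    simpa using this
  have h2 : ∀ᶠ s in 𝓝 (0 : ℝ), dist (u + s • du) (v + s • dv) < B := h1.eventually_lt_const h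
  exact (h2.filter_mono nhdsWithin_le_nhds).mono fun s hs => hs.le

private lemma w10_list {α : Type} (l : List α) (f g h w : α → ℝ) (c : ℝ)
    (hl : ∀ x ∈ l, f x + g x = 2 * h x + c * w x) :
    (l.map f).sum + (l.map g).sum = 2 * (l.map h).sum + c * (l.map w).sum := by
  induction l with
  | nil => simp
  | cons a l ih =>
    simp only [List.map_cons, List.sum_cons]
    have h1 := hl a (by simp)
    have h2 := ih fun x hx => hl x (by simp [hx])
    linarith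

private lemma w10_nn {α : Type} (l : List α) (f : α → ℝ) (hl : ∀ x, 0 ≤ f x) :
    0 ≤ (l.map f).sum := by
  induction l with
  | nil => simp
  | cons a l ih =>
    simp only [List.map_cons, List.sum_cons]
    have := hl a
    linarith

private lemma w10_zero {α : Type} (l : List α) (f : α → ℝ) (hl : ∀ x, 0 ≤ f x)
    (h0 : (l.map f).sum ≤ 0) : ∀ x ∈ l, f x = 0 := by
  induction l with
  | nil => simp
  | cons a l ih =>
    simp only [List.map_cons, List.sum_cons] at h0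
    have h1 := hl a
    have h2 := w10_nn l f hl
    intro x hx
    rcases List.mem_cons.1 hx with rfl | hx
    · linarith
    · exact ih (by linarith) x hx

private lemma w10_par (a r d : E) (s : ℝ) :
    dist (a + s • d) r ^ 2 + dist (a + s • (-d)) r ^ 2 =
      2 * dist a r ^ 2 + 2 * s ^ 2 * ‖d‖ ^ 2 := by
  rw [dist_eq_norm, dist_eq_norm, dist_eq_norm]
  have h1 : a + s • d - r = (a - r) + s • d := by abel
  have h2 : a + s • (-d) - r = (a - r) - s • d := by rw [smul_neg]; abel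
  rw [h1, h2]
  have h3 := parallelogram_law_with_norm ℝ (a - r) (s • d)
  have h4 : ‖s • d‖ ^ 2 = s ^ 2 * ‖d‖ ^ 2 := by
    rw [norm_smul, mul_pow, Real.norm_eq_abs, sq_abs]
  nlinarith [h3, h4]

private lemma w10_phi {R1 r : ℝ} (h : r ≤ R1) : phi R1 r = r ^ 2 := by
  unfold phi; rw [if_pos h]

private lemma w10_step (hv : S_VL) (hb : S_bd) (w1 : S_W1) (w9 : S_W9) {N k m : ℕ}
    {Cl : Finset ℕ} {P R1 : ℝ} {t : Fin m → SP N k} {y : Fin m → Dat N k}
    (hnd : ∀ j, (t j).names.Nodup) (hc : Ctx Cl P R1 (mk t y)) (δ : Fin m → Fin N ⊕ Fin k → E)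
    (he : ∀ j, ∀ e ∈ (t j).edges,
        inner ℝ (δ j e.1 - δ j e.2) (rot (ipos (y j) e.1 - ipos (y j) e.2)) = 0)
    (hX : ∀ X, Mn Cl (mq t y) X →
        ∑ c ∈ X, inner ℝ (δ c.1 (Sum.inl c.2.1) - δ c.1 (Sum.inl c.2.2))
          (uni ((y c.1).1 c.2.1 - (y c.1).1 c.2.2)) = 0) :
    ∀ᶠ s in 𝓝[>] (0 : ℝ), ∃ y' : Fin m → Dat N k,
        (∀ j v, (y' j).1 v = (y j).1 v + s • δ j (Sum.inl v)) ∧
        (∀ j, ∀ i ∈ (t j).names,
          pos (y' j).1 ((y' j).2 i) = pos (y j).1 ((y j).2 i) + s • δ j (Sum.inr i)) ∧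
        InD Cl P (mk t y') ∧
        Lc (mk t y') = Lc (mk t y) + s * w10C t y δ ∧
        (∀ j, ∀ v ∈ Zs Cl (mq t y) j,
          dist ((y j).1 v + s • δ j (Sum.inl v)) ((y j).1 (t j).root) ≤ R1) := by
  have hmem : ∀ j, (t j).real (y j) ∈ mk t y := by
    intro j
    unfold mk
    exact (List.mem_ofFn' _ _).2 ⟨j, rfl⟩
  have hbd : ∀ j, ∀ v ∈ (t j).D.vl, dist ((y j).1 v) ((y j).1 (t j).root) ≤ R1 := by
    intro j v hvl
    have h := hb N Cl P R1 (mk t y) hc _ (hmem j) v hvl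
    rw [((w1 N k).1 (t j) (y j) (y j)).1] at h
    exact h
  have hdist : ∀ j, ∀ v ∈ (t j).D.vl, ∀ w ∈ (t j).D.vl, ∀ᶠ s in 𝓝[>] (0 : ℝ),
        dist ((y j).1 v + s • δ j (Sum.inl v)) ((y j).1 w + s • δ j (Sum.inl w)) ≤ P := by
    intro j v hvl w hwl
    apply w10_cont
    have h1 := hbd j v hvl
    have h2 := hbd j w hwl
    have h3 := dist_triangle_right ((y j).1 v) ((y j).1 w) ((y j).1 (t j).root)
    have h4 := hc.hP
    linarith
  obtain ⟨y', hy'⟩ := hv N k m Cl P R1 t y hnd hc δ he (fun X hX' => (hX X hX').ge) hdist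
  have hZ : ∀ᶠ s in 𝓝[>] (0 : ℝ), ∀ j, ∀ v ∈ Zs Cl (mq t y) j,
      dist ((y j).1 v + s • δ j (Sum.inl v)) ((y j).1 (t j).root) ≤ R1 := by
    refine Filter.eventually_all.2 fun j => ?_
    refine (Filter.eventually_all_finset _).2 fun v hvZ => ?_
    have h1 := (w9 N m Cl P R1 (mq t y) hc j).2.2.2.1 v hvZ
    have hr : (mq t y j).root = (t j).root := ((w1 N k).1 (t j) (y j) (y j)).1
    rw [hr] at h1
    have h2 := w10_cont ((y j).1 v) ((y j).1 (t j).root) (δ j (Sum.inl v)) 0 R1 h1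
    refine h2.mono fun s hs => ?_
    simpa using hs
  refine (hy'.and hZ).mono fun s hs => ?_
  obtain ⟨⟨h1, h2, h3, h4⟩, h5⟩ := hs
  exact ⟨y' s, h1, h2, h3, h4, h5⟩

/-- second difference of `Phi` in one piece -/
private lemma w10_piece (w1 : S_W1) {N k : ℕ} (t : SP N k) (y yp ym : Dat N k) (R1 s : ℝ)
    (Z : Finset (Fin N)) (δ : Fin N ⊕ Fin k → E)
    (hZ : ∀ v, v ∉ Z → δ (Sum.inl v) = 0) (hroot : δ (Sum.inl t.root) = 0)
    (h0 : ∀ v ∈ Z, dist (y.1 v) (y.1 t.root) ≤ R1)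
    (hp : ∀ v ∈ Z, dist (y.1 v + s • δ (Sum.inl v)) (y.1 t.root) ≤ R1)
    (hm : ∀ v ∈ Z, dist (y.1 v + s • (- δ (Sum.inl v))) (y.1 t.root) ≤ R1)
    (p1 : ∀ v, yp.1 v = y.1 v + s • δ (Sum.inl v))
    (p2 : ∀ i ∈ t.names, pos yp.1 (yp.2 i) = pos y.1 (y.2 i) + s • δ (Sum.inr i))
    (m1 : ∀ v, ym.1 v = y.1 v + s • (- δ (Sum.inl v)))
    (m2 : ∀ i ∈ t.names, pos ym.1 (ym.2 i) = pos y.1 (y.2 i) + s • (- δ (Sum.inr i))) :
    (t.real yp).Phi R1 + (t.real ym).Phi R1 = 2 * (t.real y).Phi R1 +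
      2 * s ^ 2 * ((t.D.vl.map fun v => ‖δ (Sum.inl v)‖ ^ 2).sum +
        (t.names.map fun i => ‖δ (Sum.inr i)‖ ^ 2).sum) := by
  rw [(w1 N k).2.1 t yp R1, (w1 N k).2.1 t ym R1, (w1 N k).2.1 t y R1]
  have hrp : yp.1 t.root = y.1 t.root := by rw [p1, hroot]; simp
  have hrm : ym.1 t.root = y.1 t.root := by rw [m1, hroot]; simp
  have e1 := w10_list t.D.vl (fun v => phi R1 (dist (yp.1 v) (yp.1 t.root)))
    (fun v => phi R1 (dist (ym.1 v) (ym.1 t.root)))
    (fun v => phi R1 (dist (y.1 v) (y.1 t.root))) (fun v => ‖δ (Sum.inl v)‖ ^ 2) (2 * s ^ 2) (by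
      intro v _
      show phi R1 (dist (yp.1 v) (yp.1 t.root)) + phi R1 (dist (ym.1 v) (ym.1 t.root)) =
        2 * phi R1 (dist (y.1 v) (y.1 t.root)) + 2 * s ^ 2 * ‖δ (Sum.inl v)‖ ^ 2
      rw [hrp, hrm, p1 v, m1 v]
      by_cases hvZ : v ∈ Z
      · rw [w10_phi (hp v hvZ), w10_phi (hm v hvZ), w10_phi (h0 v hvZ)]
        exact w10_par _ _ _ _
      · rw [hZ v hvZ]
        simp
        ring)
  have e2 := w10_list t.names (fun i => dist (pos yp.1 (yp.2 i)) (yp.1 t.root) ^ 2)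
    (fun i => dist (pos ym.1 (ym.2 i)) (ym.1 t.root) ^ 2)
    (fun i => dist (pos y.1 (y.2 i)) (y.1 t.root) ^ 2) (fun i => ‖δ (Sum.inr i)‖ ^ 2)
    (2 * s ^ 2) (by
      intro i hi
      show dist (pos yp.1 (yp.2 i)) (yp.1 t.root) ^ 2 + dist (pos ym.1 (ym.2 i)) (ym.1 t.root) ^ 2 =
        2 * dist (pos y.1 (y.2 i)) (y.1 t.root) ^ 2 + 2 * s ^ 2 * ‖δ (Sum.inr i)‖ ^ 2
      rw [hrp, hrm, p2 i hi, m2 i hi]
      exact w10_par _ _ _ _)
  linarith

theorem t_W10 (hv : S_VL) (hb : S_bd) (w1 : S_W1) (w9 : S_W9) : S_W10 := by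
  intro N k m Cl P R1 t y hnd hc δ hZ hroot he hX
  have h1 := w10_step hv hb w1 w9 hnd hc δ he hX
  have h2 := w10_step hv hb w1 w9 hnd hc (fun j i => - δ j i)
    (by
      intro j e hej
      show inner ℝ (- δ j e.1 - - δ j e.2) _ = 0
      rw [show (- δ j e.1 - - δ j e.2 : E) = -(δ j e.1 - δ j e.2) by abel, inner_neg_left,
        he j e hej, neg_zero])
    (by
      intro X hX'
      have h := hX X hX'
      rw [← neg_eq_zero, ← Finset.sum_neg_distrib] at h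
      rw [← h]
      refine Finset.sum_congr rfl fun c _ => ?_
      show inner ℝ (- δ c.1 (Sum.inl c.2.1) - - δ c.1 (Sum.inl c.2.2)) _ = _
      rw [show (- δ c.1 (Sum.inl c.2.1) - - δ c.1 (Sum.inl c.2.2) : E) =
        -(δ c.1 (Sum.inl c.2.1) - δ c.1 (Sum.inl c.2.2)) by abel, inner_neg_left])
  obtain ⟨s, ⟨hp, hm⟩, hs⟩ := ((h1.and h2).and self_mem_nhdsWithin).exists
  have hs0 : 0 < s := hs
  obtain ⟨yp, p1, p2, p3, p4, p5⟩ := hp
  obtain ⟨ym, m1, m2, m3, m4, m5⟩ := hm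
  rw [w10C_neg] at m4
  have o1p := hc.opt.o1 _ p3
  have o1m := hc.opt.o1 _ m3
  have hC : s * w10C t y δ = 0 := by
    have : s * -w10C t y δ = -(s * w10C t y δ) := by ring
    linarith
  have hLp : Lc (mk t yp) ≤ Lc (mk t y) := by linarith
  have hLm : Lc (mk t ym) ≤ Lc (mk t y) := by
    have : s * -w10C t y δ = -(s * w10C t y δ) := by ring
    linarith
  obtain ⟨mup, php⟩ := (w1 N k).2.2 m t yp y R1
  obtain ⟨mum, phm⟩ := (w1 N k).2.2 m t ym y R1
  obtain ⟨-, ph⟩ := (w1 N k).2.2 m t y y R1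
  have o3p := hc.opt.o3 _ p3 hLp mup.le
  have o3m := hc.opt.o3 _ m3 hLm mum.le
  rw [php, ph] at o3p
  rw [phm, ph] at o3m
  have hr : ∀ j, (mq t y j).root = (t j).root := fun j => ((w1 N k).1 (t j) (y j) (y j)).1
  have hpc : ∀ j, ((t j).real (yp j)).Phi R1 + ((t j).real (ym j)).Phi R1 =
      2 * ((t j).real (y j)).Phi R1 +
      2 * s ^ 2 * (((t j).D.vl.map fun v => ‖δ j (Sum.inl v)‖ ^ 2).sum +
        ((t j).names.map fun i => ‖δ j (Sum.inr i)‖ ^ 2).sum) := by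
    intro j
    refine w10_piece w1 (t j) (y j) (yp j) (ym j) R1 s (Zs Cl (mq t y) j) (δ j)
      (fun v => hZ j v) (hroot j) ?_ (p5 j) (m5 j) (p1 j) (p2 j) (m1 j) (m2 j)
    intro v hvZ
    have h := (w9 N m Cl P R1 (mq t y) hc j).2.2.2.1 v hvZ
    rw [hr j] at h
    exact h.le
  have hW : ∀ j, 0 ≤ (((t j).D.vl.map fun v => ‖δ j (Sum.inl v)‖ ^ 2).sum +
        ((t j).names.map fun i => ‖δ j (Sum.inr i)‖ ^ 2).sum) := fun j =>
    add_nonneg (w10_nn _ _ fun v => by positivity) (w10_nn _ _ fun v => by positivity)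
  have hsum : ∑ j, ((t j).real (yp j)).Phi R1 + ∑ j, ((t j).real (ym j)).Phi R1 =
      2 * ∑ j, ((t j).real (y j)).Phi R1 +
      2 * s ^ 2 * ∑ j, (((t j).D.vl.map fun v => ‖δ j (Sum.inl v)‖ ^ 2).sum +
        ((t j).names.map fun i => ‖δ j (Sum.inr i)‖ ^ 2).sum) := by
    rw [← Finset.sum_add_distrib, Finset.mul_sum, Finset.mul_sum, ← Finset.sum_add_distrib]
    exact Finset.sum_congr rfl fun j _ => hpc j
  have hW0 : ∑ j, (((t j).D.vl.map fun v => ‖δ j (Sum.inl v)‖ ^ 2).sum +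
        ((t j).names.map fun i => ‖δ j (Sum.inr i)‖ ^ 2).sum) = 0 := by
    have hn : 0 ≤ ∑ j, (((t j).D.vl.map fun v => ‖δ j (Sum.inl v)‖ ^ 2).sum +
        ((t j).names.map fun i => ‖δ j (Sum.inr i)‖ ^ 2).sum) :=
      Finset.sum_nonneg fun j _ => hW j
    have hs2 : 0 < 2 * s ^ 2 := by positivity
    nlinarith
  have hWj := (Finset.sum_eq_zero_iff_of_nonneg fun j _ => hW j).1 hW0
  have hA : ∀ j, (∀ v ∈ (t j).D.vl, ‖δ j (Sum.inl v)‖ ^ 2 = 0) ∧
      (∀ i ∈ (t j).names, ‖δ j (Sum.inr i)‖ ^ 2 = 0) := by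
    intro j
    have h := hWj j (Finset.mem_univ j)
    have n1 := w10_nn (t j).D.vl (fun v => ‖δ j (Sum.inl v)‖ ^ 2) fun v => by positivity
    have n2 := w10_nn (t j).names (fun i => ‖δ j (Sum.inr i)‖ ^ 2) fun v => by positivity
    exact ⟨w10_zero _ _ (fun v => by positivity) (by linarith),
      w10_zero _ _ (fun v => by positivity) (by linarith)⟩
  refine ⟨fun j v => ?_, fun j i hi => ?_⟩
  · by_cases hvl : v ∈ (t j).D.vl
    · have := (hA j).1 v hvl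
      simpa using this
    · apply hZ j v
      intro hvZ
      exact hvl ((w9 N m Cl P R1 (mq t y) hc j).2.1 v hvZ)
  · have := (hA j).2 i hi
    simpa using this

end Pool.Agent.Lib.MP_9f84a9_co
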