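import Pool.Agent.Lib.MP_9f84a9_co.W.StmW

set_option autoImplicit false

namespace Pool.Agent.Lib.MP_9f84a9_co

open Finset Filter Topology

private theorem inn (g z : E) : inner ℝ g z = g 0 * z 0 + g 1 * z 1 := by
  simp [PiLp.inner_apply, Fin.sum_univ_two, mul_comm]

private theorem nsq (z : E) : ‖z‖ ^ 2 = z 0 ^ 2 + z 1 ^ 2 := by
  rw [EuclideanSpace.norm_sq_eq]; simp [Fin.sum_univ_two]

private theorem dsq (a b : E) : dist a b ^ 2 = (a 0 - b 0) ^ 2 + (a 1 - b 1) ^ 2 := by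
  rw [dist_eq_norm, nsq]; simp

private theorem p1 (u v w : E) (h : ar u v w ≠ 0) : ∃ (g : E) (γ : ℝ), inner ℝ g u + γ = ‖u‖ ^ 2 ∧
    inner ℝ g v + γ = ‖v‖ ^ 2 ∧ inner ℝ g w + γ = ‖w‖ ^ 2 := by
  set A := ar u v w with hA
  let V := ‖v‖ ^ 2 - ‖u‖ ^ 2
  let W := ‖w‖ ^ 2 - ‖u‖ ^ 2
  let g : E := !₂[(V * (w 1 - u 1) - W * (v 1 - u 1)) / A, (W * (v 0 - u 0) - V * (w 0 - u 0)) / A]
  have g0 : g 0 = (V * (w 1 - u 1) - W * (v 1 - u 1)) / A := rfl
  have g1 : g 1 = (W * (v 0 - u 0) - V * (w 0 - u 0)) / A := rfl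
  have hA' : A = (v 0 - u 0) * (w 1 - u 1) - (v 1 - u 1) * (w 0 - u 0) := rfl
  have e1 : g 0 * (v 0 - u 0) + g 1 * (v 1 - u 1) = V := by
    rw [g0, g1]; field_simp; rw [hA']; ring
  have e2 : g 0 * (w 0 - u 0) + g 1 * (w 1 - u 1) = W := by
    rw [g0, g1]; field_simp; rw [hA']; ring
  refine ⟨g, ‖u‖ ^ 2 - inner ℝ g u, by ring, ?_, ?_⟩
  · rw [inn, inn]; linear_combination e1
  · rw [inn, inn]; linear_combination e2

private theorem p2 (a b x z g : E) (γ : ℝ) (h1 : inner ℝ g a + γ = 0) (h2 : inner ℝ g b + γ = 0)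
    (h3 : 0 < ar b a x) (h4 : 0 ≤ inner ℝ g x + γ) (h5 : 0 ≤ ar b a z) : 0 ≤ inner ℝ g z + γ := by
  rw [inn] at *
  have key : ar b a x * (g 0 * z 0 + g 1 * z 1 + γ) = ar b a z * (g 0 * x 0 + g 1 * x 1 + γ) := by
    unfold ar
    linear_combination ((x 0 - a 0) * (z 1 - a 1) - (x 1 - a 1) * (z 0 - a 0)) * h2 -
      ((x 0 - b 0) * (z 1 - b 1) - (x 1 - b 1) * (z 0 - b 0)) * h1
  have : 0 ≤ ar b a x * (g 0 * z 0 + g 1 * z 1 + γ) := by rw [key]; exact mul_nonneg h5 h4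
  exact nonneg_of_mul_nonneg_right this h3

/-- a point with `ar a b o = 0` is on the line -/
private theorem online (a b o : E) (hab : a ≠ b) (h : ar a b o = 0) :
    ∃ s : ℝ, o = (1 - s) • a + s • b := by
  have hd : 0 < (b 0 - a 0) ^ 2 + (b 1 - a 1) ^ 2 := by
    rw [← dsq]
    have : 0 < dist b a := dist_pos.2 (Ne.symm hab)
    positivity
  refine ⟨((o 0 - a 0) * (b 0 - a 0) + (o 1 - a 1) * (b 1 - a 1)) /
    ((b 0 - a 0) ^ 2 + (b 1 - a 1) ^ 2), ?_⟩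
  have hne := hd.ne'
  unfold ar at h
  ext i
  fin_cases i
  · simp only [PiLp.add_apply, PiLp.smul_apply, smul_eq_mul, Fin.zero_eta]
    field_simp
    linear_combination (-(b 1 - a 1)) * h
  · simp only [PiLp.add_apply, PiLp.smul_apply, smul_eq_mul, Fin.mk_one]
    field_simp
    linear_combination (b 0 - a 0) * h

private theorem p3 (a b w x : E) (hw : 0 < ar a b w) (hx : 0 < ar b a x)
    (hd : ∀ s t : ℝ, 0 ≤ s → s ≤ 1 → 0 ≤ t → t ≤ 1 → (1 - s) • a + s • b = (1 - t) • x + t • w →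
      s * (1 - s) * dist a b ^ 2 ≤ t * (1 - t) * dist x w ^ 2)
    (g : E) (γ : ℝ) (h1 : inner ℝ g a + γ = ‖a‖ ^ 2) (h2 : inner ℝ g b + γ = ‖b‖ ^ 2)
    (h3 : inner ℝ g w + γ = ‖w‖ ^ 2) : inner ℝ g x + γ ≤ ‖x‖ ^ 2 := by
  have hab : a ≠ b := by
    rintro rfl
    unfold ar at hw
    simp at hw
  set t : ℝ := ar b a x / (ar a b w + ar b a x) with ht
  have hsum : 0 < ar a b w + ar b a x := by linarith
  have ht0 : 0 < t := div_pos hx hsum
  have ht1 : t < 1 := by rw [ht, div_lt_one hsum]; linarith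
  set o : E := (1 - t) • x + t • w with ho
  have o0 : o 0 = (1 - t) * x 0 + t * w 0 := by simp [ho]
  have o1 : o 1 = (1 - t) * x 1 + t * w 1 := by simp [ho]
  have hx' : ar b a x = - ar a b x := by unfold ar; ring
  have haro : ar a b o = 0 := by
    have : ar a b o = (1 - t) * ar a b x + t * ar a b w := by unfold ar; rw [o0, o1]; ring
    rw [this]
    have h' : ar a b x = - ar b a x := by rw [hx']; ring
    rw [h', ht]
    field_simp
    ring
  obtain ⟨s, hs⟩ := online a b o hab haro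
  have hoo := hs
  have o0' : o 0 = (1 - s) * a 0 + s * b 0 := by rw [hs]; simp
  have o1' : o 1 = (1 - s) * a 1 + s * b 1 := by rw [hs]; simp
  have key : (1 - t) * (‖x‖ ^ 2 - (inner ℝ g x + γ)) =
      t * (1 - t) * dist x w ^ 2 - s * (1 - s) * dist a b ^ 2 := by
    rw [dsq, dsq]
    rw [inn, nsq] at *
    have e0 : (1 - t) * x 0 + t * w 0 = (1 - s) * a 0 + s * b 0 := by rw [← o0, o0']
    have e1 : (1 - t) * x 1 + t * w 1 = (1 - s) * a 1 + s * b 1 := by rw [← o1, o1']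
    linear_combination (-g 0 + ((1 - t) * x 0 + t * w 0) + ((1 - s) * a 0 + s * b 0)) * e0 +
      (-g 1 + ((1 - t) * x 1 + t * w 1) + ((1 - s) * a 1 + s * b 1)) * e1 +
      (t) * h3 - (1 - s) * h1 - s * h2
  have hle : s * (1 - s) * dist a b ^ 2 ≤ t * (1 - t) * dist x w ^ 2 := by
    by_cases h01 : 0 ≤ s ∧ s ≤ 1
    · exact hd s t h01.1 h01.2 ht0.le ht1.le (by rw [← hs])
    · have hneg : s * (1 - s) ≤ 0 := by
        rcases not_and_or.1 h01 with h | h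
        · push Not at h; nlinarith
        · push Not at h; nlinarith
      have r1 : s * (1 - s) * dist a b ^ 2 ≤ 0 := mul_nonpos_of_nonpos_of_nonneg hneg (by positivity)
      have r2 : 0 ≤ t * (1 - t) * dist x w ^ 2 :=
        mul_nonneg (mul_nonneg ht0.le (by linarith)) (by positivity)
      linarith
  have h4 : 0 ≤ (1 - t) * (‖x‖ ^ 2 - (inner ℝ g x + γ)) := by rw [key]; linarith
  have h5 := nonneg_of_mul_nonneg_right h4 (by linarith)
  linarith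

private theorem p4 (N : ℕ) (p : Fin N → E) (x : Pt N) (g : E) (γ : ℝ) (hx : ∑ v, x v = 1) :
    inner ℝ g (pos p x) + γ = ∑ v, x v * (inner ℝ g (p v) + γ) := by
  unfold pos
  rw [inner_sum]
  simp only [inner_smul_right, mul_add, Finset.sum_add_distrib]
  rw [← Finset.sum_mul, hx, one_mul]

private theorem p5 (N : ℕ) (p : Fin N → E) (x : Pt N) (A C g : E) (γ : ℝ) (h0 : ∀ v, 0 ≤ x v)
    (hx : ∑ v, x v = 1) (hM : pos p x = (1 / 2 : ℝ) • (A + C))
    (hv : ∀ v, 0 < x v → inner ℝ g (p v) + γ = ‖p v‖ ^ 2) (hA : inner ℝ g A + γ ≤ ‖A‖ ^ 2)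
    (hC : inner ℝ g C + γ ≤ ‖C‖ ^ 2) :
    ∑ v, x v * dist (p v) ((1 / 2 : ℝ) • (A + C)) ^ 2 ≤ dist A C ^ 2 / 4 := by
  set M : E := (1 / 2 : ℝ) • (A + C) with hMdef
  have e1 : ∀ v, x v * dist (p v) M ^ 2 =
      x v * (inner ℝ g (p v) + γ) - 2 * (x v * inner ℝ M (p v)) + x v * ‖M‖ ^ 2 := by
    intro v
    rcases (h0 v).eq_or_lt with h | h
    · rw [← h]; ring
    · rw [hv v h, dist_eq_norm, norm_sub_sq_real, real_inner_comm]; ring
  have e2 : ∑ v, x v * inner ℝ M (p v) = ‖M‖ ^ 2 := by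
    have := p4 N p x M 0 hx
    simp only [add_zero] at this
    rw [← this, hM, real_inner_self_eq_norm_sq]
  have e3 : ∑ v, x v * dist (p v) M ^ 2 = inner ℝ g M + γ - ‖M‖ ^ 2 := by
    rw [Finset.sum_congr rfl fun v _ => e1 v, Finset.sum_add_distrib, Finset.sum_sub_distrib,
      ← Finset.mul_sum, e2, ← Finset.sum_mul, hx, ← p4 N p x g γ hx, hM]
    ring
  rw [e3]
  have m0 : M 0 = (A 0 + C 0) / 2 := by simp [hMdef]; ring
  have m1 : M 1 = (A 1 + C 1) / 2 := by simp [hMdef]; ring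
  rw [dsq]
  rw [inn, nsq] at hA hC ⊢
  rw [m0, m1]
  nlinarith [hA, hC]

theorem t_W12 : S_W12 :=
  ⟨p1, fun a b x z g γ h1 h2 h3 h4 h5 => p2 a b x z g γ h1 h2 h3 h4 h5,
    fun a b w x hw hx hd g γ h1 h2 h3 => p3 a b w x hw hx hd g γ h1 h2 h3,
    fun N p x g γ hx => p4 N p x g γ hx,
    fun N p x A C g γ h0 hx hM hv hA hC => p5 N p x A C g γ h0 hx hM hv hA hC⟩

end Pool.Agent.Lib.MP_9f84a9_co
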