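import Pool.Agent.Lib.MP_9f84a9_co.W.StmW

/-!
# MP_9f84a9_co, piece W13: facets of a positive disc
-/

set_option autoImplicit false

namespace Pool.Agent.Lib.MP_9f84a9_co

open Finset

private lemma w13_ar0 (u v : E) : ar u u v = 0 := by unfold ar; ring

/-- a facet is a positive triangle; two of its vertices can be prescribed -/
private lemma w13_fac (g3 : S_G3) {N : ℕ} {D : Dsc N} {p : Fin N → E} (hok : D.ok)
    (hs : D.SPos p) (h1 : ¬ D.One) {f : Finset (Fin N)} (hf : f ∈ D.K) (x y : Fin N)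
    (hx : x ∈ f) (hy : y ∈ f) (hxy : x ≠ y) :
    ∃ a b w : Fin N, f = {a, b, w} ∧ a ≠ b ∧ a ≠ w ∧ b ≠ w ∧ 0 < ar (p a) (p b) (p w) ∧
      ((a = x ∧ b = y) ∨ (a = y ∧ b = x)) := by
  obtain ⟨a, b, w, l, r, R, -, h⟩ := (g3 N D p hok hs h1).1 f hf x hx y hy hxy
  exact ⟨a, b, w, h⟩

theorem t_W13 (h4 : S_B4) (g1 : S_G1) (g3 : S_G3) (w12 : S_W12) : S_W13 := by
  intro N D p hok hs h1
  have key : ∀ f ∈ D.K, ∃ a b w : Fin N, f = {a, b, w} ∧ a ≠ b ∧ a ≠ w ∧ b ≠ w ∧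
      0 < ar (p a) (p b) (p w) := by
    intro f hf
    have hc : f.card = 3 := by
      rcases (h4 N D hok).2.2.1 f hf with h | h
      · exact h
      · exact absurd ⟨h.1, h.2.1⟩ h1
    obtain ⟨x, hx, y, hy, hxy⟩ := Finset.one_lt_card.1 (by omega : 1 < f.card)
    obtain ⟨a, b, w, h, h', h'', h''', h4', -⟩ := w13_fac g3 hok hs h1 hf x y hx hy hxy
    exact ⟨a, b, w, h, h', h'', h''', h4'⟩
  refine ⟨?_, ?_, ?_, ?_⟩
  · intro f hf x y hx1 hy1 hxf hyf hxy
    obtain ⟨a, b, w, rfl, hab, haw, hbw, hpos⟩ := key f hf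
    exact (g1 N a b w hab haw hbw).2.2.2.1 p x y hpos.ne' hx1 hxf hy1 hyf hxy
  · intro f hf v hv w hw hvw hp
    obtain ⟨a, b, c, -, -, -, -, hpos, h⟩ := w13_fac g3 hok hs h1 hf v w hv hw hvw
    rcases h with ⟨rfl, rfl⟩ | ⟨rfl, rfl⟩
    · rw [hp, w13_ar0] at hpos
      exact lt_irrefl _ hpos
    · rw [hp, w13_ar0] at hpos
      exact lt_irrefl _ hpos
  · intro f hf
    obtain ⟨a, b, w, rfl, hab, haw, hbw, hpos⟩ := key f hf
    obtain ⟨g, γ, e1, e2, e3⟩ := w12.1 (p a) (p b) (p w) hpos.ne'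
    refine ⟨g, γ, ?_⟩
    intro v hv
    simp only [Finset.mem_insert, Finset.mem_singleton] at hv
    rcases hv with rfl | rfl | rfl
    · exact e1
    · exact e2
    · exact e3
  · intro x hx hv
    obtain ⟨hx0, hx1, -⟩ := hx
    have hex : ∃ a, 0 < x a := by
      by_contra hcon
      have h0 : ∀ a, x a = 0 := fun a =>
        le_antisymm (not_lt.1 fun h => hcon ⟨a, h⟩) (hx0 a)
      have : ∑ v, x v = 0 := Finset.sum_eq_zero fun v _ => h0 v
      rw [this] at hx1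
      exact zero_ne_one hx1
    obtain ⟨a, ha⟩ := hex
    by_contra hcon
    apply hv a
    have h0 : ∀ b, b ≠ a → x b = 0 := by
      intro b hb
      refine le_antisymm (not_lt.1 fun h => hcon ⟨a, b, hb.symm, ha, h⟩) (hx0 b)
    have hxa : x a = 1 := by
      rw [← hx1]
      exact (Finset.sum_eq_single a (fun b _ hb => h0 b hb) (fun h => absurd (Finset.mem_univ a) h)).symm
    funext b
    by_cases hb : b = a
    · subst hb
      rw [hxa]; unfold vx; simp
    · rw [h0 b hb]; unfold vx; rw [Pi.single_eq_of_ne hb]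

end Pool.Agent.Lib.MP_9f84a9_co
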