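import Pool.Agent.Lib.MP_9f84a9_co.W.StmW

/-!
# MP_9f84a9_co, [W14]: crossing a diagonal
-/

set_option autoImplicit false

namespace Pool.Agent.Lib.MP_9f84a9_co

open Finset Filter Topology

private theorem w14_ar (u v P z : E) (τ : ℝ) :
    ar u v (P + τ • (z - P)) = (1 - τ) * ar u v P + τ * ar u v z := by
  simp only [ar, PiLp.add_apply, PiLp.smul_apply, PiLp.sub_apply, smul_eq_mul]
  ring

private theorem w14_mem {N : ℕ} (f : Finset (Fin N)) (x : Pt N) (v : Fin N) (h : Sup x f)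
    (hv : 0 < x v) : v ∈ f := by
  by_contra hc
  rw [h v hc] at hv
  exact lt_irrefl _ hv

/-- [W14] Crossing a diagonal. -/
theorem t_W14 (g1 : S_G1) (g3 : S_G3) (w12 : S_W12) (w13 : S_W13) : S_W14 := by
  intro N D p hok hsp hOne hDel f hf f' hf' hne x y z τ hx hy hxf hxf' hyf' hxv hτ hpos
    g g' γ γ' hg hg' hz
  obtain ⟨a', b', hab', ha', hb'⟩ := (w13 N D p hok hsp hOne).2.2.2 x hx hxv
  obtain ⟨a, b, w, w', l, r, l', r', hE, hfe, hfe', hab, haw, hbw, haw', hbw', hww', h1, h2, _⟩ :=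
    (g3 N D p hok hsp hOne).2 f hf f' hf' hne a' (w14_mem f x a' hxf ha') b'
      (w14_mem f x b' hxf hb') hab' (w14_mem f' x a' hxf' ha') (w14_mem f' x b' hxf' hb')
  have haf : a ∈ f := by rw [hfe]; simp
  have hbf : b ∈ f := by rw [hfe]; simp
  have hwf : w ∈ f := by rw [hfe]; simp
  have haf' : a ∈ f' := by rw [hfe']; simp
  have hbf' : b ∈ f' := by rw [hfe']; simp
  have hwf' : w' ∈ f' := by rw [hfe']; simp
  have hxw : x w' = 0 := by
    apply hxf
    rw [hfe]
    simp only [Finset.mem_insert, Finset.mem_singleton, not_or]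
    exact ⟨haw'.symm, hbw'.symm, hww'.symm⟩
  have hset : ({b, a, w'} : Finset (Fin N)) = f' := by
    rw [hfe']
    exact Finset.insert_comm _ _ _
  have hX := ((g1 N b a w' hab.symm hbw' haw').1 p x hx.2.1 (by rw [hset]; exact hxf')).1
  have hY := ((g1 N b a w' hab.symm hbw' haw').1 p y hy.2.1 (by rw [hset]; exact hyf')).1
  rw [hxw, zero_mul] at hX
  have hY0 : 0 ≤ ar (p b) (p a) (pos p y) := by
    rw [hY]
    exact mul_nonneg (hy.1 w') h2.le
  rw [hpos, w14_ar, hX, mul_zero, zero_add] at hY0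
  have hzar : 0 ≤ ar (p b) (p a) z := nonneg_of_mul_nonneg_right hY0 hτ
  have hw' := w12.2.2.1 (p a) (p b) (p w) (p w') h1 h2
    (fun s t hs0 hs1 ht0 ht1 h => hDel a b w w' l r l' r' hE s t hs0 hs1 ht0 ht1 h) g γ
    (hg a haf) (hg b hbf) (hg w hwf)
  have hkey := w12.2.1 (p a) (p b) (p w') z (g' - g) (γ' - γ)
    (by rw [inner_sub_left]; linarith [hg a haf, hg' a haf'])
    (by rw [inner_sub_left]; linarith [hg b hbf, hg' b hbf']) h2
    (by rw [inner_sub_left]; linarith [hw', hg' w' hwf']) hzar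
  rw [inner_sub_left] at hkey
  linarith

end Pool.Agent.Lib.MP_9f84a9_co
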