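import Pool.Agent.Lib.MP_9f84a9_co.W.StmW

set_option autoImplicit false

namespace Pool.Agent.Lib.MP_9f84a9_co

open Finset Filter Topology

private theorem w15_vx {N : ℕ} (v : Fin N) : vx v v = 1 := by
  unfold vx
  simp

private theorem w15_main (a1 : S_A1) (a2 : S_A2) (a3 : S_A3) (b4 : S_B4) (b5 : S_B5) (g2 : S_G2)
    (w13 : S_W13) (w14 : S_W14) (N : ℕ) (D : Dsc N) (p : Fin N → E) (hok : D.ok) (hsp : D.SPos p)
    (hone : ¬ D.One) (hdel : Del D p) (c : Fin N) (hc : c ∈ D.vl) (x z : Pt N) (k : ℕ) (r : ℝ)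
    (hp : Path D.K (ce p) x z k r) : z = vx c → r ≤ dist (pos p x) (p c) → (∀ v, x ≠ vx v) →
      (∀ v ∈ D.vl, v ≠ c → dK D.K (ce p) x (vx c) <
        dK D.K (ce p) x (vx v) + dK D.K (ce p) (vx v) (vx c)) →
      ∀ f ∈ D.K, Sup x f → ∀ (g : E) (γ : ℝ), (∀ v ∈ f, inner ℝ g (p v) + γ = ‖p v‖ ^ 2) →
        inner ℝ g (p c) + γ ≤ ‖p c‖ ^ 2 := by
  have hcost : IsCost (ce p) := (a1 N).1 p
  have hposvx : ∀ v, pos p (vx v) = p v := (a1 N).2.2.2.2.2.1 p
  have hCn := b5 N D hok
  obtain ⟨hnn, hself, hsymm, htri, hstep⟩ := a2 N D.K (ce p) hcost hCn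
  have hlow : ∀ x y, In D.K x → In D.K y → dist (pos p x) (pos p y) ≤ dK D.K (ce p) x y :=
    a3 N D.K (ce p) (ce p) hCn (fun x _ => (hcost.self x).le) (fun x y z _ _ _ => hcost.tri x y z)
      (fun x y _ => le_rfl)
  obtain ⟨hB1, hB2, -⟩ := b4 N D hok
  have hinv : ∀ v ∈ D.vl, In D.K (vx v) := by
    intro v hv
    obtain ⟨f, hf, hvf⟩ := hB2 v hv
    exact ((a1 N).2.2.2.2.1 D.K f v hf hvf).1
  obtain ⟨h13a, -, h13c, -⟩ := w13 N D p hok hsp hone
  have hpd := (g2 N D.K (ce p) hcost).1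
  induction hp with
  | nil x hx =>
    intro hz _ hne
    exact absurd hz (hne c)
  | cons x y z k r hs hp ih =>
    intro hz hr hne hst f hf hxf g γ hg
    subst hz
    have hyc := hpd _ _ _ _ hp
    have hcK := hinv c hc
    obtain ⟨hxK, hyK, h, hh, hxh, hyh⟩ := hs
    have hS : Stp D.K x y := ⟨hxK, hyK, h, hh, hxh, hyh⟩
    have e1 := hlow y (vx c) hyK hcK
    have e2 := hlow x (vx c) hxK hcK
    rw [hposvx] at e1 e2
    have e3 : dist (pos p x) (p c) ≤ dist (pos p x) (pos p y) + dist (pos p y) (p c) :=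
      dist_triangle _ _ _
    have e4 : ce p x y = dist (pos p x) (pos p y) := rfl
    have e5 := hstep x y hS
    rw [e4] at hr e5
    have hrr : r ≤ dist (pos p y) (p c) := by linarith
    have hbt : dist (pos p x) (pos p y) + dist (pos p y) (p c) = dist (pos p x) (p c) := by
      linarith [hyc.2]
    have hsty : ∀ v ∈ D.vl, v ≠ c → dK D.K (ce p) y (vx c) <
        dK D.K (ce p) y (vx v) + dK D.K (ce p) (vx v) (vx c) := by
      intro v hv hvc
      have f1 := hst v hv hvc
      have f2 := htri x y (vx v) hxK hyK (hinv v hv)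
      linarith [hyc.2]
    -- the claim for `h`
    have hkey : ∀ (g' : E) (γ' : ℝ), (∀ v ∈ h, inner ℝ g' (p v) + γ' = ‖p v‖ ^ 2) →
        inner ℝ g' (p c) + γ' ≤ ‖p c‖ ^ 2 := by
      intro g' γ' hg'
      by_cases hv : ∃ v, y = vx v
      · obtain ⟨v, rfl⟩ := hv
        have hvh : v ∈ h := by
          by_contra hcon
          have := hyh v hcon
          rw [w15_vx] at this
          exact one_ne_zero this
        have hvvl := hB1 h hh v hvh
        by_cases hvc : v = c
        · subst hvc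
          exact (hg' v hvh).le
        · have f1 := hsty v hvvl hvc
          rw [hself (vx v) hyK] at f1
          linarith
      · have hv' : ∀ v, y ≠ vx v := fun v hv' => hv ⟨v, hv'⟩
        exact ih rfl hrr hv' hsty h hh hyh g' γ' hg'
    by_cases hfh : f = h
    · subst hfh
      exact hkey g γ hg
    · by_cases hpp : pos p y = pos p x
      · have hyx : y = x := h13a h hh y x hyK.2.1 hxK.2.1 hyh hxh hpp
        subst hyx
        exact ih rfl hrr hne hsty f hf hxf g γ hg
      · rw [dist_add_dist_eq_iff] at hbt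
        obtain ⟨τ, ⟨hτ0, hτ1⟩, hτ⟩ := hbt
        rw [AffineMap.lineMap_apply] at hτ
        have hτ' : pos p y = pos p x + τ • (p c - pos p x) := by
          rw [← hτ]
          simp only [vsub_eq_sub, vadd_eq_add]
          exact add_comm _ _
        have hτpos : 0 < τ := by
          rcases hτ0.lt_or_eq with h0 | h0
          · exact h0
          · exfalso
            apply hpp
            rw [hτ', ← h0, zero_smul, add_zero]
        obtain ⟨g', γ', hg'⟩ := h13c h hh
        exact w14 N D p hok hsp hone hdel f hf h hh hfh x y (p c) τ hxK hyK hxf hxh hyh hne hτpos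
          hτ' g g' γ γ' hg hg' (hkey g' γ' hg')

theorem t_W15 (a1 : S_A1) (a2 : S_A2) (a3 : S_A3) (b4 : S_B4) (b5 : S_B5) (g2 : S_G2)
    (w13 : S_W13) (w14 : S_W14) : S_W15 := by
  intro N D p hok hsp hone hdel c x k r hc hp
  exact w15_main a1 a2 a3 b4 b5 g2 w13 w14 N D p hok hsp hone hdel c hc x (vx c) k r hp rfl

end Pool.Agent.Lib.MP_9f84a9_co
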