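import Pool.Agent.Lib.MP_9f84a9_co.W.StmW

/-!
# MP_9f84a9_co, module W, piece W16: cutting a path at a given length
-/

set_option autoImplicit false

namespace Pool.Agent.Lib.MP_9f84a9_co

theorem t_W16 (a1 : S_A1) : S_W16 := by
  intro N K p x y k r s hpath
  obtain ⟨-, -, -, -, -, -, hconv, hpos, -⟩ := a1 N
  induction hpath generalizing s with
  | nil x hx =>
    intro h0 h1
    have h2 : s = 0 := le_antisymm h1 h0
    subst h2
    refine ⟨x, 0, 0, Path.nil x hx, ?_⟩
    rw [sub_zero]
    exact Path.nil x hx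
  | cons x x1 y k r hstp hp ih =>
    intro h0 h1
    by_cases hs : ce p x x1 < s
    · obtain ⟨z, k1, k2, hz1, hz2⟩ := ih (s - ce p x x1) (by linarith) (by linarith)
      refine ⟨z, k1 + 1, k2, ?_, ?_⟩
      · have h := Path.cons x x1 z k1 _ hstp hz1
        rwa [add_sub_cancel] at h
      · have e : ce p x x1 + r - s = r - (s - ce p x x1) := by ring
        rw [e]
        exact hz2
    · push Not at hs
      by_cases hk : ce p x x1 = 0
      · have h2 : s = 0 := le_antisymm (hk ▸ hs) h0
        subst h2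
        refine ⟨x, 0, k + 1, Path.nil x hstp.1, ?_⟩
        rw [sub_zero]
        exact Path.cons x x1 y k r hstp hp
      · have hkpos : 0 < ce p x x1 := lt_of_le_of_ne dist_nonneg (Ne.symm hk)
        obtain ⟨θ, hθ⟩ : ∃ θ, θ = s / ce p x x1 := ⟨_, rfl⟩
        have hθ0 : 0 ≤ θ := hθ ▸ div_nonneg h0 hkpos.le
        have hθ1 : θ ≤ 1 := hθ ▸ (div_le_one hkpos).2 hs
        have hθs : θ * ce p x x1 = s := by rw [hθ]; field_simp
        obtain ⟨hx, hx1, f, hf, hxf, hx1f⟩ := hstp
        obtain ⟨hc1, hc2, hc3⟩ := hconv f x x1 θ hx.1 hx.2.1 hxf hx1.1 hx1.2.1 hx1f hθ0 hθ1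
        have hz : In K ((1 - θ) • x + θ • x1) := ⟨hc1, hc2, f, hf, hc3⟩
        have hn1 : ce p x ((1 - θ) • x + θ • x1) = s := by
          rw [← hθs]
          unfold ce
          rw [hpos, dist_eq_norm, dist_eq_norm]
          have e : pos p x - ((1 - θ) • pos p x + θ • pos p x1) = θ • (pos p x - pos p x1) := by
            module
          rw [e, norm_smul, Real.norm_of_nonneg hθ0]
        have hn2 : ce p ((1 - θ) • x + θ • x1) x1 = ce p x x1 - s := by
          rw [← hθs]
          unfold ce
          rw [hpos, dist_eq_norm, dist_eq_norm]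
          have e : (1 - θ) • pos p x + θ • pos p x1 - pos p x1 = (1 - θ) • (pos p x - pos p x1) := by
            module
          rw [e, norm_smul, Real.norm_of_nonneg (sub_nonneg.2 hθ1)]
          ring
        refine ⟨(1 - θ) • x + θ • x1, 0 + 1, k + 1, ?_, ?_⟩
        · have h := Path.cons (c := ce p) x _ _ 0 0 ⟨hx, hz, f, hf, hxf, hc3⟩ (Path.nil _ hz)
          rwa [hn1, add_zero] at h
        · have h := Path.cons (c := ce p) _ x1 y k r ⟨hz, hx1, f, hf, hc3, hx1f⟩ hp
          rw [hn2] at h
          have e : ce p x x1 - s + r = ce p x x1 + r - s := by ring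
          rwa [e] at h

end Pool.Agent.Lib.MP_9f84a9_co
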