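import Pool.Agent.Lib.MP_9f84a9_co.W.StmW

/-! Piece W17. -/

set_option autoImplicit false

namespace Pool.Agent.Lib.MP_9f84a9_co

open Finset Filter Topology

private lemma w17_end {N : ℕ} {K : Cx N} {c : Pt N → Pt N → ℝ} {x y : Pt N} {k : ℕ} {r : ℝ}
    (h : Path K c x y k r) : In K x ∧ In K y := by
  induction h with
  | nil x hx => exact ⟨hx, hx⟩
  | cons x y z k r hs hp ih => exact ⟨hs.1, ih.2⟩

theorem t_W17 (a1 : S_A1) (a3 : S_A3) (b5 : S_B5) (g2 : S_G2) (w13 : S_W13) : S_W17 := by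
  intro N D p hok hsp hone x y k r hpath
  have hCn : Cn D.K := b5 N D hok
  obtain ⟨a11, _, _, _, a15, a16, a17, a18, _⟩ := a1 N
  have hcost : IsCost (ce p) := a11 p
  have hlow : ∀ x y, In D.K x → In D.K y → dist (pos p x) (pos p y) ≤ dK D.K (ce p) x y :=
    a3 N D.K (ce p) (ce p) hCn (fun x _ => (hcost.self x).le)
      (fun x y z _ _ _ => hcost.tri x y z) (fun x y _ => le_rfl)
  have hup := (g2 N D.K (ce p) hcost).1
  obtain ⟨hinj, _, _, _⟩ := w13 N D p hok hsp hone
  induction hpath with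
  | nil x hx =>
    intro _ q hq hpq
    obtain ⟨h0, h1, f, hf, hs⟩ := hx
    have hqf : q ∈ f := by
      by_contra h
      rw [hs q h] at hq
      exact lt_irrefl _ hq
    obtain ⟨hv1, hv2⟩ := a15 D.K f q hf hqf
    exact hinj f hf x (vx q) h1 hv1.2.1 hs hv2 (by rw [a16, hpq])
  | cons x x1 y k r hst hp ih =>
    intro hle q hq hpq
    obtain ⟨hxK, hx1K, h, hh, hxh, hx1h⟩ := hst
    obtain ⟨_, hyK⟩ := w17_end hp
    have h1 : dist (pos p x1) (pos p y) ≤ r := (hlow x1 y hx1K hyK).trans (hup x1 y k r hp).2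
    have h2 : ce p x x1 = dist (pos p x) (pos p x1) := rfl
    rw [h2] at hle
    have h3 := dist_triangle (pos p x) (pos p x1) (pos p y)
    have hr : r ≤ dist (pos p x1) (pos p y) := by linarith
    have heq : dist (pos p x) (pos p x1) + dist (pos p x1) (pos p y) =
        dist (pos p x) (pos p y) := by linarith
    have hw := dist_add_dist_eq_iff.1 heq
    obtain ⟨τ, ⟨hτ0, hτ1⟩, hτ⟩ := hw
    have hqh : q ∈ h := by
      by_contra hn
      rw [hxh q hn] at hq
      exact lt_irrefl _ hq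
    obtain ⟨hv1, hv2⟩ := a15 D.K h q hh hqh
    obtain ⟨z0, z1, z2⟩ := a17 h x (vx q) τ hxK.1 hxK.2.1 hxh hv1.1 hv1.2.1 hv2 hτ0 hτ1
    have hz : x1 = (1 - τ) • x + τ • vx q := by
      apply hinj h hh x1 _ hx1K.2.1 z1 hx1h z2
      rw [a18, a16, hpq, ← hτ, AffineMap.lineMap_apply_module]
    have hx1q : 0 < x1 q := by
      rw [hz]
      have e : ((1 - τ) • x + τ • vx q) q = (1 - τ) * x q + τ := by
        simp [vx]
      rw [e]
      rcases eq_or_lt_of_le hτ1 with h | h
      · rw [h]; norm_num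
      · have : 0 < (1 - τ) * x q := mul_pos (by linarith) hq
        linarith
    exact ih hr q hx1q hpq

end Pool.Agent.Lib.MP_9f84a9_co
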