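import Pool.Agent.Lib.MP_9f84a9_co.W.StmW

set_option autoImplicit false

namespace Pool.Agent.Lib.MP_9f84a9_co

open Finset Filter Topology

private theorem w18_vx {N : ℕ} (v : Fin N) : vx v v = 1 := by
  unfold vx
  simp

private theorem w18_vxinj {N : ℕ} {v w : Fin N} (h : (vx v : Pt N) = vx w) : v = w := by
  by_contra hne
  have h1 := congrFun h v
  rw [w18_vx] at h1
  unfold vx at h1
  rw [Pi.single_eq_of_ne hne] at h1
  exact one_ne_zero h1

private theorem w18_path {N : ℕ} {K : Cx N} {c : Pt N → Pt N → ℝ} {x y : Pt N} {k : ℕ} {r : ℝ}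
    (h : Path K c x y k r) : In K x ∧ In K y := by
  induction h with
  | nil x hx => exact ⟨hx, hx⟩
  | cons x y z k r hs hp ih => exact ⟨hs.1, ih.2⟩

private theorem w18_mid {u v w : E} (h1 : dist u v = dist u w / 2) (h2 : dist v w = dist u w / 2) :
    v = (1 / 2 : ℝ) • (u + w) := by
  have h := eq_midpoint_of_dist_eq_half h1 h2
  rw [h, midpoint_eq_smul_add]
  norm_num

theorem t_W18 (a1 : S_A1) (a2 : S_A2) (a3 : S_A3) (a6 : S_A6) (b4 : S_B4) (b5 : S_B5) (sl : S_SL)
    (s0 : S_sep0) (g2 : S_G2) (w12 : S_W12) (w13 : S_W13) (w15 : S_W15) (w16 : S_W16)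
    (w17 : S_W17) : S_W18 := by
  intro N D p hok hsp hone hdel a c ha hc hac hℓ0 hstr
  have hcost : IsCost (ce p) := (a1 N).1 p
  have hposvx : ∀ v, pos p (vx v) = p v := (a1 N).2.2.2.2.2.1 p
  have hCn := b5 N D hok
  obtain ⟨hnn, hself, hsymm, htri, hstep⟩ := a2 N D.K (ce p) hcost hCn
  have hlow : ∀ x y, In D.K x → In D.K y → dist (pos p x) (pos p y) ≤ dK D.K (ce p) x y :=
    a3 N D.K (ce p) (ce p) hCn (fun x _ => (hcost.self x).le) (fun x y z _ _ _ => hcost.tri x y z)
      (fun x y _ => le_rfl)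
  obtain ⟨hB1, hB2, -⟩ := b4 N D hok
  have hinv : ∀ v ∈ D.vl, In D.K (vx v) := by
    intro v hv
    obtain ⟨f, hf, hvf⟩ := hB2 v hv
    exact ((a1 N).2.2.2.2.1 D.K f v hf hvf).1
  obtain ⟨-, -, h13c, h13d⟩ := w13 N D p hok hsp hone
  have hpd := (g2 N D.K (ce p) hcost).1
  have hsep : ∀ x y, In D.K x → In D.K y → dK D.K (ce p) x y = 0 → x = y := by
    rcases s0 N D p hok hsp with h | h
    · exact h
    · exact absurd h hone
  have haK := hinv a ha
  have hcK := hinv c hc
  obtain ⟨ℓ, hℓ⟩ : ∃ ℓ, ℓ = dK D.K (ce p) (vx a) (vx c) := ⟨_, rfl⟩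
  rw [← hℓ] at hℓ0 hstr ⊢
  have hℓpos : 0 < ℓ := by
    rcases (hnn (vx a) (vx c)).lt_or_eq with h | h
    · rw [hℓ]; exact h
    · exact absurd (w18_vxinj (hsep _ _ haK hcK h.symm)) hac
  -- the point m
  obtain ⟨k, hk, -⟩ := a6 N D.K p hCn (vx a) (vx c) haK hcK
  rw [← hℓ] at hk
  obtain ⟨m, k1, k2, hm1, hm2⟩ := w16 N D.K p (vx a) (vx c) k ℓ (ℓ / 2) hk (by linarith)
    (by linarith)
  have hmK := (w18_path hm1).2
  have e1 := (hpd _ _ _ _ hm1).2
  have e2 := (hpd _ _ _ _ hm2).2
  have e3 := hlow _ _ haK hmK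
  have e4 := hlow _ _ hmK hcK
  rw [hposvx] at e3 e4
  have e5 : dist (p a) (p c) ≤ dist (p a) (pos p m) + dist (pos p m) (p c) := dist_triangle _ _ _
  have d1 : dist (p a) (pos p m) = ℓ / 2 := by linarith
  have d2 : dist (pos p m) (p c) = ℓ / 2 := by linarith
  have d3 : dK D.K (ce p) (vx a) m = ℓ / 2 := by linarith
  have d4 : dK D.K (ce p) m (vx c) = ℓ / 2 := by linarith
  have hM : pos p m = (1 / 2 : ℝ) • (p a + p c) := by
    apply w18_mid
    · rw [d1, hℓ0]
    · rw [d2, hℓ0]
  have hmv : ∀ v, m ≠ vx v := by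
    intro v hv
    have hvl : v ∈ D.vl := by
      obtain ⟨-, -, f, hf, hsf⟩ := hmK
      apply hB1 f hf
      by_contra hcon
      have := hsf v hcon
      rw [hv, w18_vx] at this
      exact one_ne_zero this
    by_cases hva : v = a
    · rw [hv, hva, hposvx, dist_self] at d1
      linarith
    · by_cases hvc : v = c
      · rw [hv, hvc, hposvx, dist_self] at d2
        linarith
      · have := hstr v hvl hva hvc
        rw [← hv, d3, d4] at this
        linarith
  have d5 : dK D.K (ce p) m (vx a) = ℓ / 2 := by rw [hsymm]; exact d3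
  have hsc : ∀ v ∈ D.vl, v ≠ c → dK D.K (ce p) m (vx c) <
      dK D.K (ce p) m (vx v) + dK D.K (ce p) (vx v) (vx c) := by
    intro v hv hvc
    by_cases hva : v = a
    · subst hva
      rw [d4, d5, ← hℓ]
      linarith
    · have f1 := hstr v hv hva hvc
      have f2 := htri (vx a) m (vx v) haK hmK (hinv v hv)
      rw [d4]
      linarith
  have hsa : ∀ v ∈ D.vl, v ≠ a → dK D.K (ce p) m (vx a) <
      dK D.K (ce p) m (vx v) + dK D.K (ce p) (vx v) (vx a) := by
    intro v hv hva
    by_cases hvc : v = c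
    · subst hvc
      rw [d4, d5, hsymm (vx v) (vx a), ← hℓ]
      linarith
    · have f1 := hstr v hv hva hvc
      have f2 := htri (vx v) m (vx c) (hinv v hv) hmK hcK
      rw [d5, hsymm (vx v) (vx a)]
      rw [hsymm (vx v) m] at f2
      linarith
  obtain ⟨hm0, hmsum, f, hf, hmf⟩ := id hmK
  obtain ⟨g, γ, hg⟩ := h13c f hf
  have hgc : inner ℝ g (p c) + γ ≤ ‖p c‖ ^ 2 := by
    refine w15 N D p hok hsp hone hdel c m k2 (ℓ - ℓ / 2) hc hm2 ?_ hmv hsc f hf hmf g γ hg
    rw [d2]; linarith
  obtain ⟨k3, hk3, -⟩ := a6 N D.K p hCn m (vx a) hmK haK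
  rw [d5] at hk3
  have hga : inner ℝ g (p a) + γ ≤ ‖p a‖ ^ 2 := by
    refine w15 N D p hok hsp hone hdel a m k3 (ℓ / 2) ha hk3 ?_ hmv hsa f hf hmf g γ hg
    rw [dist_comm, d1]
  have hmem : ∀ v, 0 < m v → v ∈ f := by
    intro v hv
    by_contra hcon
    have := hmf v hcon
    linarith
  have hsum := w12.2.2.2.2 N p m (p a) (p c) g γ hm0 hmsum hM (fun v hv => hg v (hmem v hv)) hga hgc
  rw [← hM, ← hℓ0] at hsum
  by_cases hall : ∀ v, 0 < m v → v = a ∨ v = c
  · left
    obtain ⟨a', b', hab', ha', hb'⟩ := h13d m hmK hmv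
    refine ⟨f, hf, ?_⟩
    rcases hall a' ha' with h | h <;> rcases hall b' hb' with h' | h'
    · exact absurd (h.trans h'.symm) hab'
    · subst h; subst h'
      exact ⟨hmem _ ha', hmem _ hb'⟩
    · subst h; subst h'
      exact ⟨hmem _ hb', hmem _ ha'⟩
    · exact absurd (h.trans h'.symm) hab'
  · right
    obtain ⟨q, hq0, hqa, hqc, hqM⟩ : ∃ q, 0 < m q ∧ q ≠ a ∧ q ≠ c ∧
        dist (p q) (pos p m) ≤ ℓ / 2 := by
      by_contra hcon
      push Not at hcon hall
      obtain ⟨q, hq0, hqa, hqc⟩ := hall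
      have hq1 := hcon q hq0 hqa hqc
      have hlt : ∑ v, m v * (ℓ / 2) ^ 2 < ∑ v, m v * dist (p v) (pos p m) ^ 2 := by
        apply Finset.sum_lt_sum
        · intro v _
          rcases (hm0 v).lt_or_eq with h | h
          · apply mul_le_mul_of_nonneg_left _ (hm0 v)
            by_cases hva : v = a
            · rw [hva, d1]
            · by_cases hvc : v = c
              · rw [hvc, dist_comm, d2]
              · have := hcon v h hva hvc
                apply pow_le_pow_left₀ (by linarith) this.le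
          · rw [← h, zero_mul, zero_mul]
        · refine ⟨q, Finset.mem_univ _, ?_⟩
          apply mul_lt_mul_of_pos_left _ hq0
          apply pow_lt_pow_left₀ hq1 (by linarith) (by norm_num)
      rw [← Finset.sum_mul, hmsum] at hlt
      nlinarith
    have hqf := hmem q hq0
    have hql := hB1 f hf q hqf
    have hqK := hinv q hql
    have hmq : dK D.K (ce p) m (vx q) ≤ ℓ / 2 := by
      have h1 := hstep m (vx q) ⟨hmK, hqK, f, hf, hmf, ((a1 N).2.2.2.2.1 D.K f q hf hqf).2⟩
      have h2 : ce p m (vx q) = dist (pos p m) (p q) := by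
        unfold ce
        rw [hposvx]
      rw [h2, dist_comm] at h1
      linarith
    -- the claim
    have hclaim : ∀ (e e' : Fin N) (k' : ℕ) (r' : ℝ), e ∈ D.vl → e' ≠ q →
        dK D.K (ce p) m (vx e) = ℓ / 2 → dist (p e) (pos p m) = ℓ / 2 →
        pos p m = (1 / 2 : ℝ) • (p e + p e') → Path D.K (ce p) m (vx e') k' r' →
        r' ≤ dist (pos p m) (p e') →
        Relation.ReflTransGen (fun x y => x ∈ D.vl ∧ y ∈ D.vl ∧
          dK D.K (ce p) (vx x) (vx y) < ℓ) e q := by
      intro e e' k' r' he heq hd1 hd2 hd3 hpath hr'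
      have heK := hinv e he
      have hle : dK D.K (ce p) (vx e) (vx q) ≤ ℓ := by
        have := htri (vx e) m (vx q) heK hmK hqK
        rw [hsymm (vx e) m, hd1] at this
        linarith
      rcases hle.lt_or_eq with h | h
      · exact Relation.ReflTransGen.single ⟨he, hql, h⟩
      · rcases sl N D p hok hsp (vx e) (vx q) heK hqK with ⟨v, hv, hve, hvq, hvs⟩ | hs
        · have hvK := hinv v hv
          have p1 : 0 < dK D.K (ce p) (vx e) (vx v) := by
            rcases (hnn (vx e) (vx v)).lt_or_eq with h' | h'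
            · exact h'
            · exact absurd (hsep _ _ heK hvK h'.symm).symm hve
          have p2 : 0 < dK D.K (ce p) (vx v) (vx q) := by
            rcases (hnn (vx v) (vx q)).lt_or_eq with h' | h'
            · exact h'
            · exact absurd (hsep _ _ hvK hqK h'.symm) hvq
          refine Relation.ReflTransGen.tail (Relation.ReflTransGen.single ⟨he, hv, ?_⟩)
            ⟨hv, hql, ?_⟩
          · linarith
          · linarith
        · exfalso
          rw [hposvx, hposvx] at hs
          have t1 : dist (p e) (p q) ≤ dist (p e) (pos p m) + dist (pos p m) (p q) :=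
            dist_triangle _ _ _
          rw [dist_comm (pos p m) (p q)] at t1
          have t2 : dist (p q) (pos p m) = ℓ / 2 := by linarith
          have hmid : pos p m = (1 / 2 : ℝ) • (p e + p q) := by
            apply w18_mid
            · rw [hd2, ← hs, h]
            · rw [dist_comm, t2, ← hs, h]
          rw [hd3] at hmid
          have hpp : p e' = p q := by
            have := smul_right_injective E (show (1 / 2 : ℝ) ≠ 0 by norm_num) hmid
            exact add_left_cancel this
          have hfin := w17 N D p hok hsp hone m (vx e') k' r' hpath (by rw [hposvx]; exact hr') q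
            hq0 (by rw [hposvx]; exact hpp.symm)
          exact heq (w18_vxinj hfin)
    have hca := hclaim a c k2 (ℓ - ℓ / 2) ha (Ne.symm hqc) d5 d1 hM hm2 (by rw [d2]; linarith)
    have hcc := hclaim c a k3 (ℓ / 2) hc (Ne.symm hqa) d4 (by rw [dist_comm]; exact d2)
      (by rw [hM, add_comm]) hk3 (by rw [dist_comm, d1])
    refine hca.trans ?_
    have hsy : ∀ x y, Relation.ReflTransGen (fun x y => x ∈ D.vl ∧ y ∈ D.vl ∧
          dK D.K (ce p) (vx x) (vx y) < ℓ) x y → Relation.ReflTransGen (fun x y => x ∈ D.vl ∧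
          y ∈ D.vl ∧ dK D.K (ce p) (vx x) (vx y) < ℓ) y x := by
      intro x y h
      induction h with
      | refl => exact Relation.ReflTransGen.refl
      | tail _ hs ih =>
        exact Relation.ReflTransGen.head ⟨hs.2.1, hs.1, by rw [hsymm]; exact hs.2.2⟩ ih
    exact hsy _ _ hcc

end Pool.Agent.Lib.MP_9f84a9_co
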