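import Pool.Agent.Lib.MP_9f84a9_co.W.StmW

/-!
# MP_9f84a9_co, piece W19: chords of `Γ` are edges
-/

set_option autoImplicit false

namespace Pool.Agent.Lib.MP_9f84a9_co

open Finset

theorem t_W19 (a1 : S_A1) (a2 : S_A2) (b5 : S_B5) (hs : S_surg) (he : S_EX) (w18 : S_W18) :
    S_W19 := by
  intro N m Cl P R1 q hctx c hc
  obtain ⟨j, v, w⟩ := c
  have hEX := (he N m Cl P R1 q hctx).2 (j, v, w) hc
  obtain ⟨hpos, hle, hlab, hnj, hstr, heq⟩ := hEX
  simp only at hlab hnj hstr heq ⊢
  obtain ⟨X, hX, hcX⟩ := hc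
  have hmem := hX.1 hcX
  unfold chs at hmem
  rw [Finset.mem_filter] at hmem
  obtain ⟨-, hvw, hv, hw⟩ := hmem
  simp only at hvw hv hw
  have hqS : q j ∈ List.ofFn q := by
    rw [List.mem_ofFn]
    exact ⟨j, rfl⟩
  have hok : (q j).ok Cl P := hctx.opt.mem.ok _ hqS
  have hsurg : Surg (q j) := (hs N Cl P R1 (List.ofFn q) hctx).1 _ hqS
  by_cases hone : (q j).D.One
  · -- single edge
    obtain ⟨hP, hR⟩ := hone
    have hvl : (q j).D.vl = [(q j).D.a, (q j).D.b] := by
      unfold Dsc.vl
      rw [hP, hR]
      simp [PT.vs]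
    have hK : (q j).D.K = {{(q j).D.a, (q j).D.b}} := by
      unfold Dsc.K
      rw [if_pos ⟨hP, hR⟩]
    rw [hvl] at hv hw
    refine ⟨{(q j).D.a, (q j).D.b}, by rw [hK]; simp, ?_, ?_⟩
    · simpa using hv
    · simpa using hw
  · have hsym : ∀ x y : Pt N, (q j).d x y = (q j).d y x := by
      have h := a2 N (q j).D.K (ce (q j).p) ((a1 N).1 _) (b5 N _ hok.dok)
      exact h.2.2.1
    have h18 := w18 N (q j).D (q j).p hok.dok hsurg.spos hone hsurg.del v w hv hw hvw.ne heq hstr
    rcases h18 with h | h
    · exact h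
    · exfalso
      apply hnj
      -- map the chain
      have key : ∀ z : Fin N, Relation.ReflTransGen (fun x y => x ∈ (q j).D.vl ∧ y ∈ (q j).D.vl ∧
          dK (q j).D.K (ce (q j).p) (vx x) (vx y) <
            dK (q j).D.K (ce (q j).p) (vx v) (vx w)) v z →
          Relation.ReflTransGen (fun x y => ∃ c' ∈ chs q, cl q c' < cl q (j, v, w) ∧ cj q c' x y)
            ((q j).lab v) ((q j).lab z) := by
        intro z hz
        induction hz with
        | refl => exact Relation.ReflTransGen.refl
        | @tail x y _ hstep ih =>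
          obtain ⟨hx, hy, hlt⟩ := hstep
          rcases lt_trichotomy x y with hxy | hxy | hxy
          · refine ih.tail ⟨(j, x, y), ?_, ?_, ?_⟩
            · unfold chs
              rw [Finset.mem_filter]
              exact ⟨Finset.mem_univ _, hxy, hx, hy⟩
            · exact hlt
            · exact Or.inl ⟨rfl, rfl⟩
          · subst hxy
            exact ih
          · refine ih.tail ⟨(j, y, x), ?_, ?_, ?_⟩
            · unfold chs
              rw [Finset.mem_filter]
              exact ⟨Finset.mem_univ _, hxy, hy, hx⟩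
            · show (q j).d (vx y) (vx x) < _
              rw [hsym]
              exact hlt
            · exact Or.inr ⟨rfl, rfl⟩
      exact key w h

end Pool.Agent.Lib.MP_9f84a9_co
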