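import Pool.Agent.Lib.MP_9f84a9_co.W.StmW

/-! MP_9f84a9_co (Gilbert-Pollak), [W2]: leaves are near the root; small counts. -/

set_option autoImplicit false

namespace Pool.Agent.Lib.MP_9f84a9_co

open Finset Filter Topology

namespace W2

/-- leaves of a rooted net -/
theorem net {N : ℕ} (X : Pt N → Prop) (d : Pt N → Pt N → ℝ) (hn : ∀ x y, 0 ≤ d x y)
    (hs : ∀ x y, d x y = d y x) (hr : ∀ x, X x → d x x = 0)
    (ht : ∀ x y z, X x → X y → X z → d x z ≤ d x y + d y z) (A : Net N) :
    (∀ z ∈ A.nodes, X z) → (∀ v ∈ A.leaves, X (vx v)) →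
      X A.top ∧ 0 ≤ A.len d ∧ (∀ v ∈ A.leaves, d A.top (vx v) ≤ A.len d) ∧
      (∀ u ∈ A.leaves, ∀ v ∈ A.leaves, d (vx u) (vx v) ≤ A.len d) ∧
      A.fl ∈ A.leaves ∧ 1 ≤ A.leaves.length := by
  induction A with
  | leaf v =>
    intro _ hl
    have hv : X (vx v) := hl v (by simp [Net.leaves])
    have h0 : d (vx v) (vx v) = 0 := hr _ hv
    refine ⟨hv, ?_, ?_, ?_, ?_, ?_⟩
    · simp [Net.len]
    · intro w hw
      have : w = v := by simpa [Net.leaves] using hw
      subst this
      simp [Net.len, Net.top, h0]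
    · intro u hu w hw
      have h1 : u = v := by simpa [Net.leaves] using hu
      have h2 : w = v := by simpa [Net.leaves] using hw
      subst h1
      subst h2
      simp [Net.len, h0]
    · simp [Net.fl, Net.leaves]
    · simp [Net.leaves]
  | node z l r ihl ihr =>
    intro hz hl
    have hzX : X z := hz z (by simp [Net.nodes])
    obtain ⟨l1, l2, l3, l4, l5, l6⟩ := ihl (fun w hw => hz w (by simp [Net.nodes, hw]))
      (fun w hw => hl w (by simp [Net.leaves, hw]))
    obtain ⟨r1, r2, r3, r4, r5, r6⟩ := ihr (fun w hw => hz w (by simp [Net.nodes, hw]))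
      (fun w hw => hl w (by simp [Net.leaves, hw]))
    have e1 := hn z l.top
    have e2 := hn z r.top
    have hlX : ∀ v ∈ l.leaves, X (vx v) := fun w hw => hl w (by simp [Net.leaves, hw])
    have hrX : ∀ v ∈ r.leaves, X (vx v) := fun w hw => hl w (by simp [Net.leaves, hw])
    have kl : ∀ v ∈ l.leaves, d z (vx v) ≤ d z l.top + l.len d := by
      intro v hv
      have := ht z l.top (vx v) hzX l1 (hlX v hv)
      have := l3 v hv
      linarith
    have kr : ∀ v ∈ r.leaves, d z (vx v) ≤ d z r.top + r.len d := by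
      intro v hv
      have := ht z r.top (vx v) hzX r1 (hrX v hv)
      have := r3 v hv
      linarith
    have klr : ∀ u ∈ l.leaves, ∀ v ∈ r.leaves,
        d (vx u) (vx v) ≤ d z l.top + d z r.top + l.len d + r.len d := by
      intro u hu v hv
      have h1 := ht (vx u) z (vx v) (hlX u hu) hzX (hrX v hv)
      have h2 := kl u hu
      have h3 := kr v hv
      rw [hs (vx u) z] at h1
      linarith
    refine ⟨hzX, ?_, ?_, ?_, ?_, ?_⟩
    · simp only [Net.len]
      linarith
    · intro v hv
      show d z (vx v) ≤ d z l.top + d z r.top + l.len d + r.len d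
      rcases List.mem_append.1 (show v ∈ l.leaves ++ r.leaves from hv) with h | h
      · have := kl v h
        linarith
      · have := kr v h
        linarith
    · intro u hu v hv
      simp only [Net.len]
      rcases List.mem_append.1 (show u ∈ l.leaves ++ r.leaves from hu) with h | h <;>
        rcases List.mem_append.1 (show v ∈ l.leaves ++ r.leaves from hv) with h' | h'
      · have := l4 u h v h'
        linarith
      · exact klr u h v h'
      · rw [hs]
        exact klr v h' u h
      · have := r4 u h v h'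
        linarith
    · simp only [Net.fl, Net.leaves]
      exact List.mem_append.2 (Or.inl l5)
    · simp only [Net.leaves, List.length_append]
      omega

/-- leaves of a network -/
theorem tnet {N : ℕ} (X : Pt N → Prop) (d : Pt N → Pt N → ℝ) (hn : ∀ x y, 0 ≤ d x y)
    (hs : ∀ x y, d x y = d y x) (hr : ∀ x, X x → d x x = 0)
    (ht : ∀ x y z, X x → X y → X z → d x z ≤ d x y + d y z) (T : Net N × Net N)
    (hz : ∀ z ∈ T.1.nodes ++ T.2.nodes, X z) (hl : ∀ v ∈ T.1.leaves ++ T.2.leaves, X (vx v)) :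
    0 ≤ Net.tlen d T ∧ T.1.fl ∈ T.1.leaves ++ T.2.leaves ∧ 2 ≤ (T.1.leaves ++ T.2.leaves).length ∧
      ∀ u ∈ T.1.leaves ++ T.2.leaves, ∀ v ∈ T.1.leaves ++ T.2.leaves,
        d (vx u) (vx v) ≤ Net.tlen d T := by
  obtain ⟨A, B⟩ := T
  obtain ⟨l1, l2, l3, l4, l5, l6⟩ := net X d hn hs hr ht A
    (fun w hw => hz w (List.mem_append.2 (Or.inl hw)))
    (fun w hw => hl w (List.mem_append.2 (Or.inl hw)))
  obtain ⟨r1, r2, r3, r4, r5, r6⟩ := net X d hn hs hr ht B
    (fun w hw => hz w (List.mem_append.2 (Or.inr hw)))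
    (fun w hw => hl w (List.mem_append.2 (Or.inr hw)))
  have e := hn A.top B.top
  have key : ∀ u ∈ A.leaves, ∀ v ∈ B.leaves, d (vx u) (vx v) ≤ Net.tlen d (A, B) := by
    intro u hu v hv
    have hu' : X (vx u) := hl u (List.mem_append.2 (Or.inl hu))
    have hv' : X (vx v) := hl v (List.mem_append.2 (Or.inr hv))
    have h1 := ht (vx u) A.top (vx v) hu' l1 hv'
    have h2 := ht A.top B.top (vx v) l1 r1 hv'
    have h3 := l3 u hu
    have h4 := r3 v hv
    rw [hs (vx u) A.top] at h1
    simp only [Net.tlen]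
    linarith
  refine ⟨?_, List.mem_append.2 (Or.inl l5), ?_, ?_⟩
  · simp only [Net.tlen]
    linarith
  · simp only [List.length_append]
    omega
  · intro u hu v hv
    rcases List.mem_append.1 hu with h | h <;> rcases List.mem_append.1 hv with h' | h'
    · have := l4 u h v h'
      simp only [Net.tlen]
      linarith
    · exact key u h v h'
    · rw [hs]
      exact key v h' u h
    · have := r4 u h v h'
      simp only [Net.tlen]
      linarith

theorem sum_len {α : Type} (f : α → ℕ) (S : List α) (h : ∀ q ∈ S, 2 ≤ f q) :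
    S.length ≤ (S.map fun q => f q - 1).sum := by
  induction S with
  | nil => simp
  | cons a S ih =>
    have h1 := ih (fun q hq => h q (List.mem_cons_of_mem _ hq))
    have h2 := h a List.mem_cons_self
    simp only [List.length_cons, List.map_cons, List.sum_cons]
    omega

theorem le_sum {α : Type} (f : α → ℝ) (S : List α) (h : ∀ q ∈ S, 0 ≤ f q) :
    0 ≤ (S.map f).sum ∧ ∀ q ∈ S, f q ≤ (S.map f).sum := by
  induction S with
  | nil => simp
  | cons a S ih =>
    obtain ⟨h1, h2⟩ := ih (fun q hq => h q (List.mem_cons_of_mem _ hq))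
    have h3 := h a List.mem_cons_self
    simp only [List.map_cons, List.sum_cons]
    refine ⟨by linarith, ?_⟩
    intro q hq
    rcases List.mem_cons.1 hq with rfl | hq
    · linarith
    · have := h2 q hq
      linarith

end W2

theorem t_W2 (h1 : S_A1) (h2 : S_A2) (h3 : S_A3) (h4 : S_B4) (h5 : S_B5) : S_W2 := by
  intro N Cl P R1 S hc
  have hin : InD Cl P S := hc.opt.mem
  -- facts on one piece
  have hq : ∀ q ∈ S, 0 ≤ q.L ∧ q.root ∈ q.lv ∧ 2 ≤ q.lv.length ∧
      ∀ u ∈ q.lv, ∀ v ∈ q.lv, dist (q.p u) (q.p v) ≤ q.L := by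
    intro q hqS
    have hok := hin.ok q hqS
    have hcn : Cn q.D.K := h5 N q.D hok.dok
    obtain ⟨a1, -, -, a4, a5, a6, -⟩ := h1 N
    obtain ⟨b1, b2, b3, b4, -⟩ := h2 N q.D.K (ce q.p) (a1 q.p) hcn
    have hvx : ∀ v ∈ q.lv, In q.D.K (vx v) := by
      intro v hv
      obtain ⟨f, hf, hvf⟩ := (h4 N q.D hok.dok).2.1 v (hok.lvs v hv)
      exact (a5 q.D.K f v hf hvf).1
    have hce := a1 q.p
    have hle : ∀ x y, In q.D.K x → In q.D.K y → ce q.p x y ≤ dK q.D.K (ce q.p) x y :=
      h3 N q.D.K (ce q.p) (ce q.p) hcn (fun x _ => (hce.self x).le)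
        (fun x y z _ _ _ => hce.tri x y z) (fun x y _ => le_rfl)
    obtain ⟨t1, t2, t3, t4⟩ := W2.tnet (In q.D.K) (dK q.D.K (ce q.p)) b1 b3 b2 b4 q.T
      (fun z hz => hok.nods z hz) (fun v hv => hvx v hv)
    refine ⟨t1, t2, t3, ?_⟩
    intro u hu v hv
    have k1 := hle (vx u) (vx v) (hvx u hu) (hvx v hv)
    have k2 := t4 u hu v hv
    have k3 : ce q.p (vx u) (vx v) = dist (q.p u) (q.p v) := by
      simp only [ce, a6]
    rw [k3] at k1
    exact k1.trans k2
  have hsum := W2.le_sum Piece.L S (fun q hq' => (hq q hq').1)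
  have hlt : Lc S < 1 := by
    have : Real.sqrt 3 / 2 < 1 := by
      have : Real.sqrt 3 < 2 := by
        rw [Real.sqrt_lt' (by norm_num)]
        norm_num
      linarith
    exact hc.lt.trans this
  have hlen := W2.sum_len (fun q : Piece N => q.lv.length) S (fun q hq' => (hq q hq').2.2.1)
  have hcnt := hin.cnt
  have hcard : S.length < Cl.card := by
    have : S.length ≤ (S.map fun q => q.lv.length - 1).sum := hlen
    omega
  refine ⟨?_, hcard, Finset.card_pos.1 (by omega)⟩
  intro q hq'
  obtain ⟨k1, k2, k3, k4⟩ := hq q hq'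
  refine ⟨k2, k3, ?_⟩
  intro v hv
  have := k4 v hv q.root k2
  have h6 : q.L ≤ Lc S := hsum.2 q hq'
  linarith

end Pool.Agent.Lib.MP_9f84a9_co
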