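import Pool.Agent.Lib.MP_9f84a9_co.W.StmW

/-!
# MP_9f84a9_co, module W, piece W20: all vertices are in `Z_j`, all edges in `Γ`
-/

set_option autoImplicit false

namespace Pool.Agent.Lib.MP_9f84a9_co

open Finset Filter Topology

namespace W20

theorem mem_edg {N : ℕ} (K : Cx N) (A : Finset (Fin N)) (e : Fin N × Fin N) :
    e ∈ edg K A ↔ e.1 < e.2 ∧ e.1 ∈ A ∧ e.2 ∈ A ∧ ∃ f ∈ K, e.1 ∈ f ∧ e.2 ∈ f := by
  classical
  unfold edg
  refine Finset.mem_filter.trans ?_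
  exact ⟨fun h => h.2, fun h => ⟨Finset.mem_univ _, h⟩⟩

theorem mem_Gs {N m : ℕ} (Cl : Finset ℕ) (q : Fin m → Piece N) (j : Fin m) (e : Fin N × Fin N) :
    e ∈ Gs Cl q j ↔ Gam Cl q (j, e.1, e.2) ∧ e.1 ∈ Zs Cl q j := by
  classical
  unfold Gs
  refine Finset.mem_filter.trans ?_
  exact ⟨fun h => h.2, fun h => ⟨Finset.mem_univ _, h⟩⟩

theorem lt_of_Gam {N m : ℕ} (Cl : Finset ℕ) (q : Fin m → Piece N) (j : Fin m) (v w : Fin N)
    (h : Gam Cl q (j, v, w)) : v < w := by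
  obtain ⟨X, hX, hc⟩ := h
  have h1 := hX.1 hc
  unfold chs at h1
  exact (Finset.mem_filter.1 h1).2.1

end W20

theorem t_W20 (b1 : S_B1) (b4 : S_B4) (b6 : S_B6) (b7 : S_B7) (hs : S_surg) (w9 : S_W9)
    (w11 : S_W11) (w19 : S_W19) : S_W20 := by
  intro N k m Cl P R1 t y hnd hctx j
  have hctx' : Ctx Cl P R1 (List.ofFn (mq t y)) := hctx
  obtain ⟨z1, z2, z3, _, z5, _⟩ := w9 N m Cl P R1 (mq t y) hctx' j
  obtain ⟨c1, _⟩ := w11 N k m Cl P R1 t y hnd hctx j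
  have hmem : mq t y j ∈ List.ofFn (mq t y) := by
    rw [List.mem_ofFn]
    exact ⟨j, rfl⟩
  have hok := hctx'.opt.mem.ok _ hmem
  have hdok : (t j).D.ok := hok.dok
  have z2' : ∀ v ∈ Zs Cl (mq t y) j, v ∈ (t j).D.vl := z2
  have hsurg : Surg (mq t y j) := (hs N Cl P R1 _ hctx').1 _ hmem
  have hsub : Gs Cl (mq t y) j ⊆ edg (t j).D.K (Zs Cl (mq t y) j) := by
    intro e he
    obtain ⟨hG, hZ⟩ := (W20.mem_Gs Cl (mq t y) j e).1 he
    obtain ⟨f, hf, h1, h2⟩ := w19 N m Cl P R1 (mq t y) hctx' (j, e.1, e.2) hG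
    exact (W20.mem_edg _ _ e).2 ⟨W20.lt_of_Gam Cl _ j e.1 e.2 hG, hZ,
      (z5 e.1 e.2 (Or.inl hG)).1 hZ, f, hf, h1, h2⟩
  have hb6 := b6 N (t j).D hdok (Zs Cl (mq t y) j) z3 z2'
  have hcard : (edg (t j).D.K (Zs Cl (mq t y) j)).card ≤ (Gs Cl (mq t y) j).card := by omega
  have heq : Gs Cl (mq t y) j = edg (t j).D.K (Zs Cl (mq t y) j) :=
    Finset.eq_of_subset_of_card_le hsub hcard
  have hfirst : ∀ v ∈ (t j).D.vl, v ∈ Zs Cl (mq t y) j := by
    intro v hv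
    by_contra hvZ
    obtain ⟨D', hE, hA, hvR⟩ := b7 N (t j).D hdok (Zs Cl (mq t y) j) z3 z2'
      (by rw [heq] at c1; exact c1) v hv hvZ
    have hR : D'.R ≠ PT.nil := by
      intro h
      rw [h] at hvR
      simp [PT.vs] at hvR
    obtain ⟨u, hu, huR⟩ := hsurg.ear D' hE hR
    have huZ := z1 u hu
    have hok' : D'.ok := ((b1 N (t j).D D' hE).2.1).1 hdok
    have hnod : (D'.a :: D'.b :: (D'.P.vs ++ D'.R.vs)).Nodup := hok'
    rw [List.nodup_cons, List.nodup_cons, List.nodup_append] at hnod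
    obtain ⟨ha, hb, _, _, hd⟩ := hnod
    rcases hA u huZ with h | h | h
    · apply ha
      rw [← h]
      exact List.mem_cons_of_mem _ (List.mem_append_right _ huR)
    · apply hb
      rw [← h]
      exact List.mem_append_right _ huR
    · exact hd u h u huR rfl
  refine ⟨hfirst, ?_, by rw [heq]; exact hb6⟩
  intro f hf v hv w hw hvw
  have h4 := (b4 N (t j).D hdok).1 f hf
  have h5 : (v, w) ∈ Gs Cl (mq t y) j := by
    rw [heq]
    exact (W20.mem_edg _ _ (v, w)).2 ⟨hvw, hfirst v (h4 v hv), hfirst w (h4 w hw), f, hf, hv, hw⟩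
  exact ((W20.mem_Gs Cl (mq t y) j (v, w)).1 h5).1

end Pool.Agent.Lib.MP_9f84a9_co
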