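import Pool.Agent.Lib.MP_9f84a9_co.W.StmW

set_option autoImplicit false

namespace Pool.Agent.Lib.MP_9f84a9_co

open Finset Filter Topology

theorem t_W21 (_he : S_EX) (hm : S_ml) (w10 : S_W10) (w11 : S_W11) (w20 : S_W20) : S_W21 := by
  classical
  intro N k m Cl P R1 t y hn hctx
  -- all Gamma chords are at most as long as every Gamma chord
  suffices H : ∀ c1 c0, Gam Cl (mq t y) c1 → Gam Cl (mq t y) c0 →
      (∀ c, Gam Cl (mq t y) c → cl (mq t y) c ≤ cl (mq t y) c1) →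
      cl (mq t y) c0 = cl (mq t y) c1 by
    intro c c' hc hc'
    have hne : (univ.filter fun c => Gam Cl (mq t y) c).Nonempty :=
      ⟨c, Finset.mem_filter.2 ⟨Finset.mem_univ _, hc⟩⟩
    obtain ⟨c1, hc1, hmax⟩ := Finset.exists_max_image _ (cl (mq t y)) hne
    have hc1' := (Finset.mem_filter.1 hc1).2
    have hmax' : ∀ c, Gam Cl (mq t y) c → cl (mq t y) c ≤ cl (mq t y) c1 := fun c hc =>
      hmax c (Finset.mem_filter.2 ⟨Finset.mem_univ _, hc⟩)
    rw [H c1 c hc1' hc hmax', H c1 c' hc1' hc' hmax']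
  intro c1 c0 hc1 hc0 hmax
  by_contra hne
  have hlt : cl (mq t y) c0 < cl (mq t y) c1 := lt_of_le_of_ne (hmax c0 hc0) hne
  have hctx' : Ctx Cl P R1 (List.ofFn (mq t y)) := hctx
  obtain ⟨hcard, hfil⟩ := hm N m Cl P R1 (mq t y) hctx'
  have hfil' := hfil (cl (mq t y) c1) hmax
  obtain ⟨X0, hX0, hcX0⟩ := hc0
  obtain ⟨X1, hX1, hcX1⟩ := hc1
  set ℓ : ℝ := cl (mq t y) c1 with hℓ
  set h : ℕ := (X1.filter fun c => cl (mq t y) c = ℓ).card with hh
  have hpos : 1 ≤ h := by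
    rw [hh, Nat.succ_le_iff, Finset.card_pos]
    exact ⟨c1, Finset.mem_filter.2 ⟨hcX1, rfl⟩⟩
  have hsplit : ∀ X, Mn Cl (mq t y) X →
      (X.filter fun c => cl (mq t y) c = ℓ).card = h ∧
      (X.filter fun c => ¬ cl (mq t y) c = ℓ).card + h + 1 = Cl.card := by
    intro X hX
    have h1 := hfil' X X1 hX hX1
    have h2 := Finset.card_filter_add_card_filter_not (s := X) (fun c => cl (mq t y) c = ℓ)
    have h3 := hcard X hX
    refine ⟨h1, ?_⟩
    rw [← hh] at h1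
    omega
  have hle : h + 2 ≤ Cl.card := by
    have h1 := (hsplit X0 hX0).2
    have h2 : 0 < (X0.filter fun c => ¬ cl (mq t y) c = ℓ).card :=
      Finset.card_pos.2 ⟨c0, Finset.mem_filter.2 ⟨hcX0, hlt.ne⟩⟩
    omega
  -- the prescribed values
  let r : Fin m → Fin N × Fin N → ℝ := fun j e =>
    if cl (mq t y) (j, e.1, e.2) = ℓ then (Cl.card : ℝ) - 1 - h else -(h : ℝ)
  have hex : ∀ j, ∃ δ : Fin N ⊕ Fin k → E,
      (∀ v, v ∉ Zs Cl (mq t y) j → δ (Sum.inl v) = 0) ∧ δ (Sum.inl (t j).root) = 0 ∧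
      (∀ e ∈ (t j).edges,
        inner ℝ (δ e.1 - δ e.2) (rot (ipos (y j) e.1 - ipos (y j) e.2)) = 0) ∧
      ∀ e ∈ Gs Cl (mq t y) j, inner ℝ (δ (Sum.inl e.1) - δ (Sum.inl e.2))
        (uni ((y j).1 e.1 - (y j).1 e.2)) = r j e := fun j =>
    (w11 N k m Cl P R1 t y hn hctx j).2 (w20 N k m Cl P R1 t y hn hctx j).2.2 (r j)
  choose δ hδ1 hδ2 hδ3 hδ4 using hex
  have hterm : ∀ c, Gam Cl (mq t y) c →
      inner ℝ (δ c.1 (Sum.inl c.2.1) - δ c.1 (Sum.inl c.2.2))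
        (uni ((y c.1).1 c.2.1 - (y c.1).1 c.2.2)) =
      if cl (mq t y) c = ℓ then (Cl.card : ℝ) - 1 - h else -(h : ℝ) := by
    rintro ⟨j, v, w⟩ hc
    have hv : v ∈ (t j).D.vl := by
      obtain ⟨X, hX, hcX⟩ := hc
      have := hX.1 hcX
      simp only [chs, Finset.mem_filter] at this
      exact this.2.2.1
    have hmem : (v, w) ∈ Gs Cl (mq t y) j := by
      simp only [Gs, Finset.mem_filter, Finset.mem_univ, true_and]
      exact ⟨hc, (w20 N k m Cl P R1 t y hn hctx j).1 v hv⟩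
    exact hδ4 j (v, w) hmem
  have hker := w10 N k m Cl P R1 t y hn hctx δ hδ1 hδ2 hδ3 ?_
  · have h1 := hterm c1 ⟨X1, hX1, hcX1⟩
    rw [hker.1, hker.1, if_pos hℓ.symm, sub_zero, inner_zero_left] at h1
    have h2 : ((h : ℝ) + 2) ≤ Cl.card := by exact_mod_cast hle
    linarith
  · intro X hX
    rw [Finset.sum_congr rfl fun c hc => hterm c ⟨X, hX, hc⟩, Finset.sum_ite, Finset.sum_const,
      Finset.sum_const, nsmul_eq_mul, nsmul_eq_mul, (hsplit X hX).1]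
    have h2 : (((X.filter fun c => ¬ cl (mq t y) c = ℓ).card : ℝ) + h + 1) = Cl.card := by
      exact_mod_cast (hsplit X hX).2
    rw [← h2]
    ring

end Pool.Agent.Lib.MP_9f84a9_co
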