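import Pool.Agent.Lib.MP_9f84a9_co.W.StmW

/-!
# MP_9f84a9_co, piece W3: relabelling the far vertices
-/

set_option autoImplicit false

namespace Pool.Agent.Lib.MP_9f84a9_co

open Finset Filter Topology

namespace W3

private theorem eLc {N : ℕ} (R : ℝ) (c0 : ℕ) (S : Cfg N) : Lc (S.map (relab R c0)) = Lc S := by
  unfold Lc
  rw [List.map_map]
  exact congrArg List.sum (List.map_congr_left (fun q _ => rfl))

private theorem emu {N : ℕ} (R : ℝ) (c0 : ℕ) (S : Cfg N) : mu (S.map (relab R c0)) = mu S := by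
  unfold mu
  rw [List.map_map]
  exact congrArg List.sum (List.map_congr_left (fun q _ => rfl))

private theorem ePhi {N : ℕ} (R1 R : ℝ) (c0 : ℕ) (S : Cfg N) :
    Phi R1 (S.map (relab R c0)) = Phi R1 S := by
  unfold Phi
  rw [List.map_map]
  exact congrArg List.sum (List.map_congr_left (fun q _ => rfl))

private theorem eIc {N : ℕ} (R : ℝ) (c0 : ℕ) (S : Cfg N) : Ic (S.map (relab R c0)) = Ic S := by
  unfold Ic
  rw [List.map_map]
  exact congrArg List.sum (List.map_congr_left (fun q _ => rfl))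

private theorem eQc {N : ℕ} (R : ℝ) (c0 : ℕ) (S : Cfg N) : Qc (S.map (relab R c0)) = Qc S := by
  unfold Qc
  rw [List.map_map]
  exact congrArg List.sum (List.map_congr_left (fun q _ => rfl))

private theorem ecnt {N : ℕ} (R : ℝ) (c0 : ℕ) (S : Cfg N) :
    ((S.map (relab R c0)).map fun q => q.lv.length - 1).sum =
      (S.map fun q => q.lv.length - 1).sum := by
  rw [List.map_map]
  exact congrArg List.sum (List.map_congr_left (fun q _ => rfl))

private theorem lab_far {N : ℕ} (R : ℝ) (c0 : ℕ) (q : Piece N) (v : Fin N)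
    (h : R < dist (q.p v) (q.p q.root)) : (relab R c0 q).lab v = c0 := by
  show (if R < dist (q.p v) (q.p q.root) then c0 else q.lab v) = c0
  rw [if_pos h]

private theorem lab_near {N : ℕ} (R : ℝ) (c0 : ℕ) (q : Piece N) (v : Fin N)
    (h : ¬ R < dist (q.p v) (q.p q.root)) : (relab R c0 q).lab v = q.lab v := by
  show (if R < dist (q.p v) (q.p q.root) then c0 else q.lab v) = q.lab v
  rw [if_neg h]

private theorem sumfilter (l : List (ℕ × ℕ × ℝ)) (f : ℕ × ℕ × ℝ → Bool)
    (h : ∀ t ∈ l, 0 ≤ t.2.2) : ((l.filter f).map (·.2.2)).sum ≤ (l.map (·.2.2)).sum := by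
  induction l with
  | nil => simp
  | cons t l ih =>
    have ih' := ih (fun t ht => h t (List.mem_cons_of_mem _ ht))
    have h0 := h t List.mem_cons_self
    rw [List.filter_cons]
    split_ifs with hf
    · simp only [List.map_cons, List.sum_cons]
      linarith
    · simp only [List.map_cons, List.sum_cons]
      linarith

private theorem lesum (l : List (ℕ × ℕ × ℝ)) (h : ∀ t ∈ l, 0 ≤ t.2.2) :
    ∀ t ∈ l, t.2.2 ≤ (l.map (·.2.2)).sum := by
  induction l with
  | nil => simp
  | cons t l ih =>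
    intro t' ht'
    have ih' := ih (fun t ht => h t (List.mem_cons_of_mem _ ht))
    have h0 := h t List.mem_cons_self
    have h1 : 0 ≤ (l.map (·.2.2)).sum := by
      apply List.sum_nonneg
      intro x hx
      obtain ⟨s, hs, rfl⟩ := List.mem_map.1 hx
      exact h s (List.mem_cons_of_mem _ hs)
    simp only [List.map_cons, List.sum_cons]
    rcases List.mem_cons.1 ht' with rfl | ht'
    · linarith
    · have := ih' t' ht'
      linarith

end W3

theorem t_W3 (h1 : S_A1) (h2 : S_A2) (h3 : S_A3) (h4 : S_B4) (h5 : S_B5) (hw : S_W2) : S_W3 := by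
  classical
  intro N Cl P R1 S R c0 hC hR hc0 hG
  obtain ⟨a1, -, -, -, a5, a6, -, -, -⟩ := h1 N
  obtain ⟨w2, -, -⟩ := hw N Cl P R1 S hC
  have hmem := hC.opt.mem
  -- distances of one piece
  have hnn : ∀ q ∈ S, ∀ x y, 0 ≤ q.d x y := by
    intro q hq x y
    exact (h2 N q.D.K (ce q.p) (a1 q.p) (h5 N q.D (hmem.ok q hq).dok)).1 x y
  have hvin : ∀ q ∈ S, ∀ v ∈ q.D.vl, In q.D.K (vx v) := by
    intro q hq v hv
    obtain ⟨f, hf, hvf⟩ := (h4 N q.D (hmem.ok q hq).dok).2.1 v hv
    exact (a5 q.D.K f v hf hvf).1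
  have hdist : ∀ q ∈ S, ∀ v ∈ q.D.vl, ∀ w ∈ q.D.vl, dist (q.p v) (q.p w) ≤ q.d (vx v) (vx w) := by
    intro q hq v hv w hw'
    have h := h3 N q.D.K (ce q.p) (ce q.p) (h5 N q.D (hmem.ok q hq).dok)
      (fun x _ => le_of_eq ((a1 q.p).self x)) (fun x y z _ _ _ => (a1 q.p).tri x y z)
      (fun x y _ => le_rfl) (vx v) (vx w) (hvin q hq v hv) (hvin q hq w hw')
    unfold ce at h
    rw [a6, a6] at h
    exact h
  have hInD : InD Cl P (S.map (relab R c0)) := by
    refine ⟨?_, ?_, ?_, ?_⟩
    · intro q' hq'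
      obtain ⟨q, hq, rfl⟩ := List.mem_map.1 hq'
      have hok := hmem.ok q hq
      refine ⟨hok.dok, hok.wpos, ?_, hok.nods, hok.lvs, hok.diam⟩
      intro v
      by_cases hv : R < dist (q.p v) (q.p q.root)
      · rw [W3.lab_far R c0 q v hv]; exact hc0
      · rw [W3.lab_near R c0 q v hv]; exact hok.labs v
    · intro a ha b hb
      have hmono : ∀ x y, Hst S x y → Hst (S.map (relab R c0)) x y := ?_
      · exact Relation.ReflTransGen.mono hmono _ _ (hmem.conn a ha b hb)
      rintro x y ⟨q, hq, hx, hy⟩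
      have key : ∀ z, z ∈ q.lv.map q.lab → z ∈ (relab R c0 q).lv.map (relab R c0 q).lab := by
        intro z hz
        obtain ⟨v, hv, rfl⟩ := List.mem_map.1 hz
        refine List.mem_map.2 ⟨v, hv, W3.lab_near R c0 q v ?_⟩
        have := (w2 q hq).2.2 v hv
        linarith
      exact ⟨relab R c0 q, List.mem_map.2 ⟨q, hq, rfl⟩, key x hx, key y hy⟩
    · rw [W3.ecnt]; exact hmem.cnt
    · intro l hl hJ
      by_contra hlt
      rw [not_le] at hlt
      have hnn' : ∀ t ∈ l, 0 ≤ t.2.2 := by
        intro t ht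
        obtain ⟨q', hq', v, -, w, -, -, -, hd⟩ := hl t ht
        obtain ⟨q, hq, rfl⟩ := List.mem_map.1 hq'
        exact le_trans (hnn q hq (vx v) (vx w)) hd
      have hle := W3.lesum l hnn'
      have hJ' : Joins Cl (l.filter fun t => decide (t.1 ≠ t.2.1)) := by
        intro a ha b hb
        have h := hJ a ha b hb
        clear hb
        induction h with
        | refl => exact Relation.ReflTransGen.refl
        | @tail x y _ hs ih =>
          by_cases hxy : x = y
          · subst hxy; exact ih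
          · refine ih.tail ?_
            obtain ⟨r, hr | hr⟩ := hs
            · exact ⟨r, Or.inl (List.mem_filter.2 ⟨hr, by simpa using hxy⟩)⟩
            · exact ⟨r, Or.inr (List.mem_filter.2 ⟨hr, by simpa using Ne.symm hxy⟩)⟩
      have hCh : ∀ t ∈ l.filter (fun t => decide (t.1 ≠ t.2.1)), Ch S t.1 t.2.1 t.2.2 := by
        intro t ht
        obtain ⟨htl, htne⟩ := List.mem_filter.1 ht
        have htne' : t.1 ≠ t.2.1 := by simpa using htne
        obtain ⟨q', hq', v, hv, w, hw', hlv, hlw, hd⟩ := hl t htl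
        obtain ⟨q, hq, rfl⟩ := List.mem_map.1 hq'
        have hv' : v ∈ q.D.vl := hv
        have hw'' : w ∈ q.D.vl := hw'
        have hd' : q.d (vx v) (vx w) ≤ t.2.2 := hd
        have hd1 := hdist q hq v hv' w hw''
        have hr1 := hle t htl
        have hlt1 : dist (q.p v) (q.p w) < 1 := by linarith
        have ht1 := dist_triangle (q.p v) (q.p w) (q.p q.root)
        have ht2 := dist_triangle (q.p w) (q.p v) (q.p q.root)
        rw [dist_comm (q.p w) (q.p v)] at ht2
        have hGv := hG q hq v hv'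
        have hGw := hG q hq w hw''
        by_cases hfv : R < dist (q.p v) (q.p q.root)
        · have h6 : R + 1 < dist (q.p v) (q.p q.root) := by
            by_contra hcon
            exact hGv ⟨hfv, not_lt.1 hcon⟩
          have hfw : R < dist (q.p w) (q.p q.root) := by linarith
          rw [W3.lab_far R c0 q v hfv] at hlv
          rw [W3.lab_far R c0 q w hfw] at hlw
          exact absurd (hlv.symm.trans hlw) htne'
        · by_cases hfw : R < dist (q.p w) (q.p q.root)
          · have h6 : R + 1 < dist (q.p w) (q.p q.root) := by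
              by_contra hcon
              exact hGw ⟨hfw, not_lt.1 hcon⟩
            exfalso
            exact hfv (by linarith)
          · rw [W3.lab_near R c0 q v hfv] at hlv
            rw [W3.lab_near R c0 q w hfw] at hlw
            exact ⟨q, hq, v, hv', w, hw'', hlv, hlw, hd'⟩
      have hge := hmem.mst _ hCh hJ'
      have hsf := W3.sumfilter l (fun t => decide (t.1 ≠ t.2.1)) hnn'
      linarith
  refine ⟨⟨hInD, ?_, ?_, ?_, ?_, ?_⟩, ?_, hC.ih, hC.hR1, hC.hP⟩
  · intro S' hS'
    rw [W3.eLc]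
    exact hC.opt.o1 S' hS'
  · intro S' hS'
    rw [W3.eLc, W3.emu]
    exact hC.opt.o2 S' hS'
  · intro S' hS'
    rw [W3.eLc, W3.emu, W3.ePhi]
    exact hC.opt.o3 S' hS'
  · intro S' hS'
    rw [W3.eLc, W3.emu, W3.ePhi, W3.eIc]
    exact hC.opt.o4 S' hS'
  · intro S' hS'
    rw [W3.eLc, W3.emu, W3.ePhi, W3.eIc, W3.eQc]
    exact hC.opt.o5 S' hS'
  · rw [W3.eLc]
    exact hC.lt

end Pool.Agent.Lib.MP_9f84a9_co
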