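import Pool.Agent.Lib.MP_9f84a9_co.W.StmW

/-!
# MP_9f84a9_co, module W: a gap in the distances (pigeonhole)
-/

set_option autoImplicit false

namespace Pool.Agent.Lib.MP_9f84a9_co

open Finset

theorem t_W4 (hw : S_W2) : S_W4 := by
  intro N Cl P R1 S hctx
  by_contra hcon
  push Not at hcon
  obtain ⟨-, hlen, -⟩ := hw N Cl P R1 S hctx
  have hcard : (Cl.card : ℝ) * N ≥ 0 := by positivity
  have key : ∀ i : Fin (Cl.card * N + 1), ∃ c : Fin S.length × Fin N,
      (i : ℝ) + 1 < dist ((S.get c.1).p c.2) ((S.get c.1).p (S.get c.1).root) ∧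
      dist ((S.get c.1).p c.2) ((S.get c.1).p (S.get c.1).root) ≤ (i : ℝ) + 2 := by
    intro i
    have hi : (i : ℝ) ≤ (Cl.card : ℝ) * N := by
      have h1 : (i : ℕ) ≤ Cl.card * N := Nat.lt_succ_iff.1 i.2
      exact_mod_cast h1
    have h0 : (0 : ℝ) ≤ (i : ℝ) := Nat.cast_nonneg _
    obtain ⟨q, hq, hg⟩ := hcon ((i : ℝ) + 1) (by linarith) (by rw [hctx.hR1]; linarith)
    unfold Gap at hg
    push Not at hg
    obtain ⟨v, -, h1, h2⟩ := hg
    obtain ⟨k, rfl⟩ := List.mem_iff_get.1 hq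
    exact ⟨(k, v), h1, by linarith⟩
  choose f hf using key
  have hinj : Function.Injective f := by
    intro i j hij
    have h1 := hf i
    have h2 := hf j
    rw [hij] at h1
    have h3 : (i : ℝ) < (j : ℝ) + 1 := by linarith [h1.1, h2.2]
    have h4 : (j : ℝ) < (i : ℝ) + 1 := by linarith [h1.2, h2.1]
    have h5 : (i : ℕ) < (j : ℕ) + 1 := by exact_mod_cast h3
    have h6 : (j : ℕ) < (i : ℕ) + 1 := by exact_mod_cast h4
    exact Fin.ext (by omega)
  have h1 := Fintype.card_le_of_injective f hinj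
  rw [Fintype.card_prod, Fintype.card_fin, Fintype.card_fin, Fintype.card_fin] at h1
  have h2 : S.length * N ≤ Cl.card * N := Nat.mul_le_mul_right N hlen.le
  omega

end Pool.Agent.Lib.MP_9f84a9_co
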