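import Pool.Agent.Lib.MP_9f84a9_co.W.StmW

set_option autoImplicit false

namespace Pool.Agent.Lib.MP_9f84a9_co

open Finset

theorem t_W5 (h : S_EX) : S_W5 := by
  classical
  intro N m Cl P R1 q R c0 hctx hgap hfar c hc
  obtain ⟨-, hall⟩ := h N m Cl P R1 q hctx
  obtain ⟨-, hle, hlab, -, -, hd⟩ := hall c hc
  obtain ⟨X, hX, hcX⟩ := hc
  have hcc := hX.1 hcX
  simp only [chs, Finset.mem_filter, Finset.mem_univ, true_and] at hcc
  obtain ⟨-, hv, hw⟩ := hcc
  have h1 : dist ((q c.1).p c.2.1) ((q c.1).p c.2.2) ≤ 1 := hd ▸ hle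
  have t1 := dist_triangle ((q c.1).p c.2.1) ((q c.1).p c.2.2) ((q c.1).p (q c.1).root)
  have t2 := dist_triangle ((q c.1).p c.2.2) ((q c.1).p c.2.1) ((q c.1).p (q c.1).root)
  rw [dist_comm ((q c.1).p c.2.2) ((q c.1).p c.2.1)] at t2
  have g1 := hgap c.1 c.2.1 hv
  have g2 := hgap c.1 c.2.2 hw
  have key : ¬ (R < dist ((q c.1).p c.2.1) ((q c.1).p (q c.1).root) ∧
      R < dist ((q c.1).p c.2.2) ((q c.1).p (q c.1).root)) := by
    rintro ⟨ha, hb⟩
    exact hlab ((hfar c.1 c.2.1 hv ha).trans (hfar c.1 c.2.2 hw hb).symm)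
  constructor
  · by_contra hcon
    push Not at hcon
    have h2 : R + 1 < dist ((q c.1).p c.2.1) ((q c.1).p (q c.1).root) := by
      by_contra h3
      exact g1 ⟨hcon, not_lt.1 h3⟩
    exact key ⟨hcon, by linarith⟩
  · by_contra hcon
    push Not at hcon
    have h2 : R + 1 < dist ((q c.1).p c.2.2) ((q c.1).p (q c.1).root) := by
      by_contra h3
      exact g2 ⟨hcon, not_lt.1 h3⟩
    exact key ⟨by linarith, hcon⟩

end Pool.Agent.Lib.MP_9f84a9_co
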