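import Pool.Agent.Lib.MP_9f84a9_co.W.StmW

/-!
# MP_9f84a9_co, piece W6: a farthest vertex can be moved
-/

set_option autoImplicit false

namespace Pool.Agent.Lib.MP_9f84a9_co

open Finset Filter Topology

namespace W6aux

theorem ball_combo (a b c : E) (P s : ℝ) (hs0 : 0 ≤ s) (hs1 : s ≤ 1) (ha : dist a c ≤ P)
    (hb : dist b c ≤ P) : dist (a + s • (b - a)) c ≤ P := by
  have h := (convex_closedBall c P).add_smul_sub_mem (x := a) (y := b)
    (Metric.mem_closedBall.2 ha) (Metric.mem_closedBall.2 hb) (t := s) ⟨hs0, hs1⟩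
  exact Metric.mem_closedBall.1 h

theorem dist_lt (a b c : E) (s : ℝ) (hs0 : 0 < s) (hs1 : s < 1) (hab : b ≠ a)
    (hle : dist b c ≤ dist a c) : dist (a + s • (b - a)) c < dist a c := by
  have e : a + s • (b - a) - c = (1 - s) • (a - c) + s • (b - c) := by
    module
  rw [dist_eq_norm, dist_eq_norm, e]
  rw [dist_eq_norm, dist_eq_norm] at hle
  refine norm_combo_lt_of_ne (le_refl _) hle ?_ (by linarith) hs0 (by ring)
  intro h
  exact hab (sub_left_injective h).symm

theorem ar_self (u w : E) : ar u u w = 0 := by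
  unfold ar
  ring

theorem phi_lt (R1 r r' : ℝ) (h1 : R1 < r') (h2 : r' < r) : phi R1 r < phi R1 r' := by
  unfold phi
  rw [if_neg (by linarith), if_neg (by linarith)]
  linarith

end W6aux

/-- the statement for a symbolic configuration -/
theorem W6_core (h4 : S_B4) (g3 : S_G3) (x2 : S_X2) (hs : S_surg) (hv : S_VL)
    (w1 : S_W1) (w2 : S_W2) (w5 : S_W5) (N k m : ℕ) (Cl : Finset ℕ) (P R1 R : ℝ) (c0 : ℕ)
    (t : Fin m → SP N k) (y : Fin m → Dat N k) (hnod : ∀ j, (t j).names.Nodup)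
    (hC : Ctx Cl P R1 (mk t y)) (hR1 : 1 ≤ R) (hR : R + 1 ≤ R1)
    (hG : ∀ j, Gap R ((t j).real (y j)))
    (hlab : ∀ j, ∀ v ∈ (t j).D.vl, R < dist ((y j).1 v) ((y j).1 (t j).root) →
      (t j).lab v = c0) :
    ∀ j, ∀ v ∈ (t j).D.vl, dist ((y j).1 v) ((y j).1 (t j).root) ≤ R1 := by
  classical
  by_contra hcon
  push Not at hcon
  obtain ⟨j0, v0, hv0, hbig0⟩ := hcon
  -- the farthest vertex
  set V : Finset (Fin m × Fin N) := univ.filter fun c => c.2 ∈ (t c.1).D.vl with hV
  set fd : Fin m × Fin N → ℝ := fun c => dist ((y c.1).1 c.2) ((y c.1).1 (t c.1).root) with hfd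
  have hVne : V.Nonempty := ⟨(j0, v0), by simp [hV, hv0]⟩
  obtain ⟨⟨j, a⟩, hja, hmax⟩ := V.exists_max_image fd hVne
  have haV : a ∈ (t j).D.vl := by
    have := hja
    simp only [hV, Finset.mem_filter, Finset.mem_univ, true_and] at this
    exact this
  have hbig : R1 < dist ((y j).1 a) ((y j).1 (t j).root) := by
    have := hmax (j0, v0) (by simp [hV, hv0])
    simp only [hfd] at this
    linarith
  have hmem : ∀ i, (t i).real (y i) ∈ mk t y := by
    intro i
    unfold mk
    exact (List.mem_ofFn).2 ⟨i, rfl⟩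
  have hok : ∀ i, ((t i).real (y i)).ok Cl P := fun i => hC.opt.mem.ok _ (hmem i)
  have hroot : ∀ i, ((t i).real (y i)).root = (t i).root := fun i => ((w1 N k).1 (t i) (y i) (y i)).1
  have hrlv : ∀ i, (t i).root ∈ ((t i).real (y i)).lv :=
    fun i => ((w1 N k).1 (t i) (y i) (y i)).2.1
  obtain ⟨hw2, -, -⟩ := w2 N Cl P R1 _ hC
  have hleaf : ∀ i, ∀ v ∈ ((t i).real (y i)).lv,
      dist ((y i).1 v) ((y i).1 (t i).root) < 1 := by
    intro i v hv'
    have := (hw2 _ (hmem i)).2.2 v hv'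
    rw [hroot i] at this
    exact this
  have hanl : a ∉ ((t j).real (y j)).lv := by
    intro h
    have := hleaf j a h
    linarith
  have hrne : (t j).root ≠ a := by
    intro h
    exact hanl (h ▸ hrlv j)
  have hSj : Surg ((t j).real (y j)) := (hs N Cl P R1 _ hC).1 _ (hmem j)
  -- not a single edge
  have hOne : ¬ (t j).D.One := by
    rintro ⟨hP0, hR0⟩
    have hvl : (t j).D.vl = [(t j).D.a, (t j).D.b] := by
      simp [Dsc.vl, hP0, hR0, PT.vs]
    have hnd : ((t j).real (y j)).lv.Nodup := List.Nodup.of_map _ hSj.cls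
    have hlen : 2 ≤ ((t j).real (y j)).lv.length := ((w1 N k).1 (t j) (y j) (y j)).2.2.2
    have hsub : ((t j).real (y j)).lv.toFinset ⊆ (t j).D.vl.toFinset := by
      intro v hv'
      rw [List.mem_toFinset] at hv' ⊢
      exact (hok j).lvs v hv'
    have hcard : (t j).D.vl.toFinset.card ≤ ((t j).real (y j)).lv.toFinset.card := by
      rw [List.toFinset_card_of_nodup hnd]
      refine le_trans (List.toFinset_card_le _) ?_
      rw [hvl]
      simpa using hlen
    have heq := Finset.eq_of_subset_of_card_le hsub hcard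
    apply hanl
    have : a ∈ (t j).D.vl.toFinset := by
      rw [List.mem_toFinset]
      exact haV
    rw [← heq, List.mem_toFinset] at this
    exact this
  have hdok : (t j).D.ok := (hok j).dok
  obtain ⟨b1, b2, b3, -⟩ := h4 N (t j).D hdok
  obtain ⟨f, hf, haf⟩ := b2 a haV
  have hf3 : f.card = 3 := by
    rcases b3 f hf with h | h
    · exact h
    · exact absurd ⟨h.1, h.2.1⟩ hOne
  obtain ⟨w, hwf, hwa⟩ := Finset.exists_mem_ne (by omega : 1 < f.card) a
  have hwV : w ∈ (t j).D.vl := b1 f hf w hwf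
  have hpne : (y j).1 w ≠ (y j).1 a := by
    intro he
    obtain ⟨a1, b1', w1', l, r, R', -, -, -, -, -, har, hab⟩ :=
      (g3 N (t j).D (y j).1 hdok hSj.spos hOne).1 f hf a haf w hwf (Ne.symm hwa)
    rcases hab with ⟨rfl, rfl⟩ | ⟨rfl, rfl⟩
    · rw [he, W6aux.ar_self] at har
      exact lt_irrefl _ har
    · rw [he, W6aux.ar_self] at har
      exact lt_irrefl _ har
  have hwle : dist ((y j).1 w) ((y j).1 (t j).root) ≤ dist ((y j).1 a) ((y j).1 (t j).root) := by
    have := hmax (j, w) (by simp [hV, hwV])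
    simpa only [hfd] using this
  -- the direction
  set δ : Fin m → Fin N ⊕ Fin k → E := fun i x =>
    if i = j ∧ x = Sum.inl a then (y j).1 w - (y j).1 a else 0 with hδ
  have hδ0 : ∀ i x, ¬ (i = j ∧ x = Sum.inl a) → δ i x = 0 := by
    intro i x h
    simp only [hδ]
    rw [if_neg h]
  have hδa : δ j (Sum.inl a) = (y j).1 w - (y j).1 a := by
    simp only [hδ]
    rw [if_pos ⟨trivial, trivial⟩]
  have hedge : ∀ i, ∀ e ∈ (t i).edges, δ i e.1 = 0 ∧ δ i e.2 = 0 := by
    intro i e he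
    obtain ⟨-, -, -, -, -, -, h7, -⟩ := x2 N k (t i) (y i)
    obtain ⟨e1, e2, -, -⟩ := h7 e he
    constructor
    · refine hδ0 _ _ ?_
      rintro ⟨rfl, h⟩
      exact hanl (e1 a h)
    · refine hδ0 _ _ ?_
      rintro ⟨rfl, h⟩
      exact hanl (e2 a h)
  have hv1 : ∀ i, ∀ e ∈ (t i).edges,
      inner ℝ (δ i e.1 - δ i e.2) (rot (ipos (y i) e.1 - ipos (y i) e.2)) = 0 := by
    intro i e he
    rw [(hedge i e he).1, (hedge i e he).2, sub_zero, inner_zero_left]
  have hG' : ∀ i, ∀ v ∈ ((t i).real (y i)).D.vl,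
      R < dist (((t i).real (y i)).p v) (((t i).real (y i)).p ((t i).real (y i)).root) →
      ((t i).real (y i)).lab v = c0 := by
    intro i v hv' hlt
    rw [hroot i] at hlt
    exact hlab i v hv' hlt
  have hv2 : ∀ X, Mn Cl (fun i => (t i).real (y i)) X →
      0 ≤ ∑ c ∈ X, inner ℝ (δ c.1 (Sum.inl c.2.1) - δ c.1 (Sum.inl c.2.2))
        (uni ((y c.1).1 c.2.1 - (y c.1).1 c.2.2)) := by
    intro X hX
    refine le_of_eq (Eq.symm (Finset.sum_eq_zero ?_))
    intro c hc
    have hfar := w5 N m Cl P R1 (fun i => (t i).real (y i)) R c0 hC hG hG' c ⟨X, hX, hc⟩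
    obtain ⟨hf1, hf2⟩ := hfar
    have hz1 : δ c.1 (Sum.inl c.2.1) = 0 := by
      refine hδ0 _ _ ?_
      rintro ⟨h1, h2⟩
      have h2' : c.2.1 = a := Sum.inl_injective h2
      rw [h2'] at hf1
      have h3 : dist ((y c.1).1 a) ((y c.1).1 (t c.1).root) ≤ R := by
        have := hf1
        rw [show ((fun i => (t i).real (y i)) c.1).root = (t c.1).root from hroot c.1] at this
        exact this
      rw [h1] at h3
      linarith
    have hz2 : δ c.1 (Sum.inl c.2.2) = 0 := by
      refine hδ0 _ _ ?_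
      rintro ⟨h1, h2⟩
      have h2' : c.2.2 = a := Sum.inl_injective h2
      rw [h2'] at hf2
      have h3 : dist ((y c.1).1 a) ((y c.1).1 (t c.1).root) ≤ R := by
        have := hf2
        rw [show ((fun i => (t i).real (y i)) c.1).root = (t c.1).root from hroot c.1] at this
        exact this
      rw [h1] at h3
      linarith
    rw [hz1, hz2, sub_zero, inner_zero_left]
  have hP0 : 0 ≤ P := le_trans dist_nonneg ((hok j).diam a haV a haV)
  have hI : ∀ᶠ s in 𝓝[>] (0 : ℝ), 0 < s ∧ s < 1 := by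
    have := Ioo_mem_nhdsGT (show (0 : ℝ) < 1 by norm_num)
    filter_upwards [this] with s hs'
    exact hs'
  have hv3 : ∀ i, ∀ v ∈ (t i).D.vl, ∀ w' ∈ (t i).D.vl, ∀ᶠ s in 𝓝[>] (0 : ℝ),
      dist ((y i).1 v + s • δ i (Sum.inl v)) ((y i).1 w' + s • δ i (Sum.inl w')) ≤ P := by
    intro i v hv' w' hw'
    filter_upwards [hI] with s hs'
    have hd := (hok i).diam
    by_cases c1 : i = j ∧ v = a
    · obtain ⟨rfl, rfl⟩ := c1
      by_cases c2 : w' = v
      · rw [c2, dist_self]
        exact hP0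
      · rw [hδa, hδ0 i (Sum.inl w') (fun h => c2 (Sum.inl_injective h.2)), smul_zero, add_zero]
        exact W6aux.ball_combo _ _ _ P s hs'.1.le hs'.2.le (hd v hv' w' hw') (hd w hwV w' hw')
    · have z1 : δ i (Sum.inl v) = 0 :=
        hδ0 _ _ fun h => c1 ⟨h.1, Sum.inl_injective h.2⟩
      rw [z1, smul_zero, add_zero]
      by_cases c2 : i = j ∧ w' = a
      · obtain ⟨rfl, rfl⟩ := c2
        rw [hδa, dist_comm]
        exact W6aux.ball_combo _ _ _ P s hs'.1.le hs'.2.le (hd w' hw' v hv') (hd w hwV v hv')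
      · have z2 : δ i (Sum.inl w') = 0 :=
          hδ0 _ _ fun h => c2 ⟨h.1, Sum.inl_injective h.2⟩
        rw [z2, smul_zero, add_zero]
        exact hd v hv' w' hw'
  obtain ⟨y', hy'⟩ := hv N k m Cl P R1 t y hnod hC δ hv1 hv2 hv3
  have hcont : ∀ᶠ s in 𝓝[>] (0 : ℝ),
      R1 < dist ((y j).1 a + s • ((y j).1 w - (y j).1 a)) ((y j).1 (t j).root) := by
    have hc : Continuous fun s : ℝ =>
        dist ((y j).1 a + s • ((y j).1 w - (y j).1 a)) ((y j).1 (t j).root) := by
      fun_prop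
    have h0 : R1 < (fun s : ℝ =>
        dist ((y j).1 a + s • ((y j).1 w - (y j).1 a)) ((y j).1 (t j).root)) 0 := by
      simpa using hbig
    have := (hc.tendsto 0).eventually (lt_mem_nhds h0)
    exact this.filter_mono nhdsWithin_le_nhds
  obtain ⟨s, ⟨⟨hvt, hnode, hInD, hLc⟩, ⟨hs0, hs1⟩, hsR⟩⟩ := (hy'.and (hI.and hcont)).exists
  have hLc' : Lc (mk t (y' s)) = Lc (mk t y) := by
    rw [hLc]
    have : ∑ i, ((t i).edges.map fun e =>
          inner ℝ (δ i e.1 - δ i e.2) (uni (ipos (y i) e.1 - ipos (y i) e.2))).sum = 0 := by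
      refine Finset.sum_eq_zero fun i _ => ?_
      refine List.sum_eq_zero ?_
      intro x hx
      obtain ⟨e, he, rfl⟩ := List.mem_map.1 hx
      rw [(hedge i e he).1, (hedge i e he).2, sub_zero, inner_zero_left]
    rw [this, mul_zero, add_zero]
  obtain ⟨-, w12, w13⟩ := w1 N k
  have hmu : mu (mk t (y' s)) = mu (mk t y) := (w13 m t (y' s) y R1).1
  have ho3 := hC.opt.o3 (mk t (y' s)) hInD (le_of_eq hLc') (le_of_eq hmu)
  have hroot' : ∀ i, (y' s i).1 (t i).root = (y i).1 (t i).root := by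
    intro i
    rw [hvt, hδ0 i (Sum.inl (t i).root) ?_, smul_zero, add_zero]
    rintro ⟨rfl, h⟩
    exact hrne (Sum.inl_injective h)
  have hnodes : ∀ i, ((t i).names.map fun n =>
      dist (pos (y' s i).1 ((y' s i).2 n)) ((y' s i).1 (t i).root) ^ 2) =
      ((t i).names.map fun n => dist (pos (y i).1 ((y i).2 n)) ((y i).1 (t i).root) ^ 2) := by
    intro i
    refine List.map_congr_left ?_
    intro n hn
    rw [hnode i n hn, hδ0 i (Sum.inr n) (by rintro ⟨-, h⟩; simp at h), smul_zero, add_zero,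
      hroot' i]
  have hterm : ∀ i v, ¬ (i = j ∧ v = a) →
      phi R1 (dist ((y' s i).1 v) ((y' s i).1 (t i).root)) =
      phi R1 (dist ((y i).1 v) ((y i).1 (t i).root)) := by
    intro i v h
    rw [hroot' i, hvt, hδ0 i (Sum.inl v) (fun h' => h ⟨h'.1, Sum.inl_injective h'.2⟩),
      smul_zero, add_zero]
  have hterma : phi R1 (dist ((y j).1 a) ((y j).1 (t j).root)) <
      phi R1 (dist ((y' s j).1 a) ((y' s j).1 (t j).root)) := by
    rw [hroot' j, hvt, hδa]
    exact W6aux.phi_lt R1 _ _ hsR (W6aux.dist_lt _ _ _ s hs0 hs1 hpne hwle)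
  have hlt : Phi R1 (mk t y) < Phi R1 (mk t (y' s)) := by
    rw [(w13 m t y y R1).2, (w13 m t (y' s) y R1).2]
    refine Finset.sum_lt_sum ?_ ⟨j, Finset.mem_univ _, ?_⟩
    · intro i _
      rw [w12, w12, hnodes i]
      refine add_le_add ?_ (le_refl _)
      refine List.sum_le_sum ?_
      intro v _
      by_cases h : i = j ∧ v = a
      · obtain ⟨rfl, rfl⟩ := h
        exact hterma.le
      · exact le_of_eq (hterm i v h).symm
    · rw [w12, w12, hnodes j]
      refine add_lt_add_left ?_ _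
      refine List.sum_lt_sum _ _ ?_ ⟨a, haV, hterma⟩
      intro v _
      by_cases h : v = a
      · rw [h]
        exact hterma.le
      · exact le_of_eq (hterm j v fun h' => h h'.2).symm
  linarith

/-- [W6] -/
theorem t_W6 (h4 : S_B4) (g3 : S_G3) (x1 : S_X1) (x2 : S_X2) (hs : S_surg) (hv : S_VL)
    (w1 : S_W1) (w2 : S_W2) (w5 : S_W5) : S_W6 := by
  intro N Cl P R1 S R c0 hC hR1 hR hG hlab q hq v hvq
  obtain ⟨t, y, hnod, hSe, -⟩ := x1 N (S.map fun q => q.nd.length).sum S (by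
    intro q' hq'
    exact List.single_le_sum (by simp) _ (List.mem_map.2 ⟨q', hq', rfl⟩))
  have hmem : ∀ i, (t i).real (y i) ∈ S := by
    intro i
    have h : (t i).real (y i) ∈ mk t y := by
      unfold mk
      exact (List.mem_ofFn).2 ⟨i, rfl⟩
    have e := congrArg (fun l : Cfg N => (t i).real (y i) ∈ l) hSe
    exact e.mpr h
  have hroot : ∀ i, ((t i).real (y i)).root = (t i).root := fun i => ((w1 N _).1 (t i) (y i) (y i)).1
  have hC' : Ctx Cl P R1 (mk t y) := hSe ▸ hC
  have hcore := W6_core h4 g3 x2 hs hv w1 w2 w5 N _ _ Cl P R1 R c0 t y hnod hC' hR1 hR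
    (fun i => hG _ (hmem i)) (by
      intro i v' hv' hlt
      refine hlab _ (hmem i) v' hv' ?_
      rw [hroot i]
      exact hlt)
  have hq' : q ∈ mk t y := hSe ▸ hq
  unfold mk at hq'
  obtain ⟨i, rfl⟩ := (List.mem_ofFn).1 hq'
  rw [hroot i]
  exact hcore i v hvq

end Pool.Agent.Lib.MP_9f84a9_co
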