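import Pool.Agent.Lib.MP_9f84a9_co.W.StmW

/-!
# MP_9f84a9_co, piece W7: assembly of section 6
-/

set_option autoImplicit false

namespace Pool.Agent.Lib.MP_9f84a9_co

open Finset Filter Topology

/-- [W7] -/
theorem t_W7 (h2 : S_W2) (h3 : S_W3) (h4 : S_W4) (h6 : S_W6) : S_bd := by
  intro N Cl P R1 S hC q hq v hv
  obtain ⟨R, hR1, hR, hG⟩ := h4 N Cl P R1 S hC
  obtain ⟨-, -, c0, hc0⟩ := h2 N Cl P R1 S hC
  have hC' := h3 N Cl P R1 S R c0 hC hR1 hc0 hG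
  refine h6 N Cl P R1 (S.map (relab R c0)) R c0 hC' hR1 hR ?_ ?_ (relab R c0 q)
    (List.mem_map.2 ⟨q, hq, rfl⟩) v hv
  · intro q' hq'
    obtain ⟨q₀, hq₀, rfl⟩ := List.mem_map.1 hq'
    exact hG q₀ hq₀
  · intro q' hq' w _ hw
    obtain ⟨q₀, hq₀, rfl⟩ := List.mem_map.1 hq'
    exact if_pos hw

end Pool.Agent.Lib.MP_9f84a9_co
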