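import Pool.Agent.Lib.MP_9f84a9_co.W.StmW

/-!
# MP_9f84a9_co, piece W8: linear algebra, dimension count
-/

set_option autoImplicit false

namespace Pool.Agent.Lib.MP_9f84a9_co

open Finset Filter Topology

namespace W8aux

/-- extension by zero -/
noncomputable def ext {ι : Type} [DecidableEq ι] (A : Finset ι) : (↥A → E) →ₗ[ℝ] (ι → E) where
  toFun f i := if h : i ∈ A then f ⟨i, h⟩ else 0
  map_add' f g := by
    funext i
    by_cases h : i ∈ A <;> simp [h]
  map_smul' c f := by
    funext i
    by_cases h : i ∈ A <;> simp [h]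

theorem ext_out {ι : Type} [DecidableEq ι] (A : Finset ι) (f : ↥A → E) (i : ι) (h : i ∉ A) :
    ext A f i = 0 := by
  show (if h : i ∈ A then f ⟨i, h⟩ else 0) = 0
  rw [dif_neg h]

theorem ext_in {ι : Type} [DecidableEq ι] (A : Finset ι) (f : ↥A → E) (i : ↥A) :
    ext A f i.1 = f i := by
  show (if h : i.1 ∈ A then f ⟨i.1, h⟩ else 0) = f i
  rw [dif_pos i.2]

end W8aux

/-- [W8] -/
theorem t_W8 : S_W8 := by
  intro ι _ _ A κ _ F hF
  set G : (↥A → E) →ₗ[ℝ] (κ → ℝ) := LinearMap.pi fun x => (F x).comp (W8aux.ext A) with hG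
  have hGx : ∀ f x, G f x = F x (W8aux.ext A f) := fun f x => rfl
  have hinj : Function.Injective G := by
    rw [← LinearMap.ker_eq_bot, LinearMap.ker_eq_bot']
    intro f hf
    have h0 : W8aux.ext A f = 0 := by
      refine hF _ (fun i hi => W8aux.ext_out A f i hi) ?_
      intro x
      have := congrFun hf x
      simpa [hGx] using this
    funext i
    have := congrFun h0 i.1
    rw [W8aux.ext_in] at this
    exact this
  have hfin : Module.finrank ℝ (↥A → E) = 2 * A.card := by
    rw [Module.finrank_pi_fintype]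
    simp
    ring
  have hfin' : Module.finrank ℝ (κ → ℝ) = Fintype.card κ := by
    simp
  have hle : 2 * A.card ≤ Fintype.card κ := by
    rw [← hfin, ← hfin']
    exact LinearMap.finrank_le_finrank_of_injective hinj
  refine ⟨hle, ?_⟩
  intro hge r
  have he : Module.finrank ℝ (↥A → E) = Module.finrank ℝ (κ → ℝ) := by
    rw [hfin, hfin']
    omega
  have hsur : Function.Surjective G :=
    (LinearMap.injective_iff_surjective_of_finrank_eq_finrank he).1 hinj
  obtain ⟨f, hf⟩ := hsur r
  refine ⟨W8aux.ext A f, fun i hi => W8aux.ext_out A f i hi, ?_⟩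
  intro x
  rw [← hGx, hf]

end Pool.Agent.Lib.MP_9f84a9_co
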