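import Pool.Agent.Lib.MP_9f84a9_co.W.StmW

/-!
# MP_9f84a9_co, piece W9: facts on `Z_j`
-/

set_option autoImplicit false

namespace Pool.Agent.Lib.MP_9f84a9_co

open Finset Filter Topology

namespace PW9

theorem gaSymm {N m : ℕ} {Cl : Finset ℕ} {q : Fin m → Piece N} {j : Fin m} {v w : Fin N}
    (h : GA Cl q j v w) : GA Cl q j w v := by
  rcases h with h | h
  · exact Or.inr h
  · exact Or.inl h

theorem rtgSymm {N m : ℕ} {Cl : Finset ℕ} {q : Fin m → Piece N} {j : Fin m} {v w : Fin N}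
    (h : Relation.ReflTransGen (GA Cl q j) v w) : Relation.ReflTransGen (GA Cl q j) w v := by
  induction h with
  | refl => exact Relation.ReflTransGen.refl
  | tail _ hbc ih => exact Relation.ReflTransGen.head (gaSymm hbc) ih

theorem gamVl {N m : ℕ} {Cl : Finset ℕ} {q : Fin m → Piece N} {c : Fin m × Fin N × Fin N}
    (h : Gam Cl q c) : c.2.1 ∈ (q c.1).D.vl ∧ c.2.2 ∈ (q c.1).D.vl := by
  obtain ⟨X, hX, hc⟩ := h
  have := hX.1 hc
  unfold chs at this
  rw [Finset.mem_filter] at this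
  exact ⟨this.2.2.1, this.2.2.2⟩

theorem gaVl {N m : ℕ} {Cl : Finset ℕ} {q : Fin m → Piece N} {j : Fin m} {v w : Fin N}
    (h : GA Cl q j v w) : v ∈ (q j).D.vl ∧ w ∈ (q j).D.vl := by
  rcases h with h | h
  · exact gamVl h
  · exact ⟨(gamVl h).2, (gamVl h).1⟩

/-- the graph of the chords of `Γ` in the piece `j` -/
def gr {N m : ℕ} (Cl : Finset ℕ) (q : Fin m → Piece N) (j : Fin m) : SimpleGraph (Fin N) where
  Adj v w := v ≠ w ∧ GA Cl q j v w
  symm := ⟨fun _ _ h => ⟨h.1.symm, gaSymm h.2⟩⟩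
  loopless := ⟨fun _ h => h.1 rfl⟩

theorem reach {N m : ℕ} {Cl : Finset ℕ} {q : Fin m → Piece N} {j : Fin m} {v w : Fin N}
    (h : Relation.ReflTransGen (GA Cl q j) v w) : (gr Cl q j).Reachable v w := by
  induction h with
  | refl => exact SimpleGraph.Reachable.refl _
  | @tail b c _ hbc ih =>
    by_cases hne : b = c
    · subst hne; exact ih
    · exact ih.trans (SimpleGraph.Adj.reachable ⟨hne, hbc⟩)

theorem walkDist {N m : ℕ} {Cl : Finset ℕ} {q : Fin m → Piece N} {j : Fin m}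
    (hd : ∀ v w, GA Cl q j v w → dist ((q j).p v) ((q j).p w) ≤ 1) {v w : Fin N}
    (p : (gr Cl q j).Walk v w) : dist ((q j).p v) ((q j).p w) ≤ (p.length : ℝ) := by
  induction p with
  | nil => simp
  | @cons a b c h p ih =>
    rw [SimpleGraph.Walk.length_cons]
    push_cast
    have h1 := hd a b h.2
    have h2 := dist_triangle ((q j).p a) ((q j).p b) ((q j).p c)
    linarith

end PW9

open PW9 in
theorem t_W9 (hs : S_surg) (he : S_EX) (w2 : S_W2) : S_W9 := by
  classical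
  intro N m Cl P R1 q hC j
  have hq : q j ∈ List.ofFn q := (List.mem_ofFn' q (q j)).2 ⟨j, rfl⟩
  obtain ⟨hw, -, hne⟩ := w2 N Cl P R1 (List.ofFn q) hC
  obtain ⟨hroot, hlen, hd1⟩ := hw (q j) hq
  have hok := hC.opt.mem.ok (q j) hq
  have hsurg := (hs N Cl P R1 (List.ofFn q) hC).1 (q j) hq
  obtain ⟨-, hG⟩ := he N m Cl P R1 q hC
  have mem_Zs : ∀ v, v ∈ Zs Cl q j ↔ ∃ u ∈ (q j).lv, Relation.ReflTransGen (GA Cl q j) u v := by
    intro v
    unfold Zs
    rw [Finset.mem_filter]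
    exact ⟨fun h => h.2, fun h => ⟨Finset.mem_univ _, h⟩⟩
  have h1 : ∀ v ∈ (q j).lv, v ∈ Zs Cl q j := fun v hv =>
    (mem_Zs v).2 ⟨v, hv, Relation.ReflTransGen.refl⟩
  have h2 : ∀ v ∈ Zs Cl q j, v ∈ (q j).D.vl := by
    intro v hv
    obtain ⟨u, hu, huv⟩ := (mem_Zs v).1 hv
    rcases Relation.ReflTransGen.cases_tail huv with h | ⟨b, _, hb⟩
    · rw [h]; exact hok.lvs u hu
    · exact (gaVl hb).2
  have h3 : 2 ≤ (Zs Cl q j).card := by
    have hnd : (q j).lv.Nodup := List.Nodup.of_map _ hsurg.cls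
    have hsub : (q j).lv.toFinset ⊆ Zs Cl q j := by
      intro v hv
      exact h1 v (List.mem_toFinset.1 hv)
    have := Finset.card_le_card hsub
    rw [List.toFinset_card_of_nodup hnd] at this
    omega
  have hdist : ∀ v w, GA Cl q j v w → dist ((q j).p v) ((q j).p w) ≤ 1 := by
    intro v w h
    rcases h with h | h
    · obtain ⟨-, ha, -, -, -, hb⟩ := hG _ h
      simp only at ha hb
      linarith
    · obtain ⟨-, ha, -, -, -, hb⟩ := hG _ h
      simp only at ha hb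
      rw [dist_comm]
      linarith
  have h4 : ∀ v ∈ Zs Cl q j, dist ((q j).p v) ((q j).p (q j).root) < R1 := by
    intro v hv
    obtain ⟨u, hu, huv⟩ := (mem_Zs v).1 hv
    obtain ⟨p, hp⟩ := (reach (rtgSymm huv)).exists_isPath
    have hpl : p.length < N := by
      have := hp.length_lt
      rwa [Fintype.card_fin] at this
    have hpl' : (p.length : ℝ) ≤ N := by exact_mod_cast hpl.le
    have ha := walkDist hdist p
    have hb := hd1 u hu
    have hc := dist_triangle ((q j).p v) ((q j).p u) ((q j).p (q j).root)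
    have hcard : (1 : ℝ) ≤ (Cl.card : ℝ) := by
      have := Finset.card_pos.2 hne
      exact_mod_cast this
    have hN : (0 : ℝ) ≤ (N : ℝ) := Nat.cast_nonneg _
    rw [hC.hR1]
    nlinarith
  have h5 : ∀ v w, GA Cl q j v w → (v ∈ Zs Cl q j ↔ w ∈ Zs Cl q j) := by
    have key : ∀ v w, GA Cl q j v w → v ∈ Zs Cl q j → w ∈ Zs Cl q j := by
      intro v w h hv
      obtain ⟨u, hu, huv⟩ := (mem_Zs v).1 hv
      exact (mem_Zs w).2 ⟨u, hu, huv.tail h⟩
    exact fun v w h => ⟨key v w h, key w v (gaSymm h)⟩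
  exact ⟨h1, h2, h3, h4, h5, h1 _ hroot⟩

end Pool.Agent.Lib.MP_9f84a9_co
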