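import Pool.Agent.Lib.MP_9f84a9_co.W.W1
import Pool.Agent.Lib.MP_9f84a9_co.W.W2
import Pool.Agent.Lib.MP_9f84a9_co.W.W3
import Pool.Agent.Lib.MP_9f84a9_co.W.W4
import Pool.Agent.Lib.MP_9f84a9_co.W.W5
import Pool.Agent.Lib.MP_9f84a9_co.W.W6
import Pool.Agent.Lib.MP_9f84a9_co.W.W7
import Pool.Agent.Lib.MP_9f84a9_co.W.W8
import Pool.Agent.Lib.MP_9f84a9_co.W.W9
import Pool.Agent.Lib.MP_9f84a9_co.W.W10
import Pool.Agent.Lib.MP_9f84a9_co.W.W11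
import Pool.Agent.Lib.MP_9f84a9_co.W.W12
import Pool.Agent.Lib.MP_9f84a9_co.W.W13
import Pool.Agent.Lib.MP_9f84a9_co.W.W14
import Pool.Agent.Lib.MP_9f84a9_co.W.W15
import Pool.Agent.Lib.MP_9f84a9_co.W.W16
import Pool.Agent.Lib.MP_9f84a9_co.W.W17
import Pool.Agent.Lib.MP_9f84a9_co.W.W18
import Pool.Agent.Lib.MP_9f84a9_co.W.W19
import Pool.Agent.Lib.MP_9f84a9_co.W.W20
import Pool.Agent.Lib.MP_9f84a9_co.W.W21
import Pool.Agent.Lib.MP_9f84a9_co.W.W22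

/-!
# MP_9f84a9_co, module W: the outputs `S_bd` and `S_count`
-/

set_option autoImplicit false

namespace Pool.Agent.Lib.MP_9f84a9_co

/-- section 6 -/
theorem o_bd (a1 : S_A1) (a2 : S_A2) (a3 : S_A3) (b4 : S_B4) (b5 : S_B5) (g3 : S_G3) (x1 : S_X1)
    (x2 : S_X2) (hs : S_surg) (he : S_EX) (hv : S_VL) : S_bd :=
  t_W7 (t_W2 a1 a2 a3 b4 b5) (t_W3 a1 a2 a3 b4 b5 (t_W2 a1 a2 a3 b4 b5))
    (t_W4 (t_W2 a1 a2 a3 b4 b5))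
    (t_W6 b4 g3 x1 x2 hs hv t_W1 (t_W2 a1 a2 a3 b4 b5) (t_W5 he))

/-- section 7.2: chords of `Γ` are edges -/
theorem o_W19 (a1 : S_A1) (a2 : S_A2) (a3 : S_A3) (a6 : S_A6) (b4 : S_B4) (b5 : S_B5) (g1 : S_G1)
    (g2 : S_G2) (g3 : S_G3) (sl : S_SL) (s0 : S_sep0) (hs : S_surg) (he : S_EX) : S_W19 := by
  have w12 := t_W12
  have w13 := t_W13 b4 g1 g3 w12
  have w14 := t_W14 g1 g3 w12 w13
  have w15 := t_W15 a1 a2 a3 b4 b5 g2 w13 w14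
  have w17 := t_W17 a1 a3 b5 g2 w13
  exact t_W19 a1 a2 b5 hs he
    (t_W18 a1 a2 a3 a6 b4 b5 sl s0 g2 w12 w13 w15 (t_W16 a1) w17)

/-- section 7 -/
theorem o_count (a1 : S_A1) (a2 : S_A2) (a3 : S_A3) (a6 : S_A6) (b1 : S_B1) (b4 : S_B4) (b5 : S_B5)
    (b6 : S_B6) (b7 : S_B7) (g1 : S_G1) (g2 : S_G2) (g3 : S_G3) (x1 : S_X1) (x2 : S_X2)
    (sl : S_SL) (s0 : S_sep0) (hs : S_surg) (he : S_EX) (hm : S_ml) (hv : S_VL) : S_count := by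
  have hb := o_bd a1 a2 a3 b4 b5 g3 x1 x2 hs he hv
  have w2 := t_W2 a1 a2 a3 b4 b5
  have w9 := t_W9 hs he w2
  have w10 := t_W10 hv hb t_W1 w9
  have w11 := t_W11 x2 t_W1 t_W8 w9 w10
  have w19 := o_W19 a1 a2 a3 a6 b4 b5 g1 g2 g3 sl s0 hs he
  have w20 := t_W20 b1 b4 b6 b7 hs w9 w11 w19
  exact t_W22 x1 he hm w20 (t_W21 he hm w10 w11 w20)

end Pool.Agent.Lib.MP_9f84a9_co
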