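import Pool.Agent.Lib.MP_9f84a9_co.Out
import Pool.Agent.Lib.MP_9f84a9_co.StmA
import Pool.Agent.Lib.MP_9f84a9_co.StmB
import Pool.Agent.Lib.MP_9f84a9_co.StmX
import Pool.Agent.Lib.MP_9f84a9_co.G.StmG

/-!
# MP_9f84a9_co, module W (sections 6 and 7): bounded positions, counting, Delaunay argument, equal lengths.
Statements with complete proofs in the docstrings.  Every `S_A*`, `S_B*`, `S_X*`, `S_G*`, `S_W*` and every output of
sections 3, 4, 5 (`S_surg`, `S_geo`, `S_SL`, `S_sep0`, `S_EX`, `S_ml`, `S_VL`) may be used as a hypothesis of a piece.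
-/

set_option autoImplicit false

namespace Pool.Agent.Lib.MP_9f84a9_co

open Finset Filter Topology

/-- first leaf of a symbolic net -/
def SNet.fl {N k : ℕ} : SNet N k → Fin N
  | SNet.leaf v => v
  | SNet.node _ l _ => l.fl

/-- root leaf of a symbolic piece -/
def SP.root {N k : ℕ} (t : SP N k) : Fin N := t.T.1.fl

open Classical in
/-- relabelling of the vertices farther than `R` from the root -/
noncomputable def relab {N : ℕ} (R : ℝ) (c0 : ℕ) (q : Piece N) : Piece N :=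
  ⟨q.D, q.p, fun v => if R < dist (q.p v) (q.p q.root) then c0 else q.lab v, q.T⟩

/-- the pieces of the configuration `mk t y` -/
noncomputable def mq {N k m : ℕ} (t : Fin m → SP N k) (y : Fin m → Dat N k) : Fin m → Piece N :=
  fun j => (t j).real (y j)

/-- `v` and `w` are the ends of a chord of `Γ` in the piece `j` -/
def GA {N m : ℕ} (Cl : Finset ℕ) (q : Fin m → Piece N) (j : Fin m) (v w : Fin N) : Prop :=
  Gam Cl q (j, v, w) ∨ Gam Cl q (j, w, v)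

open Classical in
/-- `Z_j`: the vertices of the piece `j` joined to a leaf by chords of `Γ` in the piece `j` -/
noncomputable def Zs {N m : ℕ} (Cl : Finset ℕ) (q : Fin m → Piece N) (j : Fin m) : Finset (Fin N) :=
  univ.filter fun v => ∃ u ∈ (q j).lv, Relation.ReflTransGen (GA Cl q j) u v

open Classical in
/-- `Γ_j[Z_j]` -/
noncomputable def Gs {N m : ℕ} (Cl : Finset ℕ) (q : Fin m → Piece N) (j : Fin m) :
    Finset (Fin N × Fin N) :=
  univ.filter fun e => Gam Cl q (j, e.1, e.2) ∧ e.1 ∈ Zs Cl q j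

/-- local Delaunay property (the field `Surg.del`) -/
def Del {N : ℕ} (D : Dsc N) (p : Fin N → E) : Prop :=
  ∀ (a b w x : Fin N) (l r l' r' : PT N),
    Dsc.Eqv D ⟨a, b, PT.node w l r, PT.node x l' r'⟩ → ∀ s t : ℝ, 0 ≤ s → s ≤ 1 → 0 ≤ t → t ≤ 1 →
    (1 - s) • p a + s • p b = (1 - t) • p x + t • p w →
    s * (1 - s) * dist (p a) (p b) ^ 2 ≤ t * (1 - t) * dist (p x) (p w) ^ 2

/-- no vertex of a piece has a distance in `(R, R+1]` from the root -/
def Gap {N : ℕ} (R : ℝ) (q : Piece N) : Prop :=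
  ∀ v ∈ q.D.vl, ¬ (R < dist (q.p v) (q.p q.root) ∧ dist (q.p v) (q.p q.root) ≤ R + 1)

/-! ## Section 6 -/

/-- [W1] Roots, leaves, `mu` and `Phi` of realised symbolic pieces.  Piece: `theorem t_W1 : S_W1`.
PROOF. (1),(2): `Net.fl (A.real z) = A.fl`, `A.fl ∈ (A.real z).leaves` and `(A.real z).leaves` does not depend on `z`: induction on the symbolic net `A`; every net has at least
one leaf. `(A.real z).nodes = A.names.map z`: induction. `Phi`: unfold, `List.map_map`, `List.map_append`. (3): `List.ofFn` and `List.sum_ofFn`; `mu` depends only on `D` and the leaves; `Phi R1 (List.ofFn f) = ∑ j`. -/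
def S_W1 : Prop :=
  ∀ (N k : ℕ),
    (∀ (t : SP N k) (y y' : Dat N k), (t.real y).root = t.root ∧ t.root ∈ (t.real y).lv ∧
      (t.real y).lv = (t.real y').lv ∧ 2 ≤ (t.real y).lv.length) ∧
    (∀ (t : SP N k) (y : Dat N k) (R1 : ℝ), (t.real y).Phi R1 =
      (t.D.vl.map fun v => phi R1 (dist (y.1 v) (y.1 t.root))).sum +
        (t.names.map fun i => dist (pos y.1 (y.2 i)) (y.1 t.root) ^ 2).sum) ∧
    (∀ (m : ℕ) (t : Fin m → SP N k) (y y' : Fin m → Dat N k) (R1 : ℝ),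
      mu (mk t y) = mu (mk t y') ∧ Phi R1 (mk t y) = ∑ j, ((t j).real (y j)).Phi R1)

/-- [W2] Leaves are at distance less than 1 from the root, and small counts.  Piece: `S_A1 → S_A2 → S_A3 → S_B4 → S_B5 → S_W2`.
PROOF. Let `q ∈ S`; `K = q.D.K` is connected (B5), `d = q.d = dK K (ce q.p)` is a pseudometric on `K` (A2) and `dist (pos x) (pos y) ≤ d x y` on `K` (A3 with `ρ = ce q.p`).
For a net `A` whose leaves are in `vl` and whose nodes are in `K` (`vx v` is in `K` for `v ∈ vl`: B4, A1 (5)) show by induction: `0 ≤ A.len d`, `d A.top (vx v) ≤ A.len d` for `v ∈ A.leaves`,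
`d (vx u) (vx v) ≤ A.len d` for `u, v ∈ A.leaves` (for `node z l r`: both in `l`: induction; `u` in `l`, `v` in `r`: `d u v ≤ d u l.top + d l.top z + d z r.top + d r.top v`). Same for `(T.1, T.2)`: `d (vx u) (vx v) ≤ q.L` for
leaves `u, v`. `q.root = T.1.fl` is a leaf. All `L ≥ 0`, so `q.L ≤ Lc S < √3/2 < 1` (`List.single_le_sum`). `2 ≤ lv.length` since every net has a leaf. `S.length ≤ ∑ (lv.length - 1) < Cl.card` (`InD.cnt`). -/
def S_W2 : Prop :=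
  ∀ (N : ℕ) (Cl : Finset ℕ) (P R1 : ℝ) (S : Cfg N), Ctx Cl P R1 S →
    (∀ q ∈ S, q.root ∈ q.lv ∧ 2 ≤ q.lv.length ∧ ∀ v ∈ q.lv, dist (q.p v) (q.p q.root) < 1) ∧
    S.length < Cl.card ∧ Cl.Nonempty

/-- [W3] Relabelling the far vertices.  Piece: `S_A1 → S_A2 → S_A3 → S_B4 → S_B5 → S_W2 → S_W3`.
PROOF. `relab R c0 q` has the same `D`, `p`, `T`, so the same `root`, `lv`, `nd`, `d`, `L`, `Phi`, `D.I`, `D.Q` (by `rfl`): so `Lc`, `mu`, `Phi`, `Ic`, `Qc` of `S' = S.map (relab R c0)` and `S` agree (`List.map_map`) and all fields of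
`Opt`, `Ctx` carry over once `InD Cl P S'` is known. `ok`: labels in `Cl` since `c0 ∈ Cl`. `conn`: leaves have distance `< 1 ≤ R` (W2), so their labels are unchanged and `Hst S a b → Hst S' a b`. `cnt`: same. `mst`: let `l` be a list with
`Ch S'` for all `t ∈ l`, `Joins Cl l`, and suppose its sum is `< 1`. Every `r` in `l` is `≥ 0` (a `dK` is `≥ 0`), so `≤` the sum `< 1`. Let `l' = l.filter (t.1 ≠ t.2.1)`; `Joins Cl l'` (a step along a loop can be omitted). For `t ∈ l'`: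
`Ch S t.1 t.2.1 t.2.2`: the chord `v, w` of `relab q` has length `≤ r < 1`, so `|dist (p v) (p root) - dist (p w) (p root)| ≤ dist (p v) (p w) ≤ q.d (vx v) (vx w) < 1`; by `Gap` either both or none are `> R`; both: both labels are `c0`,
excluded; none: the labels are the old ones. `MSTge Cl S 1` gives `1 ≤ sum l' ≤ sum l < 1`. -/
def S_W3 : Prop :=
  ∀ (N : ℕ) (Cl : Finset ℕ) (P R1 : ℝ) (S : Cfg N) (R : ℝ) (c0 : ℕ), Ctx Cl P R1 S → 1 ≤ R →
    c0 ∈ Cl → (∀ q ∈ S, Gap R q) → Ctx Cl P R1 (S.map (relab R c0))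

/-- [W4] A gap in the distances.  Piece: `S_W2 → S_W4`.
PROOF. Let `V` be the finite set of all values `dist (q.p v) (q.p q.root)`, `q ∈ S`, `v : Fin N`: at most `S.length * N ≤ Cl.card * N` values (W2). If for every `i ∈ {1, ..., Cl.card * N + 1}` there were a value `x_i ∈ V` in `(i, i+1]`, these
would be different for different `i`: too many. So some `R = i` works; `R + 1 ≤ Cl.card * N + 2 ≤ 2 * (Cl.card * N + 5) = R1`. -/
def S_W4 : Prop :=
  ∀ (N : ℕ) (Cl : Finset ℕ) (P R1 : ℝ) (S : Cfg N), Ctx Cl P R1 S →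
    ∃ R : ℝ, 1 ≤ R ∧ R + 1 ≤ R1 ∧ ∀ q ∈ S, Gap R q

/-- [W5] Chords of `Γ` have both ends near, if all far vertices have one label.  Piece: `S_EX → S_W5`.
PROOF. `S_EX`: `cl q c ≤ 1`, `cl q c = dist (p v) (p w)` (`v = c.2.1`, `w = c.2.2`, both in `vl`: `Gam` gives `c ∈ X ⊆ chs q`), different labels. So `|dist (p v) (p root) - dist (p w) (p root)| ≤ 1`. If one of them is `> R`, it is `> R + 1` by `Gap`, so the other
is `> R` too; then both labels are `c0`: contradiction. -/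
def S_W5 : Prop :=
  ∀ (N m : ℕ) (Cl : Finset ℕ) (P R1 : ℝ) (q : Fin m → Piece N) (R : ℝ) (c0 : ℕ),
    Ctx Cl P R1 (List.ofFn q) → (∀ j, Gap R (q j)) →
    (∀ j, ∀ v ∈ (q j).D.vl, R < dist ((q j).p v) ((q j).p (q j).root) → (q j).lab v = c0) →
    ∀ c, Gam Cl q c → dist ((q c.1).p c.2.1) ((q c.1).p (q c.1).root) ≤ R ∧
      dist ((q c.1).p c.2.2) ((q c.1).p (q c.1).root) ≤ R

/-- [W6] A farthest vertex can be moved.  Piece: `S_B4 → S_G3 → S_X1 → S_X2 → S_surg → S_VL → S_W1 → S_W2 → S_W5 → S_W6`.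
PROOF. X1 with `k` large: `S = mk t y`, pieces `q j = (t j).real (y j)`. Write `|c_v|` for `dist (p v) (p root)`. Suppose some `|c_v| > R1`, `v ∈ vl_j`; take `(j,a)`, `a ∈ vl_j`, with `|c_a|` maximal (`Finset.exists_max_image`), so `|c_a| > R1 ≥ R + 1`. `a` is no
leaf (W2). `D_j` is not `One`: otherwise `vl = [a',b']`, and the at least two leaves, which are distinct (`Surg.cls`, `List.Nodup.of_map`) and in `vl`, are `a'` and `b'`. B4: `f ∈ K`, `a ∈ f`, `f.card = 3`; choose `w ∈ f`, `w ≠ a`; G3 (1) for `a, w`: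
`ar ≠ 0` for a triangle with base `{a,w}`, so `p w ≠ p a`. `|c_w| ≤ |c_a|`. `δ` = `p w - p a` at `(j, inl a)`, 0 elsewhere. VL: the first condition: ends of edges of `T_j` are nodes or leaves (X2 (7)), so all `δ e.1 = δ e.2 = 0`. Second: by W5 no chord of a minimum
spanning set has the end `a` in the piece `j` (`|c_a| > R`), so all terms are 0. Third: for `v = a`, `w' ≠ a`: `dist ((1-s) p a + s p w) (p w') ≤ (1-s) P + s P = P` for `0 ≤ s ≤ 1` (`ok.diam`); `v = w' = a`: `0 ≤ P`; otherwise constant. So for all small `s > 0`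
`S' = mk t (y' s)` is in `InD`, `Lc S' = Lc S + s * 0`, `mu S' = mu S` (W1), so `Phi R1 S' ≤ Phi R1 S` (`Opt.o3`). But (W1) the positions of all nodes, of the root (a leaf) and of all vertices except `(j,a)` are unchanged, and
`|c_a'| = |(1-s) c_a + s c_w| < |c_a|` for `0 < s < 1` (`|(1-s) u + s v|² = (1-s)|u|² + s|v|² - s(1-s)|u-v|²`, `u ≠ v`, `|v| ≤ |u|`), and `|c_a'| > R1` for small `s` (continuity), so
`phi R1 |c_a'| = R1² - (|c_a'| - R1) > phi R1 |c_a|`; `a ∈ vl_j`, so `Phi` increases strictly. Contradiction. -/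
def S_W6 : Prop :=
  ∀ (N : ℕ) (Cl : Finset ℕ) (P R1 : ℝ) (S : Cfg N) (R : ℝ) (c0 : ℕ), Ctx Cl P R1 S → 1 ≤ R →
    R + 1 ≤ R1 → (∀ q ∈ S, Gap R q) →
    (∀ q ∈ S, ∀ v ∈ q.D.vl, R < dist (q.p v) (q.p q.root) → q.lab v = c0) →
    ∀ q ∈ S, ∀ v ∈ q.D.vl, dist (q.p v) (q.p q.root) ≤ R1

/-- [W7] Assembly of section 6.  Piece: `theorem t_W7 (h2 : S_W2) (h3 : S_W3) (h4 : S_W4) (h6 : S_W6) : S_bd`.
PROOF. W4: `R`; W2: `c0 ∈ Cl`. `S' = S.map (relab R c0)` is a `Ctx` (W3). Apply W6 to `S'`: elements are `relab R c0 q`, with the same `D`, `p`, `root`, so `Gap` and the conclusion are those of `q` (`rfl`), and far vertices have the label `c0` (`if_pos`). -/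
def S_W7 : Prop := S_bd

/-! ## Section 7.1 -/

/-- [W8] Linear algebra.  Piece: `S_X4 → S_W8` (or directly).
PROOF. `V` = functions `↥A → E` (`finrank = 2 * A.card`: `Module.finrank_fintype_fun_eq_card`/`Module.finrank_pi_fintype`, `finrank_euclideanSpace`), `ext : V →ₗ (ι → E)` extension by 0. The map `V → (κ → ℝ)`, `v ↦ (F x (ext v))_x`
is injective, so `2 * A.card ≤ Fintype.card κ`; if also `≥` it is bijective, so surjective. -/
def S_W8 : Prop :=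
  ∀ (ι : Type) [Fintype ι] [DecidableEq ι] (A : Finset ι) (κ : Type) [Fintype κ]
    (F : κ → (ι → E) →ₗ[ℝ] ℝ),
    (∀ δ : ι → E, (∀ i, i ∉ A → δ i = 0) → (∀ x, F x δ = 0) → δ = 0) →
    2 * A.card ≤ Fintype.card κ ∧
    (Fintype.card κ ≤ 2 * A.card → ∀ r : κ → ℝ,
      ∃ δ : ι → E, (∀ i, i ∉ A → δ i = 0) ∧ ∀ x, F x δ = r x)

/-- [W9] Facts on `Z_j`.  Piece: `S_surg → S_EX → S_W2 → S_W9`.
PROOF. (1) `ReflTransGen.refl`. (2) leaves are in `vl` (`ok.lvs`), both ends of a chord of `Γ` are in `vl` (`chs`); induction on the chain. (3) at least 2 leaves (W2), distinct (`Surg.cls`, `Nodup.of_map`): `lv.toFinset ⊆ Z_j`, `List.toFinset_card_of_nodup`.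
(4) a chord of `Γ` has length `dist (p v) (p w) ≤ 1` (`S_EX`); `v ∈ Z_j` is joined to a leaf `u` by a chain of at most `N` such chords: consider the `SimpleGraph` on `Fin N` with `Adj v w := v ≠ w ∧ GA v w` (`GA` is symmetric); `u`, `v` are `Reachable` (`Relation.ReflTransGen` induction), a
path has length `< Fintype.card (Fin N) = N` (`SimpleGraph.Walk.IsPath.length_lt`), and `dist (p u) (p v) ≤ length` by induction on walks. So `dist (p v) (p root) < 1 + N ≤ R1` (W2; `R1 = 2 * (Cl.card * N + 5)`, `Cl.card ≥ 1`).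
(5) append the chord to the chain; `GA` symmetric. (6) `root ∈ lv` (W2). -/
def S_W9 : Prop :=
  ∀ (N m : ℕ) (Cl : Finset ℕ) (P R1 : ℝ) (q : Fin m → Piece N), Ctx Cl P R1 (List.ofFn q) → ∀ j,
    (∀ v ∈ (q j).lv, v ∈ Zs Cl q j) ∧ (∀ v ∈ Zs Cl q j, v ∈ (q j).D.vl) ∧
    2 ≤ (Zs Cl q j).card ∧
    (∀ v ∈ Zs Cl q j, dist ((q j).p v) ((q j).p (q j).root) < R1) ∧
    (∀ v w, GA Cl q j v w → (v ∈ Zs Cl q j ↔ w ∈ Zs Cl q j)) ∧
    (q j).root ∈ Zs Cl q j

/-- [W10] The kernel is trivial.  Piece: `S_VL → S_bd → S_W1 → S_W9 → S_W10`.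
PROOF. `q = mq t y`, `List.ofFn q = mk t y` by `rfl`. Apply `S_VL` to `δ` and to `-δ`. Third condition: for `v, w ∈ vl_j`: `dist (p v) (p w) ≤ 2 R1 < P` (`S_bd` twice, `Ctx.hP`), and `s ↦ dist (p v + s δ_v) (p w + s δ_w)` is continuous: eventually `≤ P`.
We get `y⁺`, `y⁻`. Choose `s > 0` at which both conclusions hold and `dist (p v ± s δ_v) (p root) ≤ R1` for all `j`, `v ∈ Z_j` (finitely many; by W9 (4) and continuity; `Eventually.and`, `eventually_all`, `.exists`). With `C` the sum for `δ`, the sum for `-δ` is `-C`: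
`Lc S⁺ = Lc S + s C`, `Lc S⁻ = Lc S - s C`, both `≥ Lc S` (`Opt.o1`), so `s C = 0`; `mu` is unchanged (W1); `Opt.o3`: `Phi S⁺ ≤ Phi S`, `Phi S⁻ ≤ Phi S`. By W1 `Phi` is a sum over `j` of sums over `vl_j` and `names_j`; the root does not move (`δ j (inl root) = 0`).
For `v ∈ Z_j`, with `c = p v - p root`: `phi` is the square at the three values, `|c + s δ|² + |c - s δ|² = 2|c|² + 2 s²|δ|²`; for `v ∉ Z_j`: `δ = 0`, same formula; for nodes the same. So `Phi S⁺ + Phi S⁻ = 2 Phi S + 2 s² ∑_j (∑_(v ∈ vl_j) |δ_v|² + ∑_(i ∈ names_j) |δ_i|²)`,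
hence all these `δ` vanish. If `v ∉ vl_j` then `v ∉ Z_j` (W9 (2)) and `δ = 0` by assumption. -/
def S_W10 : Prop :=
  ∀ (N k m : ℕ) (Cl : Finset ℕ) (P R1 : ℝ) (t : Fin m → SP N k) (y : Fin m → Dat N k),
    (∀ j, (t j).names.Nodup) → Ctx Cl P R1 (mk t y) →
    ∀ δ : Fin m → Fin N ⊕ Fin k → E,
      (∀ j v, v ∉ Zs Cl (mq t y) j → δ j (Sum.inl v) = 0) →
      (∀ j, δ j (Sum.inl (t j).root) = 0) →
      (∀ j, ∀ e ∈ (t j).edges,
        inner ℝ (δ j e.1 - δ j e.2) (rot (ipos (y j) e.1 - ipos (y j) e.2)) = 0) →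
      (∀ X, Mn Cl (mq t y) X →
        ∑ c ∈ X, inner ℝ (δ c.1 (Sum.inl c.2.1) - δ c.1 (Sum.inl c.2.2))
          (uni ((y c.1).1 c.2.1 - (y c.1).1 c.2.2)) = 0) →
      (∀ j v, δ j (Sum.inl v) = 0) ∧ (∀ j, ∀ i ∈ (t j).names, δ j (Sum.inr i) = 0)

/-- [W11] The dimension count in one piece.  Piece: `S_X2 → S_W1 → S_W8 → S_W9 → S_W10 → S_W11`.
PROOF. W8 with `ι = Fin N ⊕ Fin k`, `A = (Zs j).map inl ∪ names.toFinset.map inr` (`A.card = |Z_j| + names.length`, `names` is `Nodup`), `κ = Fin 2 ⊕ Fin edges.length ⊕ ↥(Gs j)`, functionals: the two coordinates of `δ (inl root)`; for each edge `e` of `T_j` (index) `<δ e.1 - δ e.2, rot ..>`;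
for each `e ∈ Gs j` `<δ (inl e.1) - δ (inl e.2), uni ..>`. `Fintype.card κ = 2 + edges.length + |Gs j| = 2 + (2n-3) + |Gs j|` and `A.card = |Z_j| + (n-2)`, `n = lv.length` (X2 (4),(5)), so the two conclusions of W8 are the two claims. Trivial kernel: let `δ` be supported in `A` with all functionals 0;
put `δ' j = δ`, `δ' j' = 0` for `j' ≠ j`. Conditions of W10: the first three are clear (`root ∈ lv`). For `X` with `Mn` and `c ∈ X`: `c.1 ≠ j`: term 0. `c.1 = j`: `c = (j,v,w)` is in `Γ`; if `v ∈ Z_j` then `(v,w) ∈ Gs j`, the term is a functional; if `v ∉ Z_j` then `w ∉ Z_j` (W9 (5)), term 0.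
W10: `δ` vanishes at all vertices and at the names of `t j`; elsewhere by the support. -/
def S_W11 : Prop :=
  ∀ (N k m : ℕ) (Cl : Finset ℕ) (P R1 : ℝ) (t : Fin m → SP N k) (y : Fin m → Dat N k),
    (∀ j, (t j).names.Nodup) → Ctx Cl P R1 (mk t y) → ∀ j,
      2 * (Zs Cl (mq t y) j).card ≤ (Gs Cl (mq t y) j).card + 3 ∧
      ((Gs Cl (mq t y) j).card + 3 ≤ 2 * (Zs Cl (mq t y) j).card →
        ∀ r : Fin N × Fin N → ℝ, ∃ δ : Fin N ⊕ Fin k → E,
          (∀ v, v ∉ Zs Cl (mq t y) j → δ (Sum.inl v) = 0) ∧ δ (Sum.inl (t j).root) = 0 ∧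
          (∀ e ∈ (t j).edges,
            inner ℝ (δ e.1 - δ e.2) (rot (ipos (y j) e.1 - ipos (y j) e.2)) = 0) ∧
          ∀ e ∈ Gs Cl (mq t y) j, inner ℝ (δ (Sum.inl e.1) - δ (Sum.inl e.2))
            (uni ((y j).1 e.1 - (y j).1 e.2)) = r e)

/-! ## Section 7.2: the Delaunay argument -/

/-- [W12] Affine functions `z ↦ inner g z + γ` in the plane.  Piece: `theorem t_W12 : S_W12`.
PROOF. Coordinates: `inner ℝ g z = g 0 * z 0 + g 1 * z 1` (`EuclideanSpace.inner_eq_star_dotProduct`/`PiLp.inner_apply`, `Fin.sum_univ_two`), `‖z‖² = z 0 ^ 2 + z 1 ^ 2`. (1) solve the 2x2 system `<g, v - u> = |v|² - |u|²`, `<g, w - u> = |w|² - |u|²` with determinant `ar u v w`,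
`γ = |u|² - <g,u>`. (2) the affine dependence `ar a x z • b - ar b x z • a + ar b a z • x - ar b a x • z = 0` (coefficients with sum 0) gives
`ar b a x * L z - ar b a z * L x = ar a x z * L b - ar b x z * L a = 0` for `L z = <g,z> + γ` (`ring` in coordinates). (3) `t = ar b a x / (ar a b w + ar b a x) ∈ (0,1)`; `o = (1-t) x + t w` has `ar a b o = 0`, so `o = (1-s) a + s b` for a real `s`
(`s = <o - a, b - a>/|b - a|²`, or take the coordinate in which `a`, `b` differ). With `L` affine, `L = |.|²` at `a, b, w`: `(1-t) L x + t |w|² = L o = (1-s)|a|² + s|b|² = |o|² + s(1-s)|a-b|²` and `(1-t)|x|² + t|w|² = |o|² + t(1-t)|x-w|²`, so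
`(1-t)(|x|² - L x) = t(1-t)|x-w|² - s(1-s)|a-b|² ≥ 0`: for `s ∈ [0,1]` by the hypothesis, otherwise `s(1-s) < 0`. (4) linearity of `inner`, `∑ x = 1`. (5) `∑ x v |p v|² = ∑ x v (<g,p v> + γ) = <g,M> + γ = ½ (L A + L C) ≤ ½ (|A|² + |C|²)` (terms with `x v = 0` do not matter), and
`∑ x v |p v - M|² = ∑ x v |p v|² - |M|² ≤ ½(|A|²+|C|²) - |M|² = |A-C|²/4`. -/
def S_W12 : Prop :=
  (∀ u v w : E, ar u v w ≠ 0 → ∃ (g : E) (γ : ℝ), inner ℝ g u + γ = ‖u‖ ^ 2 ∧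
    inner ℝ g v + γ = ‖v‖ ^ 2 ∧ inner ℝ g w + γ = ‖w‖ ^ 2) ∧
  (∀ (a b x z g : E) (γ : ℝ), inner ℝ g a + γ = 0 → inner ℝ g b + γ = 0 → 0 < ar b a x →
    0 ≤ inner ℝ g x + γ → 0 ≤ ar b a z → 0 ≤ inner ℝ g z + γ) ∧
  (∀ (a b w x : E), 0 < ar a b w → 0 < ar b a x →
    (∀ s t : ℝ, 0 ≤ s → s ≤ 1 → 0 ≤ t → t ≤ 1 → (1 - s) • a + s • b = (1 - t) • x + t • w →
      s * (1 - s) * dist a b ^ 2 ≤ t * (1 - t) * dist x w ^ 2) →
    ∀ (g : E) (γ : ℝ), inner ℝ g a + γ = ‖a‖ ^ 2 → inner ℝ g b + γ = ‖b‖ ^ 2 →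
      inner ℝ g w + γ = ‖w‖ ^ 2 → inner ℝ g x + γ ≤ ‖x‖ ^ 2) ∧
  (∀ (N : ℕ) (p : Fin N → E) (x : Pt N) (g : E) (γ : ℝ), ∑ v, x v = 1 →
    inner ℝ g (pos p x) + γ = ∑ v, x v * (inner ℝ g (p v) + γ)) ∧
  (∀ (N : ℕ) (p : Fin N → E) (x : Pt N) (A C g : E) (γ : ℝ), (∀ v, 0 ≤ x v) → ∑ v, x v = 1 →
    pos p x = (1 / 2 : ℝ) • (A + C) → (∀ v, 0 < x v → inner ℝ g (p v) + γ = ‖p v‖ ^ 2) →
    inner ℝ g A + γ ≤ ‖A‖ ^ 2 → inner ℝ g C + γ ≤ ‖C‖ ^ 2 →
    ∑ v, x v * dist (p v) ((1 / 2 : ℝ) • (A + C)) ^ 2 ≤ dist A C ^ 2 / 4)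

/-- [W13] Facets of a positive disc.  Piece: `S_B4 → S_G1 → S_G3 → S_W12 → S_W13`.
PROOF. A facet `f` has 3 elements (B4, not `One`); G3 (1) for two of them: `f = {a,b,w}`, distinct, `ar > 0`. (1) G1 (4). (2) choose the base `{v,w}` in G3 (1); if `p v = p w` then `ar = 0` (`ring`). (3) W12 (1). (4) `x ≥ 0`, `∑ x = 1`: some `x a > 0`; if all others are 0 then `x a = 1`, `x = vx a`. -/
def S_W13 : Prop :=
  ∀ (N : ℕ) (D : Dsc N) (p : Fin N → E), D.ok → D.SPos p → ¬ D.One →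
    (∀ f ∈ D.K, ∀ x y : Pt N, ∑ v, x v = 1 → ∑ v, y v = 1 → Sup x f → Sup y f →
      pos p x = pos p y → x = y) ∧
    (∀ f ∈ D.K, ∀ v ∈ f, ∀ w ∈ f, v ≠ w → p v ≠ p w) ∧
    (∀ f ∈ D.K, ∃ (g : E) (γ : ℝ), ∀ v ∈ f, inner ℝ g (p v) + γ = ‖p v‖ ^ 2) ∧
    (∀ x, In D.K x → (∀ v, x ≠ vx v) → ∃ a b, a ≠ b ∧ 0 < x a ∧ 0 < x b)

/-- [W14] Crossing a diagonal.  Piece: `S_G1 → S_G3 → S_W12 → S_W13 → S_W14`.
PROOF. W13 (4): `a' ≠ b'` with `x a', x b' > 0`; both are in `f` and `f'`. G3 (2): `D ~ ⟨a,b,node w l r,node w' l' r'⟩`, `f = {a,b,w}`, `f' = {a,b,w'}`, `ar (p a) (p b) (p w) > 0`, `ar (p b) (p a) (p w') > 0`. `w' ∉ f` so `x w' = 0`. G1 (1) for the triangle `b a w'`: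
`ar (p b) (p a) (pos x) = x w' * _ = 0`, `ar (p b) (p a) (pos y) = y w' * _ ≥ 0`. As `pos y = pos x + τ (z - pos x)`: `τ * ar (p b) (p a) z = ar (p b) (p a) (pos y) ≥ 0` (G1 (7)/`ring`), so `ar (p b) (p a) z ≥ 0`. Let `L = (g' - g, γ' - γ)`: it vanishes at `p a`, `p b`; at `p w'` it is
`‖p w'‖² - (<g,p w'> + γ) ≥ 0` by W12 (3) and `Del`. W12 (2): `0 ≤ L z`, so `<g,z> + γ ≤ <g',z> + γ' ≤ ‖z‖²`. -/
def S_W14 : Prop :=
  ∀ (N : ℕ) (D : Dsc N) (p : Fin N → E), D.ok → D.SPos p → ¬ D.One → Del D p →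
    ∀ f ∈ D.K, ∀ f' ∈ D.K, f ≠ f' → ∀ (x y : Pt N) (z : E) (τ : ℝ), In D.K x → In D.K y →
      Sup x f → Sup x f' → Sup y f' → (∀ v, x ≠ vx v) → 0 < τ →
      pos p y = pos p x + τ • (z - pos p x) →
      ∀ (g g' : E) (γ γ' : ℝ), (∀ v ∈ f, inner ℝ g (p v) + γ = ‖p v‖ ^ 2) →
        (∀ v ∈ f', inner ℝ g' (p v) + γ' = ‖p v‖ ^ 2) → inner ℝ g' z + γ' ≤ ‖z‖ ^ 2 →
        inner ℝ g z + γ ≤ ‖z‖ ^ 2

/-- [W15] The end of a straight chain is not inside the circumcircle of a facet at the other end.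
Piece: `S_A1 → S_A2 → S_A3 → S_B4 → S_B5 → S_G2 → S_W13 → S_W14 → S_W15`.
PROOF. Induction on the path (`x` general). `nil`: `x = vx c`, excluded. Step `x → y` in the facet `h`, then a path from `y` to `vx c` of length `r'`, `r = ce p x y + r'`. `dist (pos y) (p c) ≤ dK y c ≤ r'` (A3 with `ρ = ce p`, G2 (1)), and `ce p x y + r' = r ≤ dist (pos x) (p c)
≤ dist (pos x) (pos y) + dist (pos y) (p c)`, so `r' = dist (pos y) (p c)` and `dist_add_dist_eq_iff`: `Wbtw ℝ (pos x) (pos y) (p c)`: `pos y = pos x + τ (p c - pos x)`, `0 ≤ τ ≤ 1`. The strict inequalities hold for `y`: `dK x c ≥ dist (pos x) (p c) = ce p x y + r' ≥ dK x y + dK y c`, so for `v ≠ c`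
`dK y c ≤ dK x c - dK x y < dK x v + dK v c - dK x y ≤ dK y v + dK v c`. CASE (i) `y = vx v`: `v ∈ h`, `v ∈ vl`; if `v ≠ c` this says `dK y c < 0 + dK y c`; so `v = c ∈ h`. CASE (ii) `y` is no vertex: the induction hypothesis holds for `y`. If `f = h`: (i) `c ∈ f`, equality; (ii) induction hypothesis for `y, f`. If
`f ≠ h` and `pos y = pos x`: `y = x` (W13 (1), both in `h`), so case (ii), induction hypothesis for `y = x` and `f`. If `f ≠ h`, `pos y ≠ pos x`: `τ > 0`; take `g', γ'` for `h` (W13 (3)); `<g',p c> + γ' ≤ ‖p c‖²` ((i): `c ∈ h`, equality; (ii) induction hypothesis for `y, h`); W14 with `z = p c`. -/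
def S_W15 : Prop :=
  ∀ (N : ℕ) (D : Dsc N) (p : Fin N → E), D.ok → D.SPos p → ¬ D.One → Del D p →
    ∀ (c : Fin N) (x : Pt N) (k : ℕ) (r : ℝ), c ∈ D.vl → Path D.K (ce p) x (vx c) k r →
      r ≤ dist (pos p x) (p c) → (∀ v, x ≠ vx v) →
      (∀ v ∈ D.vl, v ≠ c → dK D.K (ce p) x (vx c) <
        dK D.K (ce p) x (vx v) + dK D.K (ce p) (vx v) (vx c)) →
      ∀ f ∈ D.K, Sup x f → ∀ (g : E) (γ : ℝ), (∀ v ∈ f, inner ℝ g (p v) + γ = ‖p v‖ ^ 2) →
        inner ℝ g (p c) + γ ≤ ‖p c‖ ^ 2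

/-- [W16] Cutting a path at a given length.  Piece: `S_A1 → S_W16`.
PROOF. Induction on the path. `nil`: `s = 0`, `z = x`. `cons x y`, cost `κ = ce p x y`, rest `r`: if `s > κ`: induction hypothesis with `s - κ`, prepend the step. If `s ≤ κ` and `κ = 0`: `s = 0`, `z = x`, `nil` and the whole path. If `s ≤ κ`, `κ > 0`: `θ = s/κ`, `z = (1-θ) x + θ y` is in the same facet (A1 (7)),
`ce p x z = θ κ = s`, `ce p z y = (1-θ) κ` (A1 (8)): paths `x → z` and `z → y → ...`. -/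
def S_W16 : Prop :=
  ∀ (N : ℕ) (K : Cx N) (p : Fin N → E) (x y : Pt N) (k : ℕ) (r s : ℝ), Path K (ce p) x y k r →
    0 ≤ s → s ≤ r → ∃ (z : Pt N) (k1 k2 : ℕ), Path K (ce p) x z k1 s ∧ Path K (ce p) z y k2 (r - s)

/-- [W17] Straight chains pointing at a vertex of the support end there.  Piece: `S_A1 → S_A3 → S_B5 → S_G2 → S_W13 → S_W17`.
PROOF. Induction on the path. `nil`: `x` is supported in a facet `f`, `q ∈ f` (`x q ≠ 0`), `pos x = p q = pos (vx q)`: `x = vx q` by W13 (1). `cons x x1`, both in the facet `h`; `q ∈ h`. As in W15 the rest of the path is straight (`r' ≤ dist (pos x1) (pos y)`) and `pos x1 = (1-τ) pos x + τ pos y`, `τ ∈ [0,1]`, `= pos ((1-τ) x + τ vx q)`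
(A1 (8)); both points are in `h` (A1 (7)), so `x1 = (1-τ) x + τ vx q` (W13 (1)) and `x1 q = (1-τ) x q + τ > 0`. Induction hypothesis for `x1`. -/
def S_W17 : Prop :=
  ∀ (N : ℕ) (D : Dsc N) (p : Fin N → E), D.ok → D.SPos p → ¬ D.One →
    ∀ (x y : Pt N) (k : ℕ) (r : ℝ), Path D.K (ce p) x y k r → r ≤ dist (pos p x) (pos p y) →
      ∀ q : Fin N, 0 < x q → p q = pos p y → y = vx q

/-- [W18] A straight chord which is no edge can be replaced by shorter chords (7.2 in one disc).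
Piece: `S_A1 → S_A2 → S_A3 → S_A6 → S_B4 → S_B5 → S_SL → S_sep0 → S_G2 → S_W12 → S_W13 → S_W15 → S_W16 → S_W17 → S_W18`.
PROOF. Write `d` for `dK D.K (ce p)`, `ℓ = d a c = |p a - p c|`, `ℓ > 0` (`S_sep0`; `vx a ≠ vx c`). A6: a path from `vx a` to `vx c` of length `ℓ`; W16 with `s = ℓ/2`: a point `m`, with paths of length `ℓ/2` to both sides, so `d a m ≤ ℓ/2`, `d m c ≤ ℓ/2` (G2 (1)), `|p a - pos m| ≤ ℓ/2`, `|pos m - p c| ≤ ℓ/2` (A3), hence equalities and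
`pos m = M = ½(p a + p c)` (equality in the triangle inequality, `dist_add_dist_eq_iff`, or the parallelogram identity); `d a m = d m c = ℓ/2`. `m` is no vertex: `m = vx a`, `m = vx c` contradict `|p a - M| = |p c - M| = ℓ/2 > 0`; `m = vx v` (`v ∈ vl`, as `m ∈ K`, B4) contradicts the hypothesis `d a c < d a v + d v c`.
For `v ∈ vl`, `v ≠ c`: `d m c < d m v + d v c`: if `v ≠ a`: `ℓ < d a v + d v c ≤ ℓ/2 + d m v + d v c`; if `v = a`: `d m c = ℓ/2 < ℓ/2 + ℓ`. Same with `a`, `c` exchanged. Let `m` be supported in `f ∈ K`; `g, γ` for `f` (W13 (3)). W15 for `(m, c)` with the path above, and for `(m, a)` with a path from A6 (length `d m a = ℓ/2 = |pos m - p a|`):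
`<g,p c> + γ ≤ ‖p c‖²`, `<g,p a> + γ ≤ ‖p a‖²`. W12 (5): `∑ m v * |p v - M|² ≤ ℓ²/4 = ∑ m v * ℓ²/4`. If every `v` with `m v > 0` is `a` or `c`: both occur (otherwise `m` is a vertex), so `a, c ∈ f`: first alternative. Otherwise, since `|p a - M|² = |p c - M|² = ℓ²/4`, there is `q ≠ a, c` with `m q > 0` and
`|p q - M| ≤ ℓ/2` (if all such `q` had `> ℓ/2`, the sum would be `> ℓ²/4`). `m` and `vx q` are in `f`, so `d m q ≤ |M - p q| ≤ ℓ/2` (A2 (5)), `d a q ≤ ℓ`, `d c q ≤ ℓ`. CLAIM: `a`, `q` are joined by the relation (short steps). If `d a q < ℓ`: one step. Otherwise `d a q = ℓ`; `S_SL` for `vx a`, `vx q`: (i) a vertex `v ≠ a, q` with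
`d a v + d v q ≤ ℓ`, both positive (`S_sep0`), so both `< ℓ`: two steps `a → v → q`. (ii) `ℓ = |p a - p q|`; then `|p a - p q| = |p a - M| + |M - p q|` with `|p a - M| = ℓ/2 ≥ |M - p q|`, so `|M - p q| = ℓ/2` and `p q = 2 M - p a = p c`. W17 for the path from `m` to `vx c` (length `ℓ/2 = |pos m - p c|`): `vx c = vx q`, `c = q`: contradiction.
Same for `c`, `q` (W17 with the path from `m` to `vx a`). So `a → .. → q → .. → c` (the relation is symmetric: `d` is symmetric). -/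
def S_W18 : Prop :=
  ∀ (N : ℕ) (D : Dsc N) (p : Fin N → E), D.ok → D.SPos p → ¬ D.One → Del D p →
    ∀ (a c : Fin N), a ∈ D.vl → c ∈ D.vl → a ≠ c →
      dK D.K (ce p) (vx a) (vx c) = dist (p a) (p c) →
      (∀ v ∈ D.vl, v ≠ a → v ≠ c → dK D.K (ce p) (vx a) (vx c) <
        dK D.K (ce p) (vx a) (vx v) + dK D.K (ce p) (vx v) (vx c)) →
      (∃ f ∈ D.K, a ∈ f ∧ c ∈ f) ∨
      Relation.ReflTransGen (fun x y => x ∈ D.vl ∧ y ∈ D.vl ∧
        dK D.K (ce p) (vx x) (vx y) < dK D.K (ce p) (vx a) (vx c)) a c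

/-- [W19] Chords of `Γ` are edges (7.2).  Piece: `S_A2 → S_B5 → S_surg → S_EX → S_W18 → S_W19` (A1, A2 for the symmetry of `d`).
PROOF. `c = (j,v,w)`, `v < w`, both in `vl_j` (`Gam`, `chs`). If `D_j` is `One`: `vl = [a,b]`, `{v,w} = {a,b}`, `K = {{a,b}}`. Otherwise W18 (hypotheses: `Surg.spos`, `Surg.del`, `S_EX`). Second alternative: every step `x → y` of the chain with `x ≠ y` gives the chord `(j, min x y, max x y) ∈ chs q` of length
`d x y < cl q c` (symmetry of `d`), joining the classes of `x`, `y` (`cj`); for `x = y` the labels agree. So the labels of `v` and `w` are joined by shorter chords, against `S_EX`. -/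
def S_W19 : Prop :=
  ∀ (N m : ℕ) (Cl : Finset ℕ) (P R1 : ℝ) (q : Fin m → Piece N), Ctx Cl P R1 (List.ofFn q) →
    ∀ c, Gam Cl q c → ∃ f ∈ (q c.1).D.K, c.2.1 ∈ f ∧ c.2.2 ∈ f

/-! ## Sections 7.3, 7.4 -/

/-- [W20] All vertices are in `Z_j`, all edges in `Γ` (7.3).  Piece: `S_B1 → S_B4 → S_B6 → S_B7 → S_surg → S_W9 → S_W11 → S_W19 → S_W20`.
PROOF. `q = mq t y`, `Z = Zs j`, `K = (q j).D.K`. `Gs j ⊆ edg K Z`: W19, `v < w` (`chs`), W9 (5). B6 (`2 ≤ |Z|`, `Z ⊆ vl`: W9): `|edg K Z| + 3 ≤ 2|Z|`, and W11: `2|Z| ≤ |Gs j| + 3 ≤ |edg K Z| + 3`. So `|Gs j| = |edg K Z|`, `Gs j = edg K Z` (`Finset.eq_of_subset_of_card_le`), and the third claim. Suppose `v ∈ vl`,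
`v ∉ Z`: B7 gives `D' ~ D` with `Z ⊆ {D'.a, D'.b} ∪ D'.P.vs` and `v ∈ D'.R.vs`; so `D'.R ≠ nil` and `Surg.ear`: a leaf `u ∈ D'.R.vs`; `u ∈ Z` (W9 (1)), so `u` occurs twice in `D'.vl = a :: b :: (P.vs ++ R.vs)`, which is `Nodup` (B1): contradiction. So `vl ⊆ Z`. Second claim: `(v,w) ∈ edg K Z = Gs j` (B4: `v, w ∈ vl`). -/
def S_W20 : Prop :=
  ∀ (N k m : ℕ) (Cl : Finset ℕ) (P R1 : ℝ) (t : Fin m → SP N k) (y : Fin m → Dat N k),
    (∀ j, (t j).names.Nodup) → Ctx Cl P R1 (mk t y) → ∀ j,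
      (∀ v ∈ (t j).D.vl, v ∈ Zs Cl (mq t y) j) ∧
      (∀ f ∈ (t j).D.K, ∀ v ∈ f, ∀ w ∈ f, v < w → Gam Cl (mq t y) (j, v, w)) ∧
      (Gs Cl (mq t y) j).card + 3 ≤ 2 * (Zs Cl (mq t y) j).card

/-- [W21] All chords of `Γ` have the same length (7.4).  Piece: `S_EX → S_ml → S_W10 → S_W11 → S_W20 → S_W21`.
PROOF. Let `q = mq t y`. Suppose not. `Γ` is finite: let `c1 ∈ Γ` have maximal length `ℓ`, and `c0 ∈ Γ` with `cl c0 < ℓ`. Let `X0 ∋ c0`, `X1 ∋ c1` be minimum spanning sets; `h = |{c ∈ X : cl c = ℓ}|` is the same for all minimum spanning sets `X` and `|X| = n - 1`, `n = Cl.card` (`S_ml`). `h ≥ 1` (`X1`), `h ≤ n - 2` (`X0`).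
Let `r_j (v,w) = n - 1 - h` if `cl (j,v,w) = ℓ`, `-h` otherwise; W11 (second part, by W20 (3)) gives `δ_j` for every `j`; `δ j = δ_j`. W10: the first three conditions are in W11; for `X` minimum spanning and `c ∈ X`, `c = (j,v,w) ∈ Γ`, `v ∈ vl_j ⊆ Z_j` (W20), so `(v,w) ∈ Gs j` and the term of `c` is `r_j (v,w)`;
the sum is `h (n-1-h) - (n-1-h) h = 0` (split `X` by the filter). W10: `δ = 0` at the vertices, but the term of `c1` is `n - 1 - h ≥ 1`, and equals `inner 0 _ = 0`: contradiction. -/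
def S_W21 : Prop :=
  ∀ (N k m : ℕ) (Cl : Finset ℕ) (P R1 : ℝ) (t : Fin m → SP N k) (y : Fin m → Dat N k),
    (∀ j, (t j).names.Nodup) → Ctx Cl P R1 (mk t y) →
      ∀ c c', Gam Cl (mq t y) c → Gam Cl (mq t y) c' → cl (mq t y) c = cl (mq t y) c'

/-- [W22] Assembly of section 7.  Piece: `theorem t_W22 (..) : S_count` from `S_X1`, `S_EX`, `S_ml`, `S_W20`, `S_W21`.
PROOF. X1: `S = mk t y`, `q = mq t y`. `S_EX`: a minimum spanning set `X`, `∑_(c ∈ X) cl c = 1`, so `X ≠ ∅`; let `c ∈ X`, `ℓ = cl c > 0` (`S_EX`). By W21 all terms are `ℓ`: `1 = |X| ℓ = (Cl.card - 1) ℓ` (`S_ml` (1)). For a piece (`= q j` for some `j`), `f ∈ K`, `v ≠ w ∈ f`: say `v < w` (`dist_comm`): `(j,v,w) ∈ Γ` (W20 (2)), so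
`dist (p v) (p w) = cl (j,v,w) = ℓ` (`S_EX` last part, W21). -/
def S_W22 : Prop := S_count

end Pool.Agent.Lib.MP_9f84a9_co
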