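import Pool.Agent.Lib.MP_9f84a9_co.W.StmW

/-!
# MP_9f84a9_co, module W, piece [W1]: roots, leaves, mu, Phi of symbolic pieces
-/

set_option autoImplicit false

namespace Pool.Agent.Lib.MP_9f84a9_co

open Finset Filter Topology

private theorem w1_fl {N k : ℕ} (z : Fin k → Pt N) (A : SNet N k) : (A.real z).fl = A.fl := by
  induction A with
  | leaf v => rfl
  | node i l r ihl ihr => exact ihl

private theorem w1_leaves {N k : ℕ} (z : Fin k → Pt N) (A : SNet N k) :
    (A.real z).leaves = A.leaves := by
  induction A with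
  | leaf v => rfl
  | node i l r ihl ihr =>
    show (l.real z).leaves ++ (r.real z).leaves = l.leaves ++ r.leaves
    rw [ihl, ihr]

private theorem w1_nodes {N k : ℕ} (z : Fin k → Pt N) (A : SNet N k) :
    (A.real z).nodes = A.names.map z := by
  induction A with
  | leaf v => rfl
  | node i l r ihl ihr =>
    show z i :: ((l.real z).nodes ++ (r.real z).nodes) = (i :: (l.names ++ r.names)).map z
    rw [ihl, ihr, List.map_cons, List.map_append]

private theorem w1_mem {N k : ℕ} (A : SNet N k) : A.fl ∈ A.leaves := by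
  induction A with
  | leaf v => exact List.mem_singleton.2 rfl
  | node i l r ihl ihr => exact List.mem_append_left _ ihl

private theorem w1_len {N k : ℕ} (A : SNet N k) : 1 ≤ A.leaves.length :=
  List.length_pos_of_mem (w1_mem A)

private theorem w1_lv {N k : ℕ} (t : SP N k) (y : Dat N k) :
    (t.real y).lv = t.T.1.leaves ++ t.T.2.leaves := by
  show (t.T.1.real y.2).leaves ++ (t.T.2.real y.2).leaves = _
  rw [w1_leaves, w1_leaves]

private theorem w1_root {N k : ℕ} (t : SP N k) (y : Dat N k) : (t.real y).root = t.root :=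
  w1_fl y.2 t.T.1

private theorem w1_nd {N k : ℕ} (t : SP N k) (y : Dat N k) :
    (t.real y).nd = t.names.map y.2 := by
  show (t.T.1.real y.2).nodes ++ (t.T.2.real y.2).nodes = (t.T.1.names ++ t.T.2.names).map y.2
  rw [w1_nodes, w1_nodes, List.map_append]

theorem t_W1 : S_W1 := by
  intro N k
  refine ⟨fun t y y' => ⟨w1_root t y, ?_, ?_, ?_⟩, fun t y R1 => ?_, fun m t y y' R1 => ⟨?_, ?_⟩⟩
  · rw [w1_lv]
    exact List.mem_append_left _ (w1_mem t.T.1)
  · rw [w1_lv, w1_lv]
  · rw [w1_lv, List.length_append]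
    exact Nat.add_le_add (w1_len t.T.1) (w1_len t.T.2)
  · show ((t.D.vl.map fun v => phi R1 (dist (y.1 v) (y.1 (t.real y).root))).sum +
      ((t.real y).nd.map fun z => dist (pos y.1 z) (y.1 (t.real y).root) ^ 2).sum) = _
    rw [w1_root, w1_nd, List.map_map]
    rfl
  · show ((List.ofFn fun j => (t j).real (y j)).map
      fun q => (q.lv.length - 1) ^ 2 * (q.D.vl.length - 1)).sum =
      ((List.ofFn fun j => (t j).real (y' j)).map
      fun q => (q.lv.length - 1) ^ 2 * (q.D.vl.length - 1)).sum
    rw [List.map_ofFn, List.map_ofFn]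
    congr 2
    funext j
    show (((t j).real (y j)).lv.length - 1) ^ 2 * ((t j).D.vl.length - 1) =
      (((t j).real (y' j)).lv.length - 1) ^ 2 * ((t j).D.vl.length - 1)
    rw [w1_lv, w1_lv]
  · show ((List.ofFn fun j => (t j).real (y j)).map (Piece.Phi R1)).sum = _
    rw [List.map_ofFn, List.sum_ofFn]
    rfl

end Pool.Agent.Lib.MP_9f84a9_co
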