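import Pool.Agent.Lib.MP_9f84a9_co.W.StmW

set_option autoImplicit false

namespace Pool.Agent.Lib.MP_9f84a9_co

open Finset Filter Topology

namespace W11

/-- the functional `δ ↦ inner (δ a - δ b) u` -/
private noncomputable def L {ι : Type} (a b : ι) (u : E) : (ι → E) →ₗ[ℝ] ℝ where
  toFun δ := inner ℝ (δ a - δ b) u
  map_add' x y := by
    simp only [Pi.add_apply, inner_sub_left, inner_add_left]
    ring
  map_smul' c x := by
    simp only [Pi.smul_apply, inner_sub_left, real_inner_smul_left, RingHom.id_apply, smul_eq_mul]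
    ring

/-- coordinate functional -/
private noncomputable def C {ι : Type} (a : ι) (i : Fin 2) : (ι → E) →ₗ[ℝ] ℝ where
  toFun δ := δ a i
  map_add' x y := by simp
  map_smul' c x := by simp

private theorem ext0 (v : E) (h : ∀ i : Fin 2, v i = 0) : v = 0 := by
  ext i
  simpa using h i

end W11

theorem t_W11 (x2 : S_X2) (_w1 : S_W1) (w8 : S_W8) (w9 : S_W9) (w10 : S_W10) : S_W11 := by
  classical
  intro N k m Cl P R1 t y hnd hC j
  have hC' : Ctx Cl P R1 (List.ofFn (mq t y)) := hC
  obtain ⟨_, _, _, _, hGA, _⟩ := w9 N m Cl P R1 (mq t y) hC' j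
  obtain ⟨_, _, _, hel, hnl, _⟩ := x2 N k (t j) (y j)
  have hn := hnd j
  set Z := Zs Cl (mq t y) j with hZ
  set Gm := Gs Cl (mq t y) j with hG
  let A : Finset (Fin N ⊕ Fin k) := Z.disjSum (t j).names.toFinset
  have hA : A.card = Z.card + (t j).names.length := by
    simp only [A, Finset.card_disjSum, List.toFinset_card_of_nodup hn]
  let κ := Fin 2 ⊕ (Fin (t j).edges.length ⊕ {e // e ∈ Gm})
  let F : κ → ((Fin N ⊕ Fin k) → E) →ₗ[ℝ] ℝ := Sum.elim (fun i => W11.C (Sum.inl (t j).root) i)
    (Sum.elim (fun n => W11.L ((t j).edges.get n).1 ((t j).edges.get n).2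
        (rot (ipos (y j) ((t j).edges.get n).1 - ipos (y j) ((t j).edges.get n).2)))
      (fun e => W11.L (Sum.inl e.1.1) (Sum.inl e.1.2) (uni ((y j).1 e.1.1 - (y j).1 e.1.2))))
  have hκ : Fintype.card κ = 2 + ((t j).edges.length + Gm.card) := by
    simp only [κ, Fintype.card_sum, Fintype.card_fin, Fintype.card_coe]
  have hker : ∀ δ : (Fin N ⊕ Fin k) → E, (∀ i, i ∉ A → δ i = 0) → (∀ x, F x δ = 0) → δ = 0 := by
    intro δ hsup hF
    have hroot : δ (Sum.inl (t j).root) = 0 := W11.ext0 _ fun i => hF (Sum.inl i)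
    have hedge : ∀ e ∈ (t j).edges, inner ℝ (δ e.1 - δ e.2)
        (rot (ipos (y j) e.1 - ipos (y j) e.2)) = 0 := by
      intro e he
      obtain ⟨n, rfl⟩ := List.get_of_mem he
      exact hF (Sum.inr (Sum.inl n))
    have hch : ∀ e ∈ Gm, inner ℝ (δ (Sum.inl e.1) - δ (Sum.inl e.2))
        (uni ((y j).1 e.1 - (y j).1 e.2)) = 0 := fun e he => hF (Sum.inr (Sum.inr ⟨e, he⟩))
    have hsv : ∀ v, v ∉ Z → δ (Sum.inl v) = 0 := fun v hv => hsup _ (by
      simpa [A] using hv)
    have hsi : ∀ i, i ∉ (t j).names → δ (Sum.inr i) = 0 := fun i hi => hsup _ (by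
      simpa [A] using hi)
    let δ' : Fin m → (Fin N ⊕ Fin k) → E := fun j' => if j' = j then δ else 0
    have e1 : δ' j = δ := if_pos rfl
    have e2 : ∀ j', j' ≠ j → δ' j' = 0 := fun j' h => if_neg h
    obtain ⟨hv, hi⟩ := w10 N k m Cl P R1 t y hnd hC δ' (by
      intro j' v hv
      by_cases h : j' = j
      · subst h
        rw [e1]
        exact hsv v hv
      · rw [e2 j' h]
        rfl) (by
      intro j'
      by_cases h : j' = j
      · subst h
        rw [e1]
        exact hroot
      · rw [e2 j' h]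
        rfl) (by
      intro j' e he
      by_cases h : j' = j
      · subst h
        rw [e1]
        exact hedge e he
      · rw [e2 j' h]
        simp) (by
      intro X hX
      refine Finset.sum_eq_zero fun c hc => ?_
      obtain ⟨j', v, w⟩ := c
      by_cases h : j' = j
      · subst h
        simp only [e1]
        have hg : Gam Cl (mq t y) (j', v, w) := ⟨X, hX, hc⟩
        have hvw := hGA v w (Or.inl hg)
        by_cases hv : v ∈ Z
        · exact hch (v, w) (by
            rw [hG]
            simp only [Gs, Finset.mem_filter, Finset.mem_univ, true_and]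
            exact ⟨hg, hv⟩)
        · rw [hsv v hv, hsv w (fun hw => hv (hvw.2 hw))]
          simp
      · simp only [e2 j' h]
        simp)
    funext x
    rcases x with v | i
    · have := hv j v
      rw [e1] at this
      exact this
    · by_cases hin : i ∈ (t j).names
      · have := hi j i hin
        rw [e1] at this
        exact this
      · exact hsi i hin
  obtain ⟨h1, h2⟩ := w8 (Fin N ⊕ Fin k) A κ F hker
  rw [hκ, hA] at h1
  refine ⟨by omega, fun hle r => ?_⟩
  obtain ⟨δ, hsup, hδ⟩ := h2 (by rw [hκ, hA]; omega)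
    (Sum.elim (fun _ => 0) (Sum.elim (fun _ => 0) (fun e => r e.1)))
  refine ⟨δ, fun v hv => hsup _ (by simpa [A] using hv), W11.ext0 _ fun i => hδ (Sum.inl i), ?_, ?_⟩
  · intro e he
    obtain ⟨n, rfl⟩ := List.get_of_mem he
    exact hδ (Sum.inr (Sum.inl n))
  · intro e he
    exact hδ (Sum.inr (Sum.inr ⟨e, he⟩))

end Pool.Agent.Lib.MP_9f84a9_co
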