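import Pool.Agent.Lib.MP_9f84a9_co.W.StmW

/-!
# MP_9f84a9_co, [W22] assembly of section 7
-/

set_option autoImplicit false

namespace Pool.Agent.Lib.MP_9f84a9_co

open Finset Filter Topology

theorem t_W22 (x1 : S_X1) (he : S_EX) (hm : S_ml) (w20 : S_W20) (w21 : S_W21) : S_count := by
  intro N Cl P R1 S hC
  obtain ⟨t, y, hn, hS, hj⟩ := x1 N ((S.map fun q => q.nd.length).sum) S (by
    intro q hq
    exact List.single_le_sum (fun _ _ => Nat.zero_le _) _ (List.mem_map.2 ⟨q, hq, rfl⟩))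
  have hC' : Ctx Cl P R1 (mk t y) := hS ▸ hC
  have hCq : Ctx Cl P R1 (List.ofFn (mq t y)) := hC'
  obtain ⟨⟨X, hX⟩, hG⟩ := he N _ Cl P R1 (mq t y) hCq
  have hne : X.Nonempty := by
    rw [Finset.nonempty_iff_ne_empty]
    intro h0
    have h1 := hX.2.2
    rw [h0, Finset.sum_empty] at h1
    exact zero_ne_one h1
  obtain ⟨c, hc⟩ := hne
  have hgc : Gam Cl (mq t y) c := ⟨X, hX, hc⟩
  have hcard := (hm N _ Cl P R1 (mq t y) hCq).1 X hX
  refine ⟨cl (mq t y) c, (hG c hgc).1, ?_, ?_⟩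
  · have hsum : ∑ c' ∈ X, cl (mq t y) c' = (X.card : ℝ) * cl (mq t y) c := by
      rw [Finset.sum_congr rfl (fun c' hc' => w21 N _ _ Cl P R1 t y hn hC' c' c ⟨X, hX, hc'⟩ hgc),
        Finset.sum_const, nsmul_eq_mul]
    have h1 := hX.2.2
    rw [hsum] at h1
    have h2 : (Cl.card : ℝ) = X.card + 1 := by
      rw [← hcard]; push_cast; ring
    rw [h2]
    linarith [h1]
  · intro q hq f hf v hv w hw hvw
    obtain ⟨j, hjq⟩ := List.mem_iff_get.1 hq
    obtain ⟨hD, -, -, hr⟩ := hj j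
    have hfe : f ∈ (t j).D.K := by rw [hD, hjq]; exact hf
    have hq' : mq t y j = q := hr.trans hjq
    have key : ∀ v ∈ f, ∀ w ∈ f, v < w → dist (q.p v) (q.p w) = cl (mq t y) c := by
      intro v hv w hw hlt
      have hg := (w20 N _ _ Cl P R1 t y hn hC' j).2.1 f hfe v hv w hw hlt
      have h1 := (hG _ hg).2.2.2.2.2
      have h2 := w21 N _ _ Cl P R1 t y hn hC' _ c hg hgc
      rw [← h2, h1]
      simp only [hq']
    rcases lt_or_gt_of_ne hvw with h | h
    · exact key v hv w hw h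
    · rw [dist_comm]; exact key w hw v hv h

end Pool.Agent.Lib.MP_9f84a9_co

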